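import Pool.Agent.H40.LS.Bas

/-!
# The stream up to a time does not depend on the hidden rows of the events in their first phase
-/

namespace H40.LS

variable {K R : ℕ}

/-- `l` is the time of an event which is in its first phase at time `τ`. -/
def inD (K R : ℕ) : List ℕ → List ℕ → Bool
  | [], _ => false
  | t :: _, [] => decide (t < K + R)
  | t :: τ, t' :: l => decide (t' = t) && inD K R τ l

theorem agree : ∀ (τ τ' : List ℕ) (A A' : List ℕ → ℕ), (∀ l, inD K R τ l = false → A l = A' l) →
    (τ' = τ ∨ tlt τ' τ) → tickAt K R A τ' = tickAt K R A' τ'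
  | [], τ', A, A', _, ht => by
    rcases ht with rfl | ht
    · unfold tickAt
      rfl
    · cases τ' with
      | nil => exact ht.elim
      | cons _ _ => exact ht.elim
  | t :: τ, τ', A, A', hA, ht => by
    cases τ' with
    | nil =>
      unfold tickAt
      rfl
    | cons t' τ' =>
      have h1 : t' ≤ t := by
        rcases ht with ht | ht | ht
        · exact (List.cons.inj ht).1.le
        · exact ht.le
        · exact ht.1.le
      have hrows : rows K R (A []) t' = rows K R (A' []) t' := by
        by_cases h2 : t < K + R
        · unfold rows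
          rw [if_pos (by omega), if_pos (by omega)]
        · rw [hA [] (by
            unfold inD
            exact decide_eq_false h2)]
      have hsub : tickAt K R (fun l => A (t' :: l)) τ' = tickAt K R (fun l => A' (t' :: l)) τ' := by
        rcases eq_or_lt_of_le h1 with h2 | h2
        · subst h2
          refine agree τ τ' _ _ ?_ ?_
          · intro l hl
            apply hA
            unfold inD
            rw [hl, Bool.and_false]
          · rcases ht with ht | ht | ht
            · exact Or.inl (List.cons.inj ht).2
            · exact absurd ht (lt_irrefl _)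
            · exact Or.inr ht.2
        · congr 1
          funext l
          apply hA
          unfold inD
          rw [decide_eq_false (by omega), Bool.false_and]
      unfold tickAt
      rw [hrows, hsub]

theorem str_agree (τ : List ℕ) (A A' : List ℕ → ℕ) (hA : ∀ l, inD K R τ l = false → A l = A' l)
    (ts : List (List ℕ)) (hts : ∀ τ' ∈ ts, τ' = τ ∨ tlt τ' τ) :
    str K R A ts = str K R A' ts := by
  unfold str
  induction ts with
  | nil => rfl
  | cons τ' ts ih =>
    rw [List.flatMap_cons, List.flatMap_cons, ih fun τ'' h => hts τ'' (List.mem_cons_of_mem _ h)]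
    congr 1
    unfold blk
    rw [agree τ τ' A A' hA (hts τ' List.mem_cons_self)]

theorem bad_agree : ∀ (x : List (ℕ × ℕ)) (A A' : List ℕ → ℕ),
    (∀ l, inD K R (tm x) l = true → A l = A' l) → bad K R A x = bad K R A' x
  | [], _, _, _ => rfl
  | e :: x, A, A', hA => by
    have h1 : bad K R (fun l => A (e.2 :: l)) x = bad K R (fun l => A' (e.2 :: l)) x := by
      apply bad_agree
      intro l hl
      apply hA
      rw [tm_cons]
      unfold inD
      rw [hl, decide_eq_true rfl, Bool.true_and]
    unfold bad
    rw [h1]
    congr 1
    by_cases h2 : e.2 < K + R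
    · have h3 : A [] = A' [] := hA [] (by
        rw [tm_cons]
        unfold inD
        exact decide_eq_true h2)
      rw [h3]
    · rw [if_neg (fun h => h2 h.1), if_neg (fun h => h2 h.1)]

theorem low_agree (b u : ℕ) (τ : List ℕ) (A A' : List ℕ → ℕ)
    (hA : ∀ l, inD K R τ l = true → A l = A' l) : low K R b u A τ = low K R b u A' τ := by
  ext v
  constructor
  · rintro ⟨x, rfl, hx, hb, hu, rfl⟩
    exact ⟨x, rfl, hx, by rwa [← bad_agree x A A' hA], hu, rfl⟩
  · rintro ⟨x, rfl, hx, hb, hu, rfl⟩
    exact ⟨x, rfl, hx, by rwa [bad_agree x A A' hA], hu, rfl⟩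

end H40.LS
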