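import Pool.Agent.H40.LS.Pot

/-!
# Basic facts on times and ticks
-/

namespace H40.LS

variable {K R : ℕ}

theorem mem_times {T : ℕ} : ∀ {h : ℕ} {τ : List ℕ}, τ ∈ times T h ↔
    τ.length = h ∧ ∀ t ∈ τ, t < T
  | 0, τ => by
    unfold times
    rw [List.mem_singleton]
    constructor
    · rintro rfl
      simp
    · rintro ⟨h, -⟩
      exact List.length_eq_zero_iff.1 h
  | h + 1, τ => by
    unfold times
    rw [List.mem_flatMap]
    constructor
    · rintro ⟨t, ht, h1⟩
      obtain ⟨σ, hσ, rfl⟩ := List.mem_map.1 h1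
      obtain ⟨h2, h3⟩ := mem_times.1 hσ
      refine ⟨by rw [List.length_cons, h2], ?_⟩
      intro t' ht'
      rcases List.mem_cons.1 ht' with rfl | ht'
      · exact List.mem_range.1 ht
      · exact h3 t' ht'
    · rintro ⟨h1, h2⟩
      cases τ with
      | nil => simp at h1
      | cons t σ =>
        refine ⟨t, List.mem_range.2 (h2 t List.mem_cons_self), List.mem_map.2 ⟨σ, ?_, rfl⟩⟩
        exact mem_times.2 ⟨by simpa using h1, fun t' ht' => h2 t' (List.mem_cons_of_mem _ ht')⟩

theorem length_times (T : ℕ) : ∀ h : ℕ, (times T h).length = T ^ h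
  | 0 => rfl
  | h + 1 => by
    unfold times
    rw [List.length_flatMap]
    have : (List.map (fun t => (List.map (fun τ => t :: τ) (times T h)).length) (List.range T))
        = List.map (fun _ => T ^ h) (List.range T) := by
      apply List.map_congr_left
      intro t _
      rw [List.length_map, length_times T h]
    rw [this]
    simp [pow_succ']

theorem times_sorted (T : ℕ) : ∀ h : ℕ, (times T h).Pairwise tlt
  | 0 => by
    unfold times
    exact List.pairwise_singleton _ _
  | h + 1 => by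
    unfold times
    rw [List.pairwise_flatMap]
    constructor
    · intro t _
      rw [List.pairwise_map]
      exact (times_sorted T h).imp fun h => Or.inr ⟨rfl, h⟩
    · refine List.Pairwise.imp ?_ (List.pairwise_lt_range (n := T))
      intro t t' htt x hx y hy
      obtain ⟨σ, -, rfl⟩ := List.mem_map.1 hx
      obtain ⟨σ', -, rfl⟩ := List.mem_map.1 hy
      exact Or.inl htt

theorem mem_tickAt : ∀ {τ : List ℕ} {A : List ℕ → ℕ} {x : List (ℕ × ℕ)}, x ∈ tickAt K R A τ →
    tm x = τ ∧ ((∀ t ∈ τ, t < K + 4 * R) → Val K R A x)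
  | [], A, x, hx => by
    unfold tickAt at hx
    rw [List.mem_singleton] at hx
    subst hx
    exact ⟨rfl, fun _ => trivial⟩
  | t :: τ, A, x, hx => by
    unfold tickAt at hx
    obtain ⟨ρ, hρ, h1⟩ := List.mem_flatMap.1 hx
    obtain ⟨x', hx', rfl⟩ := List.mem_map.1 h1
    obtain ⟨h2, h3⟩ := mem_tickAt hx'
    refine ⟨by rw [tm_cons, h2], fun h => ?_⟩
    exact ⟨hρ, h t List.mem_cons_self, h3 fun t' ht' => h t' (List.mem_cons_of_mem _ ht')⟩

theorem rows_sorted (a t : ℕ) : (rows K R a t).Pairwise (fun ρ ρ' => ρ' < ρ) := by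
  unfold rows
  split_ifs
  · rw [List.pairwise_map]
    apply List.Pairwise.filter
    rw [List.pairwise_reverse]
    refine List.Pairwise.imp ?_ (List.pairwise_lt_range (n := R))
    intro a b hab
    omega
  · exact List.pairwise_singleton _ _
  · exact List.Pairwise.nil

theorem tickAt_sorted : ∀ {τ : List ℕ} {A : List ℕ → ℕ}, (∀ l, A l < R) →
    (∀ t ∈ τ, t < K + 4 * R) → (tickAt K R A τ).Pairwise (fun x y =>
      code (K + 4 * R) (2 * R * (K + 4 * R)) y < code (K + 4 * R) (2 * R * (K + 4 * R)) x)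
  | [], A, _, _ => by
    unfold tickAt
    exact List.pairwise_singleton _ _
  | t :: τ, A, hA, hτ => by
    have hτ' : ∀ t' ∈ τ, t' < K + 4 * R := fun t' ht' => hτ t' (List.mem_cons_of_mem _ ht')
    have hA' : ∀ l, (fun l => A (t :: l)) l < R := fun l => hA _
    have hlt : ∀ x ∈ tickAt K R (fun l => A (t :: l)) τ,
        (∀ e ∈ x, e.1 < 2 * R ∧ e.2 < K + 4 * R) ∧ x.length = τ.length := by
      intro x hx
      obtain ⟨h1, h2⟩ := mem_tickAt hx
      exact ⟨Val.lt hA' (h2 hτ'), by rw [← h1, tm_length]⟩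
    have ht : t < K + 4 * R := hτ t List.mem_cons_self
    unfold tickAt
    rw [List.pairwise_flatMap]
    constructor
    · intro ρ _
      rw [List.pairwise_map]
      refine List.Pairwise.imp_of_mem ?_ (tickAt_sorted hA' hτ')
      intro x y hx hy hxy
      rw [code_cons_lt (hlt y hy).1 (hlt x hx).1 (by rw [(hlt y hy).2, (hlt x hx).2])]
      exact Or.inr ⟨rfl, hxy⟩
    · refine List.Pairwise.imp ?_ (rows_sorted (K := K) (R := R) (A []) t)
      intro ρ ρ' hρρ x hx y hy
      obtain ⟨x, hx', rfl⟩ := List.mem_map.1 hx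
      obtain ⟨y, hy', rfl⟩ := List.mem_map.1 hy
      rw [code_cons_lt (hlt y hy').1 (hlt x hx').1 (by rw [(hlt y hy').2, (hlt x hx').2])]
      left
      change ρ' * (K + 4 * R) + t < ρ * (K + 4 * R) + t
      have : (ρ' + 1) * (K + 4 * R) ≤ ρ * (K + 4 * R) := Nat.mul_le_mul_right _ hρρ
      have h6 : (ρ' + 1) * (K + 4 * R) = ρ' * (K + 4 * R) + (K + 4 * R) := by ring
      omega

theorem blk_sorted {τ : List ℕ} {A : List ℕ → ℕ} (hA : ∀ l, A l < R)
    (hτ : ∀ t ∈ τ, t < K + 4 * R) : (blk K R A τ).Pairwise (fun a b => b < a) := by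
  unfold blk
  rw [List.pairwise_map]
  refine List.Pairwise.imp ?_ (tickAt_sorted hA hτ)
  intro x y hxy
  unfold val
  omega

theorem length_rows (hR : 1 ≤ R) (a t : ℕ) : (rows K R a t).length ≤ R := by
  unfold rows
  split_ifs
  · rw [List.length_map]
    refine (List.length_filter_le _ _).trans ?_
    simp
  · simpa using hR
  · simp

theorem length_tickAt (hR : 1 ≤ R) : ∀ (τ : List ℕ) (A : List ℕ → ℕ),
    (tickAt K R A τ).length ≤ R ^ τ.length
  | [], A => by
    unfold tickAt
    simp
  | t :: τ, A => by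
    unfold tickAt
    rw [List.length_flatMap]
    have : (List.map (fun ρ => (List.map (fun x => (ρ, t) :: x)
        (tickAt K R (fun l => A (t :: l)) τ)).length) (rows K R (A []) t)).sum
        = (rows K R (A []) t).length * (tickAt K R (fun l => A (t :: l)) τ).length := by
      simp
    rw [this, List.length_cons, pow_succ']
    exact Nat.mul_le_mul (length_rows hR _ _) (length_tickAt hR τ _)

theorem bad_ph_gd : ∀ (x : List (ℕ × ℕ)) (A : List ℕ → ℕ),
    bad K R A x + ph K R x + gd K R A x = x.length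
  | [], A => rfl
  | e :: x, A => by
    have ih := bad_ph_gd x (fun l => A (e.2 :: l))
    unfold bad ph gd
    rw [List.length_cons]
    by_cases h1 : e.2 < K + R <;> by_cases h2 : e.1 = 2 * A [] <;> simp only [h1, h2, ne_eq,
      not_true_eq_false, not_false_eq_true, and_true, and_false, true_and, false_and, if_true,
      if_false] <;> omega

theorem wt_z (z : ℝ) : ∀ (x : List (ℕ × ℕ)) (A : List ℕ → ℕ),
    wt K R 1 z A x = z ^ (bad K R A x)
  | [], A => by
    change (1 : ℝ) = z ^ 0
    rw [pow_zero]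
  | e :: x, A => by
    have ih := wt_z z x (fun l => A (e.2 :: l))
    unfold wt bad W
    rw [ih, pow_add]
    by_cases h1 : e.2 < K + R <;> by_cases h2 : e.1 = 2 * A [] <;> simp [h1, h2]

theorem wt_y (y : ℝ) : ∀ (x : List (ℕ × ℕ)) (A : List ℕ → ℕ),
    wt K R y 1 A x = y ^ (ph K R x)
  | [], A => by
    change (1 : ℝ) = y ^ 0
    rw [pow_zero]
  | e :: x, A => by
    have ih := wt_y y x (fun l => A (e.2 :: l))
    unfold wt ph W
    rw [ih, pow_add]
    by_cases h1 : e.2 < K + R <;> by_cases h2 : e.1 = 2 * A [] <;> simp [h1, h2]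

end H40.LS
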