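import Pool.Agent.H40.LS.Bas

/-!
# The length of a stored pair is bounded
-/

namespace H40.LS

variable {K R : ℕ} {s : ℕ} {S : List ℕ → Finset (ℕ × ℕ)}

theorem Exact.mem_fst (hS : Exact s S) (l : List ℕ) : ∀ p ∈ S l, p.1 ∈ l := by
  induction l using List.reverseRecOn with
  | nil =>
    intro p hp
    rw [hS.nil] at hp
    exact absurd hp (Finset.notMem_empty p)
  | append_singleton l x ih =>
    intro p hp
    rcases hS.step l x p hp with h | ⟨h, -⟩
    · exact List.mem_append_left _ (ih p h)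
    · rw [h]
      simp

theorem Exact.block (hS : Exact s S) (l b : List ℕ) (hb : b.Pairwise fun x y => y < x) :
    ∀ p ∈ S (l ++ b), p ∈ S l ∨ (p.1 ∈ b ∧ (p.2 ≤ 1 ∨ ∃ q ∈ S l, q.1 < p.1 ∧ p.2 ≤ q.2 + 1)) := by
  induction b using List.reverseRecOn with
  | nil =>
    intro p hp
    rw [List.append_nil] at hp
    exact Or.inl hp
  | append_singleton b x ih =>
    intro p hp
    rw [List.pairwise_append] at hb
    obtain ⟨hb1, -, hb2⟩ := hb
    rw [← List.append_assoc] at hp
    rcases hS.step _ x p hp with h | ⟨h0, h | ⟨q, hq, hqx, h⟩⟩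
    · rcases ih hb1 p h with h1 | ⟨h1, h2⟩
      · exact Or.inl h1
      · exact Or.inr ⟨List.mem_append_left _ h1, h2⟩
    · rw [h0]
      exact Or.inr ⟨by simp, Or.inl h⟩
    · rcases ih hb1 q hq with h1 | ⟨h1, -⟩
      · rw [h0]
        exact Or.inr ⟨by simp, Or.inr ⟨q, h1, hqx, h⟩⟩
      · have := hb2 q.1 h1 x (by simp)
        omega

theorem Exact.pad (hS : Exact s S) (l : List ℕ) (hl : ∀ v ∈ l, 1 ≤ v) (j : ℕ) :
    ∀ p ∈ S (l ++ List.replicate j 1), p ∈ S l ∨ p.2 ≤ 1 := by
  induction j with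
  | zero =>
    intro p hp
    rw [List.replicate_zero, List.append_nil] at hp
    exact Or.inl hp
  | succ j ih =>
    intro p hp
    rw [List.replicate_succ', ← List.append_assoc] at hp
    rcases hS.step _ 1 p hp with h | ⟨-, h | ⟨q, hq, hqx, h⟩⟩
    · exact ih p h
    · exact Or.inr h
    · exfalso
      have h1 := hS.mem_fst _ q hq
      rcases List.mem_append.1 h1 with h2 | h2
      · have := hl _ h2
        omega
      · have := List.eq_of_mem_replicate h2
        omega

theorem str_succ (A : List ℕ → ℕ) (ts : List (List ℕ)) {k : ℕ} (hk : k < ts.length) :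
    str K R A (ts.take (k + 1)) = str K R A (ts.take k) ++ blk K R A ts[k] := by
  unfold str
  rw [List.take_succ_eq_append_getElem hk, List.flatMap_append]
  simp

/-- The number of stored pairs with low values. -/
noncomputable def cum (K R b u : ℕ) (S : List ℕ → Finset (ℕ × ℕ)) (A : List ℕ → ℕ)
    (ts : List (List ℕ)) (k : ℕ) : ℕ :=
  ∑ i ∈ Finset.range k, cnt K R b u (S (str K R A (ts.take (i + 1)))) A (ts.getD i [])

theorem inv {z : ℝ} (h1 : Par K R 1 z) (h2 : Par K R 2 1) {A : List ℕ → ℕ} (hA : ∀ l, A l < R)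
    (hS : Exact s S) (h b u : ℕ) : ∀ k, k ≤ (times (K + 4 * R) h).length →
    ∀ p ∈ S (str K R A ((times (K + 4 * R) h).take k)),
      ∃ τ ∈ (times (K + 4 * R) h).take k, ∃ x ∈ tickAt K R A τ, p.1 = val K R x ∧
        ∃ n1 n2 n3 : ℕ, p.2 ≤ n1 + n2 + n3 ∧ (n1 : ℝ) * z ^ b ≤ Ps K R 1 z A x ∧
          (n2 : ℝ) * 2 ^ u ≤ Ps K R 2 1 A x ∧ n3 ≤ cum K R b u S A (times (K + 4 * R) h) k := by
  intro k
  induction k with
  | zero =>
    intro _ p hp
    rw [List.take_zero] at hp
    have : str K R A [] = [] := rfl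
    rw [this, hS.nil] at hp
    exact absurd hp (Finset.notMem_empty p)
  | succ k ih =>
    intro hk p hp
    have hk' : k < (times (K + 4 * R) h).length := hk
    generalize hts : times (K + 4 * R) h = ts at *
    have hcum : cum K R b u S A ts (k + 1) = cum K R b u S A ts k
        + cnt K R b u (S (str K R A (ts.take (k + 1)))) A ts[k] := by
      unfold cum
      rw [Finset.sum_range_succ, List.getD_eq_getElem _ _ hk']
    have hmem : ∀ σ ∈ ts, σ.length = h ∧ ∀ t ∈ σ, t < K + 4 * R := by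
      intro σ hσ
      rw [← hts] at hσ
      exact mem_times.1 hσ
    have hp0 := hp
    rw [str_succ A ts hk'] at hp
    obtain ⟨hτl, hτ⟩ := hmem ts[k] (List.getElem_mem hk')
    rcases hS.block _ _ (blk_sorted hA hτ) p hp with h3 | ⟨h3, h4⟩
    · obtain ⟨τ, hτ1, x, hx, hpx, n1, n2, n3, hn, hn1, hn2, hn3⟩ := ih (by omega) p h3
      refine ⟨τ, ?_, x, hx, hpx, n1, n2, n3, hn, hn1, hn2, by omega⟩
      exact List.take_subset_take_left _ (Nat.le_succ k) hτ1
    · unfold blk at h3
      obtain ⟨y, hy, hyp⟩ := List.mem_map.1 h3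
      obtain ⟨hy1, hy2⟩ := mem_tickAt hy
      have hyV := hy2 hτ
      -- the induction step
      have key : ∃ m1 m2 m3 : ℕ, p.2 ≤ m1 + m2 + m3 + 1 ∧
          (m1 : ℝ) * z ^ b + wt K R 1 z A y ≤ Ps K R 1 z A y ∧
          (m2 : ℝ) * 2 ^ u + wt K R 2 1 A y ≤ Ps K R 2 1 A y ∧ m3 ≤ cum K R b u S A ts k := by
        rcases h4 with h4 | ⟨q, hq, hqp, h4⟩
        · refine ⟨0, 0, 0, by omega, ?_, ?_, Nat.zero_le _⟩
          · rw [Nat.cast_zero, zero_mul, zero_add]
            exact (pot_bd h1 hA hyV).2.1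
          · rw [Nat.cast_zero, zero_mul, zero_add]
            exact (pot_bd h2 hA hyV).2.1
        · obtain ⟨τ, hτ1, x, hx, hpx, n1, n2, n3, hn, hn1, hn2, hn3⟩ := ih (by omega) q hq
          have hτts : τ ∈ ts := List.mem_of_mem_take hτ1
          obtain ⟨hx1, hx2⟩ := mem_tickAt hx
          have hxV := hx2 (hmem τ hτts).2
          have hlen : x.length = y.length := by
            rw [← tm_length, ← tm_length, hx1, hy1, (hmem τ hτts).1, hτl]
          have htlt : tlt (tm x) (tm y) := by
            rw [hx1, hy1]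
            have hsort := times_sorted (K + 4 * R) h
            rw [hts] at hsort
            obtain ⟨i, hi, rfl⟩ := List.getElem_of_mem hτ1
            rw [List.getElem_take]
            rw [List.length_take] at hi
            exact List.pairwise_iff_getElem.1 hsort i k (by omega) hk' (by omega)
          have hcode : code (K + 4 * R) (2 * R * (K + 4 * R)) x
              < code (K + 4 * R) (2 * R * (K + 4 * R)) y := by
            rw [hpx, ← hyp] at hqp
            unfold val at hqp
            omega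
          have e1 := (pot h1 hA hxV hyV hlen htlt).2 hcode
          have e2 := (pot h2 hA hxV hyV hlen htlt).2 hcode
          exact ⟨n1, n2, n3, by omega, by linarith, by linarith, hn3⟩
      obtain ⟨m1, m2, m3, hm, hm1, hm2, hm3⟩ := key
      refine ⟨ts[k], ?_, y, hy, hyp.symm, ?_⟩
      · rw [List.take_succ_eq_append_getElem hk']
        exact List.mem_append_right _ (List.mem_singleton_self _)
      · rw [wt_z] at hm1
        rw [wt_y] at hm2
        have hz1 : (1 : ℝ) ≤ z := h1.hz1
        by_cases hbad : b ≤ bad K R A y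
        · have h5 : z ^ b ≤ z ^ bad K R A y := pow_le_pow_right₀ hz1 hbad
          have h6 : (0 : ℝ) ≤ 2 ^ ph K R y := by positivity
          refine ⟨m1 + 1, m2, m3, by omega, ?_, by linarith, by omega⟩
          rw [Nat.cast_add, Nat.cast_one]
          linarith
        · by_cases hph : u ≤ ph K R y
          · have h5 : (2 : ℝ) ^ u ≤ 2 ^ ph K R y := pow_le_pow_right₀ (by norm_num) hph
            have h6 : (0 : ℝ) ≤ z ^ bad K R A y := by positivity
            refine ⟨m1, m2 + 1, m3, by omega, by linarith, ?_, by omega⟩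
            rw [Nat.cast_add, Nat.cast_one]
            linarith
          · have h5 : (0 : ℝ) ≤ 2 ^ ph K R y := by positivity
            have h6 : (0 : ℝ) ≤ z ^ bad K R A y := by positivity
            refine ⟨m1, m2, m3 + 1, by omega, by linarith, by linarith, ?_⟩
            have h7 : 1 ≤ cnt K R b u (S (str K R A (ts.take (k + 1)))) A ts[k] := by
              classical
              unfold cnt
              rw [Nat.one_le_iff_ne_zero, ← Nat.pos_iff_ne_zero, Finset.card_pos]
              refine ⟨p, Finset.mem_filter.2 ⟨hp0, ?_⟩⟩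
              exact ⟨y, hy1, fun e he => (Val.lt hA hyV e he).1, by omega, by omega, hyp.symm⟩
            omega

theorem cum_mono (b u : ℕ) (A : List ℕ → ℕ) (ts : List (List ℕ)) {k k' : ℕ} (hk : k ≤ k') :
    cum K R b u S A ts k ≤ cum K R b u S A ts k' := by
  unfold cum
  exact Finset.sum_le_sum_of_subset (Finset.range_subset_range.2 hk)

theorem prefix_flatMap {α β : Type} (f : α → List β) : ∀ (ts : List α) (l : List β),
    l <+: ts.flatMap f → ∃ k b, k ≤ ts.length ∧ l = (ts.take k).flatMap f ++ b ∧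
      (b = [] ∨ ∃ hk : k < ts.length, b <+: f ts[k])
  | [], l, hl => by
    rw [List.flatMap_nil] at hl
    refine ⟨0, [], le_refl _, ?_, Or.inl rfl⟩
    simpa using hl
  | a :: ts, l, hl => by
    rw [List.flatMap_cons] at hl
    rcases List.prefix_or_prefix_of_prefix hl (List.prefix_append (f a) (ts.flatMap f)) with h | h
    · refine ⟨0, l, Nat.zero_le _, by simp, Or.inr ⟨by simp, by simpa using h⟩⟩
    · obtain ⟨l', rfl⟩ := h
      rw [List.prefix_append_right_inj] at hl
      obtain ⟨k, b, hk, rfl, hb⟩ := prefix_flatMap f ts l' hl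
      refine ⟨k + 1, b, by simpa using hk, ?_, ?_⟩
      · simp
      · rcases hb with hb | ⟨hk', hb⟩
        · exact Or.inl hb
        · exact Or.inr ⟨by simpa using hk', by simpa using hb⟩

theorem val_pos (x : List (ℕ × ℕ)) : 1 ≤ val K R x := by
  unfold val
  omega

theorem str_pos (A : List ℕ → ℕ) (ts : List (List ℕ)) : ∀ v ∈ str K R A ts, 1 ≤ v := by
  intro v hv
  unfold str at hv
  obtain ⟨τ, -, h1⟩ := List.mem_flatMap.1 hv
  unfold blk at h1
  obtain ⟨x, -, rfl⟩ := List.mem_map.1 h1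
  exact val_pos x

/-- The length of every pair stored at some time is bounded. -/
theorem len_bd {z : ℝ} (h1 : Par K R 1 z) (h2 : Par K R 2 1) {A : List ℕ → ℕ}
    (hA : ∀ l, A l < R) (hS : Exact s S) (h b u j : ℕ) (l : List ℕ)
    (hl : l <+: str K R A (times (K + 4 * R) h) ++ List.replicate j 1) (p : ℕ × ℕ) (hp : p ∈ S l) :
    (p.2 : ℝ) ≤ ((K : ℝ) + 3 * R) ^ h / z ^ b + ((K : ℝ) + 6 * R) ^ h / 2 ^ u
      + cum K R b u S A (times (K + 4 * R) h) (times (K + 4 * R) h).length + 1 := by
  have hz1 : (1 : ℝ) ≤ z := h1.hz1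
  have hzb : (0 : ℝ) < z ^ b := by positivity
  have h2u : (0 : ℝ) < 2 ^ u := by positivity
  have hpos1 : (0 : ℝ) ≤ ((K : ℝ) + 3 * R) ^ h / z ^ b := by positivity
  have hpos2 : (0 : ℝ) ≤ ((K : ℝ) + 6 * R) ^ h / 2 ^ u := by positivity
  have hpos3 : (0 : ℝ) ≤ cum K R b u S A (times (K + 4 * R) h) (times (K + 4 * R) h).length :=
    Nat.cast_nonneg _
  -- pairs stored at the end of a tick
  have end_tick : ∀ k, k ≤ (times (K + 4 * R) h).length →
      ∀ p ∈ S (str K R A ((times (K + 4 * R) h).take k)),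
      (p.2 : ℝ) ≤ ((K : ℝ) + 3 * R) ^ h / z ^ b + ((K : ℝ) + 6 * R) ^ h / 2 ^ u
      + cum K R b u S A (times (K + 4 * R) h) (times (K + 4 * R) h).length := by
    intro k hk p hp
    obtain ⟨τ, hτ1, x, hx, hpx, n1, n2, n3, hn, hn1, hn2, hn3⟩ := inv h1 h2 hA hS h b u k hk p hp
    obtain ⟨hτl, hτ⟩ := mem_times.1 (List.mem_of_mem_take hτ1)
    obtain ⟨hx1, hx2⟩ := mem_tickAt hx
    have hxl : x.length = h := by rw [← tm_length, hx1, hτl]
    have b1 := (pot_bd h1 hA (hx2 hτ)).2.2
    have b2 := (pot_bd h2 hA (hx2 hτ)).2.2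
    rw [hxl] at b1 b2
    have e1 : (n1 : ℝ) ≤ ((K : ℝ) + 3 * R) ^ h / z ^ b := by
      rw [le_div_iff₀ hzb]
      calc (n1 : ℝ) * z ^ b ≤ _ := hn1
        _ ≤ _ := b1
        _ = _ := by rw [mul_one]
    have e2 : (n2 : ℝ) ≤ ((K : ℝ) + 6 * R) ^ h / 2 ^ u := by
      rw [le_div_iff₀ h2u]
      calc (n2 : ℝ) * 2 ^ u ≤ _ := hn2
        _ ≤ _ := b2
        _ = _ := by
          congr 1
          ring
    have e3 : (n3 : ℝ) ≤ cum K R b u S A (times (K + 4 * R) h) (times (K + 4 * R) h).length := by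
      exact_mod_cast hn3.trans (cum_mono b u A _ hk)
    have e4 : (p.2 : ℝ) ≤ (n1 : ℝ) + n2 + n3 := by exact_mod_cast hn
    linarith
  -- all prefixes of the main part
  have main : ∀ l, l <+: str K R A (times (K + 4 * R) h) → ∀ p ∈ S l,
      (p.2 : ℝ) ≤ ((K : ℝ) + 3 * R) ^ h / z ^ b + ((K : ℝ) + 6 * R) ^ h / 2 ^ u
      + cum K R b u S A (times (K + 4 * R) h) (times (K + 4 * R) h).length + 1 := by
    intro l hl p hp
    obtain ⟨k, b', hk, rfl, hb'⟩ := prefix_flatMap (blk K R A) (times (K + 4 * R) h) l hl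
    have hsort : b'.Pairwise fun x y => y < x := by
      rcases hb' with rfl | ⟨hk', hb'⟩
      · exact List.Pairwise.nil
      · exact (blk_sorted hA (mem_times.1 (List.getElem_mem hk')).2).sublist hb'.sublist
    rcases hS.block _ _ hsort p hp with h3 | ⟨-, h4 | ⟨q, hq, -, h4⟩⟩
    · have := end_tick k hk p h3
      linarith
    · have h5 : (p.2 : ℝ) ≤ 1 := by exact_mod_cast h4
      linarith
    · have := end_tick k hk q hq
      have h5 : (p.2 : ℝ) ≤ q.2 + 1 := by exact_mod_cast h4
      linarith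
  rcases List.prefix_or_prefix_of_prefix hl (List.prefix_append _ _) with h3 | ⟨l', rfl⟩
  · exact main l h3 p hp
  · rw [List.prefix_append_right_inj] at hl
    have hl' : l' = List.replicate l'.length 1 := (List.prefix_replicate_iff.1 hl).2
    rw [hl'] at hp
    rcases hS.pad _ (str_pos A _) _ p hp with h4 | h4
    · exact main _ (List.prefix_refl _) p h4
    · have h5 : (p.2 : ℝ) ≤ 1 := by exact_mod_cast h4
      linarith

end H40.LS
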