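import Pool.Agent.H40.LS.Bas

/-!
# A long increasing subsequence
-/

namespace H40.LS

variable {K R : ℕ}

/-- The row of the long subsequence at time `t`. -/
def orow (K R a t : ℕ) : List ℕ :=
  if t < K + R then (if R ≤ a + t + 1 then [2 * a] else [])
  else if t + a + 1 < K + 4 * R then [2 * a + 1] else []

/-- The elements of the long subsequence at time `τ`. -/
def optAt (K R : ℕ) : (List ℕ → ℕ) → List ℕ → List (List (ℕ × ℕ))
  | _, [] => [[]]
  | A, t :: τ => (orow K R (A []) t).flatMap fun ρ =>
      (optAt K R (fun l => A (t :: l)) τ).map fun x => (ρ, t) :: x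

theorem orow_sublist {a : ℕ} (ha : a < R) (t : ℕ) : (orow K R a t).Sublist (rows K R a t) := by
  unfold orow
  split_ifs with h1 h2 h2
  · rw [List.singleton_sublist, mem_rows]
    exact Or.inl ⟨h1, a, ha, h2, rfl⟩
  · exact List.nil_sublist _
  · rw [List.singleton_sublist, mem_rows]
    exact Or.inr ⟨by omega, h2, rfl⟩
  · exact List.nil_sublist _

theorem optAt_sublist : ∀ (τ : List ℕ) (A : List ℕ → ℕ), (∀ l, A l < R) →
    (optAt K R A τ).Sublist (tickAt K R A τ)
  | [], A, _ => by
    unfold optAt tickAt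
    exact List.Sublist.refl _
  | t :: τ, A, hA => by
    unfold optAt tickAt
    refine (List.Sublist.flatMap_right _ fun ρ _ => ?_).trans
      (List.Sublist.flatMap (orow_sublist (hA []) t) _)
    exact (optAt_sublist τ _ fun l => hA _).map _

theorem orow_cases (a t : ℕ) : orow K R a t = [] ∨ ∃ ρ, orow K R a t = [ρ] ∧
    (t < K + R → ρ = 2 * a) ∧ (K + R ≤ t → ρ = 2 * a + 1) := by
  unfold orow
  split_ifs with h1 h2 h2
  · exact Or.inr ⟨2 * a, rfl, fun _ => rfl, fun h => by omega⟩
  · exact Or.inl rfl
  · exact Or.inr ⟨2 * a + 1, rfl, fun h => absurd h h1, fun _ => rfl⟩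
  · exact Or.inl rfl

theorem optAt_cases : ∀ (τ : List ℕ) (A : List ℕ → ℕ), optAt K R A τ = [] ∨
    ∃ x, optAt K R A τ = [x]
  | [], A => Or.inr ⟨[], rfl⟩
  | t :: τ, A => by
    unfold optAt
    rcases orow_cases (K := K) (R := R) (A []) t with h | ⟨ρ, h, -, -⟩
    · rw [h]
      exact Or.inl rfl
    · rw [h]
      rcases optAt_cases τ (fun l => A (t :: l)) with h1 | ⟨x, h1⟩
      · rw [List.flatMap_cons, h1]
        exact Or.inl rfl
      · rw [List.flatMap_cons, h1]
        exact Or.inr ⟨(ρ, t) :: x, rfl⟩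

theorem optAt_lt : ∀ {τ τ' : List ℕ} {A : List ℕ → ℕ}, (∀ l, A l < R) →
    (∀ t ∈ τ, t < K + 4 * R) → (∀ t ∈ τ', t < K + 4 * R) → τ.length = τ'.length → tlt τ τ' →
    ∀ x ∈ optAt K R A τ, ∀ y ∈ optAt K R A τ',
      code (K + 4 * R) (2 * R * (K + 4 * R)) x < code (K + 4 * R) (2 * R * (K + 4 * R)) y
  | [], _, _, _, _, _, _, ht => ht.elim
  | t :: τ, [], _, _, _, _, hl, _ => by simp at hl
  | t :: τ, t' :: τ', A, hA, hτ, hτ', hl, ht => by
    intro x hx y hy
    unfold optAt at hx hy
    obtain ⟨ρ, hρ, hx1⟩ := List.mem_flatMap.1 hx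
    obtain ⟨x', hx', rfl⟩ := List.mem_map.1 hx1
    obtain ⟨ρ', hρ', hy1⟩ := List.mem_flatMap.1 hy
    obtain ⟨y', hy', rfl⟩ := List.mem_map.1 hy1
    have h1 : ∀ t ∈ τ, t < K + 4 * R := fun t' ht' => hτ t' (List.mem_cons_of_mem _ ht')
    have h1' : ∀ t ∈ τ', t < K + 4 * R := fun t' ht' => hτ' t' (List.mem_cons_of_mem _ ht')
    have hxm := mem_tickAt ((optAt_sublist τ (fun l => A (t :: l)) fun l => hA _).subset hx')
    have hym := mem_tickAt ((optAt_sublist τ' (fun l => A (t' :: l)) fun l => hA _).subset hy')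
    have hlen : x'.length = y'.length := by
      rw [← tm_length, ← tm_length, hxm.1, hym.1]
      simpa using hl
    rw [code_cons_lt (Val.lt (fun l => hA _) (hxm.2 h1)) (Val.lt (fun l => hA _) (hym.2 h1')) hlen]
    have hρc : ρ = 2 * A [] ∧ t < K + R ∨ ρ = 2 * A [] + 1 ∧ K + R ≤ t := by
      rcases orow_cases (K := K) (R := R) (A []) t with h | ⟨ρ0, h, h2, h3⟩
      · rw [h] at hρ
        exact absurd hρ List.not_mem_nil
      · rw [h, List.mem_singleton] at hρ
        subst hρ
        by_cases h4 : t < K + R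
        · exact Or.inl ⟨h2 h4, h4⟩
        · exact Or.inr ⟨h3 (by omega), by omega⟩
    have hρc' : ρ' = 2 * A [] ∧ t' < K + R ∨ ρ' = 2 * A [] + 1 ∧ K + R ≤ t' := by
      rcases orow_cases (K := K) (R := R) (A []) t' with h | ⟨ρ0, h, h2, h3⟩
      · rw [h] at hρ'
        exact absurd hρ' List.not_mem_nil
      · rw [h, List.mem_singleton] at hρ'
        subst hρ'
        by_cases h4 : t' < K + R
        · exact Or.inl ⟨h2 h4, h4⟩
        · exact Or.inr ⟨h3 (by omega), by omega⟩
    rcases ht with ht | ⟨rfl, ht⟩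
    · left
      change ρ * (K + 4 * R) + t < ρ' * (K + 4 * R) + t'
      have h5 : ρ ≤ ρ' := by omega
      have h6 : ρ * (K + 4 * R) ≤ ρ' * (K + 4 * R) := Nat.mul_le_mul_right _ h5
      omega
    · right
      have h5 : ρ = ρ' := by omega
      subst h5
      exact ⟨rfl, optAt_lt (fun l => hA _) h1 h1' (by simpa using hl) ht x' hx' y' hy'⟩

theorem sum_orow {a : ℕ} (ha : a < R) :
    ∑ t ∈ Finset.range (K + 4 * R), (orow K R a t).length = K + 3 * R := by
  have h1 : ∀ t, (orow K R a t).length = (if (R ≤ a + t + 1 ∧ t + a + 1 < K + 4 * R) ∧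
      (t < K + R ∨ K + R ≤ t) then 1 else 0) := by
    intro t
    unfold orow
    by_cases h1 : t < K + R <;> by_cases h2 : R ≤ a + t + 1 <;> by_cases h3 : t + a + 1 < K + 4 * R
    all_goals simp only [h1, h2, h3, if_true, if_false, List.length_cons, List.length_nil, true_and,
      and_true, and_false, false_and, true_or]
    all_goals first | rfl | (exfalso; omega) | (rw [if_pos (by omega)]) | skip
  have h2 : ∀ t, (orow K R a t).length = if t ∈ Finset.Ico (R - 1 - a) (K + 4 * R - 1 - a)
      then 1 else 0 := by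
    intro t
    rw [h1 t]
    congr 1
    rw [Finset.mem_Ico]
    apply propext
    omega
  rw [Finset.sum_congr rfl fun t _ => h2 t, ← Finset.sum_filter, Finset.sum_const, smul_eq_mul,
    mul_one]
  have h3 : Finset.filter (fun t => t ∈ Finset.Ico (R - 1 - a) (K + 4 * R - 1 - a))
      (Finset.range (K + 4 * R)) = Finset.Ico (R - 1 - a) (K + 4 * R - 1 - a) := by
    ext t
    rw [Finset.mem_filter, Finset.mem_range, Finset.mem_Ico]
    omega
  rw [h3, Nat.card_Ico]
  omega

theorem length_opt : ∀ (h : ℕ) (A : List ℕ → ℕ), (∀ l, A l < R) →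
    ((times (K + 4 * R) h).flatMap (optAt K R A)).length = (K + 3 * R) ^ h
  | 0, A, _ => rfl
  | h + 1, A, hA => by
    have h1 : ∀ t, (((times (K + 4 * R) h).map fun τ => t :: τ).flatMap (optAt K R A)).length
        = (orow K R (A []) t).length * (K + 3 * R) ^ h := by
      intro t
      rw [← length_opt h (fun l => A (t :: l)) fun l => hA _]
      generalize times (K + 4 * R) h = L
      induction L with
      | nil => simp
      | cons τ L ih =>
        rw [List.map_cons, List.flatMap_cons, List.length_append, ih, List.flatMap_cons,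
          List.length_append, mul_add]
        congr 1
        change ((orow K R (A []) t).flatMap fun ρ =>
          (optAt K R (fun l => A (t :: l)) τ).map fun x => (ρ, t) :: x).length = _
        simp
    have h2 : ∀ m : ℕ, (((List.range m).flatMap fun t => (times (K + 4 * R) h).map
        fun τ => t :: τ).flatMap (optAt K R A)).length
        = ∑ t ∈ Finset.range m, (orow K R (A []) t).length * (K + 3 * R) ^ h := by
      intro m
      induction m with
      | zero => simp
      | succ m ih =>
        rw [List.range_succ, List.flatMap_append, List.flatMap_append, List.length_append, ih,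
          Finset.sum_range_succ, List.flatMap_cons, List.flatMap_nil, List.append_nil, h1]
    unfold times
    rw [h2, ← Finset.sum_mul, sum_orow (hA []), pow_succ']

/-- The longest increasing subsequence of the stream (even if elements are added at the end). -/
theorem le_LIS {A : List ℕ → ℕ} (hA : ∀ l, A l < R) (h : ℕ) (l' : List ℕ) :
    (K + 3 * R) ^ h ≤ LIS (str K R A (times (K + 4 * R) h) ++ l') := by
  unfold LIS
  have hbdd : BddAbove {k | ∃ t : List ℕ, t.Sublist (str K R A (times (K + 4 * R) h) ++ l') ∧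
      t.Pairwise (· < ·) ∧ t.length = k} := by
    refine ⟨(str K R A (times (K + 4 * R) h) ++ l').length, ?_⟩
    rintro k ⟨t, ht, -, rfl⟩
    exact ht.length_le
  refine le_csSup hbdd ⟨((times (K + 4 * R) h).flatMap (optAt K R A)).map (val K R), ?_, ?_, ?_⟩
  · refine List.Sublist.trans ?_ (List.sublist_append_left _ _)
    unfold str
    rw [List.map_flatMap]
    refine List.Sublist.flatMap_right _ fun τ _ => ?_
    exact (optAt_sublist τ A hA).map _
  · rw [List.pairwise_map, List.pairwise_flatMap]
    constructor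
    · intro τ _
      rcases optAt_cases (K := K) (R := R) τ A with h1 | ⟨x, h1⟩
      · rw [h1]
        exact List.Pairwise.nil
      · rw [h1]
        exact List.pairwise_singleton _ _
    · refine List.Pairwise.imp_of_mem ?_ (times_sorted (K + 4 * R) h)
      intro τ τ' hτ hτ' ht x hx y hy
      obtain ⟨h1, h2⟩ := mem_times.1 hτ
      obtain ⟨h1', h2'⟩ := mem_times.1 hτ'
      have := optAt_lt hA h2 h2' (by rw [h1, h1']) ht x hx y hy
      unfold val
      omega
  · rw [List.length_map, length_opt h A hA]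

end H40.LS
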