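import Pool.Agent.H40.LS.PModel
import Pool.Agent.H40.LS.Opt
import Pool.Agent.H40.LS.Inv

/-!
# Concatenation of copies
-/

namespace H40.LS

variable {K R : ℕ}

theorem run_append {Q : Type} (step : ℕ → Q → ℕ → Q) : ∀ (l l' : List ℕ) (i : ℕ) (q : Q),
    run step i q (l ++ l') = run step (i + l.length) (run step i q l) l'
  | [], l', i, q => rfl
  | x :: l, l', i, q => by
    change run step (i + 1) (step i q x) (l ++ l')
      = run step (i + (x :: l).length) (run step (i + 1) (step i q x) l) l'
    have h1 : i + (x :: l).length = i + 1 + l.length := by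
      rw [List.length_cons]
      omega
    rw [run_append step l l' (i + 1), h1]

theorem mem_run {s : ℕ} (M : PassMemory s) (κ : ℕ) : ∀ (l : List ℕ) (i : ℕ) (q : M.Q) (a : ℕ),
    a ∈ M.mem (run (M.step κ) i q l) → a ∈ M.mem q ∨ i ≤ a
  | [], i, q, a, h => Or.inl h
  | x :: l, i, q, a, h => by
    rcases mem_run M κ l (i + 1) _ a h with h1 | h1
    · rcases Finset.mem_insert.1 (M.mem_step κ i q x h1) with h2 | h2
      · exact Or.inr (by omega)
      · exact Or.inl h2
    · exact Or.inr (by omega)

/-- The width of the value range of one copy. -/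
def wid (K R h : ℕ) : ℕ := (2 * R * (K + 4 * R)) ^ h

/-- One copy. -/
def copy (K R h c : ℕ) (A : List ℕ → ℕ) : List ℕ :=
  (str K R A (times (K + 4 * R) h)).map (· + c * wid K R h)

/-- The concatenation of `m` copies. -/
def cat (K R h : ℕ) (Af : ℕ → List ℕ → ℕ) (m : ℕ) : List ℕ :=
  (List.range m).flatMap fun c => copy K R h c (Af c)

theorem cat_succ (h : ℕ) (Af : ℕ → List ℕ → ℕ) (m : ℕ) :
    cat K R h Af (m + 1) = cat K R h Af m ++ copy K R h m (Af m) := by
  unfold cat
  rw [List.range_succ, List.flatMap_append]
  simp

theorem cat_congr (h : ℕ) {Af Af' : ℕ → List ℕ → ℕ} {m : ℕ} (hA : ∀ c < m, Af c = Af' c) :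
    cat K R h Af m = cat K R h Af' m := by
  induction m with
  | zero => rfl
  | succ m ih =>
    rw [cat_succ, cat_succ, ih fun c hc => hA c (by omega), hA m (by omega)]

theorem cat_prefix (h : ℕ) (Af : ℕ → List ℕ → ℕ) {c m : ℕ} (hc : c ≤ m) :
    cat K R h Af c <+: cat K R h Af m := by
  induction m with
  | zero =>
    have : c = 0 := by omega
    subst this
    exact List.prefix_refl _
  | succ m ih =>
    rcases Nat.lt_or_ge m c with h1 | h1
    · have : c = m + 1 := by omega
      subst this
      exact List.prefix_refl _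
    · rw [cat_succ]
      exact (ih h1).trans (List.prefix_append _ _)

theorem locate {α β : Type} (f : α → List β) : ∀ (ts : List α) (j : ℕ)
    (hj : j < (ts.flatMap f).length), ∃ (k : ℕ) (hk : k < ts.length) (i : ℕ)
      (hi : i < (f ts[k]).length), j = ((ts.take k).flatMap f).length + i ∧
      (ts.flatMap f)[j] = (f ts[k])[i]
  | [], j, hj => by simp at hj
  | a :: ts, j, hj => by
    have hj' := hj
    rw [List.flatMap_cons, List.length_append] at hj'
    by_cases h1 : j < (f a).length
    · refine ⟨0, by simp, j, by simpa using h1, by simp, ?_⟩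
      simp only [List.flatMap_cons, List.getElem_cons_zero]
      rw [List.getElem_append_left h1]
    · obtain ⟨k, hk, i, hi, h2, h3⟩ := locate f ts (j - (f a).length) (by omega)
      refine ⟨k + 1, by simpa using hk, i, by simpa using hi, ?_, ?_⟩
      · rw [List.take_succ_cons, List.flatMap_cons, List.length_append]
        omega
      · simp only [List.flatMap_cons, List.getElem_cons_succ]
        rw [List.getElem_append_right (by omega)]
        exact h3

/-- The position of the first element of tick `i` of copy `c`. -/
def pos (K R h : ℕ) (Af : ℕ → List ℕ → ℕ) (c i : ℕ) : ℕ :=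
  (cat K R h Af c).length + (str K R (Af c) ((times (K + 4 * R) h).take i)).length

theorem pos_succ (h : ℕ) (Af : ℕ → List ℕ → ℕ) (c : ℕ) {i : ℕ}
    (hi : i < (times (K + 4 * R) h).length) :
    pos K R h Af c (i + 1)
      = pos K R h Af c i + (blk K R (Af c) (times (K + 4 * R) h)[i]).length := by
  unfold pos
  rw [str_succ _ _ hi, List.length_append, add_assoc]

theorem pos_le_right (h : ℕ) (Af : ℕ → List ℕ → ℕ) (c : ℕ) {i i' : ℕ} (hi : i ≤ i') :
    pos K R h Af c i ≤ pos K R h Af c i' := by
  unfold pos
  apply Nat.add_le_add_left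
  unfold str
  have h1 : ((times (K + 4 * R) h).take i).Sublist ((times (K + 4 * R) h).take i') :=
    (List.take_prefix_take_left hi).sublist
  exact (h1.flatMap _).length_le

theorem pos_le_cat (h : ℕ) (Af : ℕ → List ℕ → ℕ) (c i : ℕ) :
    pos K R h Af c i ≤ (cat K R h Af (c + 1)).length := by
  rw [cat_succ, List.length_append]
  unfold pos copy
  apply Nat.add_le_add_left
  rw [List.length_map]
  unfold str
  exact ((List.take_sublist i _).flatMap _).length_le

theorem cat_le_pos (h : ℕ) (Af : ℕ → List ℕ → ℕ) {c c' : ℕ} (hc : c ≤ c') (i : ℕ) :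
    (cat K R h Af c).length ≤ pos K R h Af c' i := by
  unfold pos
  exact (cat_prefix h Af hc).length_le.trans (Nat.le_add_right _ _)

/-- The prefix of the stream before tick `i` of copy `c`. -/
theorem take_pos (h : ℕ) (Af : ℕ → List ℕ → ℕ) {c m : ℕ} (hc : c < m) (i : ℕ) (l' : List ℕ) :
    (cat K R h Af m ++ l').take (pos K R h Af c i) = cat K R h Af c ++
      (str K R (Af c) ((times (K + 4 * R) h).take i)).map (· + c * wid K R h) := by
  have h1 : cat K R h Af c ++
      (str K R (Af c) ((times (K + 4 * R) h).take i)).map (· + c * wid K R h)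
      <+: cat K R h Af m ++ l' := by
    refine List.IsPrefix.trans ?_ (List.prefix_append _ _)
    refine List.IsPrefix.trans ?_ (cat_prefix h Af (show c + 1 ≤ m by omega))
    rw [cat_succ, List.prefix_append_right_inj]
    unfold copy
    have h2 : str K R (Af c) ((times (K + 4 * R) h).take i)
        <+: str K R (Af c) (times (K + 4 * R) h) := by
      unfold str
      conv_rhs => rw [← List.take_append_drop i (times (K + 4 * R) h)]
      rw [List.flatMap_append]
      exact List.prefix_append _ _
    exact h2.map _
  rw [List.prefix_iff_eq_take] at h1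
  rw [List.length_append, List.length_map] at h1
  exact h1.symm

/-- Location of a position. -/
structure Loc (K R h : ℕ) (Af : ℕ → List ℕ → ℕ) (m a c i : ℕ) (y : List (ℕ × ℕ)) : Prop where
  hc : c < m
  hi : i < (times (K + 4 * R) h).length
  hy : y ∈ tickAt K R (Af c) (times (K + 4 * R) h)[i]
  hlt : a < pos K R h Af c (i + 1)
  hge : pos K R h Af c i ≤ a
  hval : (str K R (Af c) ((times (K + 4 * R) h).take (i + 1))).getD
    (a - (cat K R h Af c).length) 0 = val K R y
  hblk : (blk K R (Af c) (times (K + 4 * R) h)[i]).getD (a - pos K R h Af c i) 0 = val K R y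

theorem exists_loc (h : ℕ) (Af : ℕ → List ℕ → ℕ) (m a : ℕ)
    (ha : a < (cat K R h Af m).length) : ∃ c i y, Loc K R h Af m a c i y ∧
      (cat K R h Af m).getD a 0 = val K R y + c * wid K R h := by
  obtain ⟨c, hc, i1, hi1, h1, h2⟩ := locate (fun c => copy K R h c (Af c)) (List.range m) a ha
  have hc' : c < m := by simpa using hc
  have hrc : (List.range m)[c] = c := by simp
  have hrt : (List.range m).take c = List.range c := by
    rw [List.take_range]
    congr 1
    omega
  rw [hrt] at h1
  change a = (cat K R h Af c).length + i1 at h1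
  have hi1' : i1 < (copy K R h c (Af c)).length := by
    have := hi1
    rw [hrc] at this
    exact this
  have h2' : (cat K R h Af m)[a] = (copy K R h c (Af c))[i1] := by
    have h6 : (cat K R h Af m)[a] = ((List.range m).flatMap fun c => copy K R h c (Af c))[a]'ha :=
      rfl
    rw [h6, h2]
    simp only [hrc]
  have hi2 : i1 < (str K R (Af c) (times (K + 4 * R) h)).length := by
    unfold copy at hi1'
    rwa [List.length_map] at hi1'
  obtain ⟨i, hi, e, he, h3, h4⟩ := locate (blk K R (Af c)) (times (K + 4 * R) h) i1 hi2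
  have he' : e < (tickAt K R (Af c) (times (K + 4 * R) h)[i]).length := by
    unfold blk at he
    rwa [List.length_map] at he
  have h5 : (blk K R (Af c) (times (K + 4 * R) h)[i])[e]
      = val K R (tickAt K R (Af c) (times (K + 4 * R) h)[i])[e] := by
    unfold blk
    rw [List.getElem_map]
  change i1 = (str K R (Af c) ((times (K + 4 * R) h).take i)).length + e at h3
  have hpos : a = pos K R h Af c i + e := by
    unfold pos
    omega
  refine ⟨c, i, (tickAt K R (Af c) (times (K + 4 * R) h)[i])[e], ⟨hc', hi, List.getElem_mem he',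
    ?_, by omega, ?_, ?_⟩, ?_⟩
  · rw [pos_succ h Af c hi]
    omega
  · rw [str_succ _ _ hi]
    have h6 : a - (cat K R h Af c).length
        = (str K R (Af c) ((times (K + 4 * R) h).take i)).length + e := by omega
    rw [h6, List.getD_append_right _ _ _ _ (by omega), Nat.add_sub_cancel_left,
      List.getD_eq_getElem _ _ he, h5]
  · rw [hpos, Nat.add_sub_cancel_left, List.getD_eq_getElem _ _ he, h5]
  · rw [List.getD_eq_getElem _ _ ha, h2']
    unfold copy
    rw [List.getElem_map]
    congr 1
    exact h4.trans h5

end H40.LS
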