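import Pool.Agent.H40.LS.Bas

/-!
# The moment of the number of levels in the hidden row
-/

namespace H40.LS

variable {K R : ℕ}

theorem sum_pi_le {D : Type} [Fintype D] [DecidableEq D] {R h : ℕ} (ι : Fin h → D)
    (hι : Function.Injective ι) (F : Fin h → Fin R → ℕ) (hF : ∀ j, ∑ v, F j v ≤ 2 * R) :
    ∑ a : D → Fin R, ∏ j, F j (a (ι j)) ≤ 2 ^ h * R ^ Fintype.card D := by
  classical
  have h1 : ∀ a : D → Fin R, ∏ j, F j (a (ι j))
      = ∏ d, ∏ j ∈ Finset.univ.filter fun j => ι j = d, F j (a d) := by
    intro a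
    rw [← Finset.prod_fiberwise (s := Finset.univ) (g := ι) (f := fun j => F j (a (ι j)))]
    apply Finset.prod_congr rfl
    intro d _
    apply Finset.prod_congr rfl
    intro j hj
    rw [(Finset.mem_filter.1 hj).2]
  rw [Finset.sum_congr rfl fun a _ => h1 a]
  have h2 := Finset.prod_univ_sum (fun _ : D => (Finset.univ : Finset (Fin R)))
    (fun d v => ∏ j ∈ Finset.univ.filter fun j => ι j = d, F j v)
  rw [Fintype.piFinset_univ] at h2
  rw [← h2]
  have h3 : ∀ d : D, ∑ v : Fin R, ∏ j ∈ Finset.univ.filter (fun j => ι j = d), F j v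
      ≤ 2 ^ (Finset.univ.filter fun j => ι j = d).card * R := by
    intro d
    rcases Nat.lt_or_ge 0 (Finset.univ.filter fun j => ι j = d).card with h4 | h4
    · obtain ⟨j, hj⟩ := Finset.card_pos.1 h4
      have h5 : Finset.univ.filter (fun j => ι j = d) = {j} := by
        ext j'
        rw [Finset.mem_filter, Finset.mem_singleton]
        constructor
        · rintro ⟨-, h6⟩
          apply hι
          rw [h6, (Finset.mem_filter.1 hj).2]
        · rintro rfl
          exact ⟨Finset.mem_univ _, (Finset.mem_filter.1 hj).2⟩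
      rw [h5, Finset.card_singleton, pow_one]
      simpa using hF j
    · have h5 : Finset.univ.filter (fun j => ι j = d) = ∅ := by
        rw [← Finset.card_eq_zero]
        omega
      rw [h5]
      simp
  refine (Finset.prod_le_prod' fun d _ => h3 d).trans ?_
  rw [Finset.prod_mul_distrib, Finset.prod_const, Finset.prod_pow_eq_pow_sum, Finset.card_univ]
  apply Nat.mul_le_mul_right
  apply le_of_eq
  congr 1
  have h6 := Finset.card_eq_sum_card_fiberwise (s := (Finset.univ : Finset (Fin h)))
    (t := (Finset.univ : Finset D)) (f := ι) (fun _ _ => Finset.mem_coe.2 (Finset.mem_univ _))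
  rw [Finset.card_univ, Fintype.card_fin] at h6
  exact h6.symm

theorem gd_eq : ∀ (x : List (ℕ × ℕ)) (A : List ℕ → ℕ), gd K R A x = ∑ j ∈ Finset.range x.length,
    if (x.getD j (0, 0)).2 < K + R ∧ (x.getD j (0, 0)).1 = 2 * A ((tm x).take j) then 1 else 0
  | [], A => rfl
  | e :: x, A => by
    have ih := gd_eq x (fun l => A (e.2 :: l))
    rw [List.length_cons, Finset.sum_range_succ', add_comm]
    unfold gd
    rw [ih]
    rfl

theorem mem_dom {T h : ℕ} {l : List ℕ} : l ∈ dom T h ↔ l.length < h ∧ ∀ t ∈ l, t < T := by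
  unfold dom
  rw [Finset.mem_biUnion]
  constructor
  · rintro ⟨j, hj, h1⟩
    rw [List.mem_toFinset, mem_times] at h1
    exact ⟨by rw [h1.1]; exact Finset.mem_range.1 hj, h1.2⟩
  · rintro ⟨h1, h2⟩
    exact ⟨l.length, Finset.mem_range.2 h1, List.mem_toFinset.2 (mem_times.2 ⟨rfl, h2⟩)⟩

theorem ext_lt {T h R : ℕ} (hR : 1 ≤ R) (ω : dom T h → Fin R) (l : List ℕ) : ext ω l < R := by
  unfold ext
  split_ifs
  · exact Fin.is_lt _
  · exact hR

theorem moment {T h : ℕ} (hR : 1 ≤ R) (x : List (ℕ × ℕ)) (hx : tm x ∈ times T h) :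
    ∑ a : dom T h → Fin R, R ^ gd K R (ext a) x ≤ 2 ^ h * R ^ Fintype.card (dom T h) := by
  classical
  obtain ⟨h1, h2⟩ := mem_times.1 hx
  have hxl : x.length = h := by rw [← tm_length, h1]
  have hmem : ∀ j : Fin h, (tm x).take j ∈ dom T h := by
    intro j
    rw [mem_dom]
    refine ⟨?_, fun t ht => h2 t (List.mem_of_mem_take ht)⟩
    rw [List.length_take, h1]
    have := j.2
    omega
  have hinj : Function.Injective fun j : Fin h => (⟨(tm x).take j, hmem j⟩ : dom T h) := by
    intro i j hij
    have h3 := congrArg (fun d : dom T h => d.1.length) hij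
    simp only [List.length_take, h1] at h3
    apply Fin.ext
    have := i.2
    have := j.2
    omega
  have h4 := sum_pi_le (R := R) (fun j : Fin h => (⟨(tm x).take j, hmem j⟩ : dom T h)) hinj
    (fun j v => R ^ (if (x.getD j (0, 0)).2 < K + R ∧ (x.getD j (0, 0)).1 = 2 * (v : ℕ)
      then 1 else 0)) (by
      intro j
      have h5 : ∀ v : Fin R, R ^ (if (x.getD j (0, 0)).2 < K + R ∧
          (x.getD j (0, 0)).1 = 2 * (v : ℕ) then 1 else 0)
          ≤ 1 + if (x.getD j (0, 0)).1 = 2 * (v : ℕ) then R else 0 := by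
        intro v
        by_cases h6 : (x.getD j (0, 0)).2 < K + R <;>
          by_cases h7 : (x.getD j (0, 0)).1 = 2 * (v : ℕ)
        · rw [if_pos ⟨h6, h7⟩, if_pos h7, pow_one]
          omega
        · rw [if_neg (fun h => h7 h.2), if_neg h7, pow_zero]
          exact le_refl _
        · rw [if_neg (fun h => h6 h.1), if_pos h7, pow_zero]
          omega
        · rw [if_neg (fun h => h6 h.1), if_neg h7, pow_zero]
          exact le_refl _
      refine (Finset.sum_le_sum fun v _ => h5 v).trans ?_
      rw [Finset.sum_add_distrib, ← Finset.sum_filter, Finset.sum_const, Finset.sum_const,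
        Finset.card_univ, Fintype.card_fin]
      have h8 : (Finset.univ.filter fun v : Fin R =>
          (x.getD j (0, 0)).1 = 2 * (v : ℕ)).card ≤ 1 := by
        rw [Finset.card_le_one]
        intro v hv w hw
        have h9 := (Finset.mem_filter.1 hv).2
        have h10 := (Finset.mem_filter.1 hw).2
        apply Fin.ext
        omega
      rw [smul_eq_mul, smul_eq_mul, mul_one]
      have := Nat.mul_le_mul_right R h8
      omega)
  refine le_trans (le_of_eq ?_) h4
  apply Finset.sum_congr rfl
  intro a _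
  rw [gd_eq, ← Finset.prod_pow_eq_pow_sum, hxl, ← Fin.prod_univ_eq_prod_range
    (fun j => R ^ (if (x.getD j (0, 0)).2 < K + R ∧
      (x.getD j (0, 0)).1 = 2 * ext a ((tm x).take j) then 1 else 0)) h]
  apply Finset.prod_congr rfl
  intro j _
  have h11 : ext a ((tm x).take j) = (a ⟨(tm x).take j, hmem j⟩ : ℕ) := by
    unfold ext
    rw [dif_pos (hmem j)]
  rw [h11]

end H40.LS
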