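import Pool.Agent.H40.LS.Agr
import Pool.Agent.H40.LS.Mom

/-!
# The expected number of stored pairs with low values
-/

namespace H40.LS

variable {K R : ℕ}

theorem code_inj : ∀ {x x' : List (ℕ × ℕ)}, (∀ e ∈ x, e.1 < 2 * R ∧ e.2 < K + 4 * R) →
    (∀ e ∈ x', e.1 < 2 * R ∧ e.2 < K + 4 * R) → x.length = x'.length →
    code (K + 4 * R) (2 * R * (K + 4 * R)) x = code (K + 4 * R) (2 * R * (K + 4 * R)) x' → x = x'
  | [], [], _, _, _, _ => rfl
  | [], e :: x, _, _, h, _ => by simp at h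
  | e :: x, [], _, _, h, _ => by simp at h
  | e :: x, e' :: x', hx, hx', hl, hc => by
    have hy : ∀ e ∈ x, e.1 < 2 * R ∧ e.2 < K + 4 * R := fun e he => hx e (List.mem_cons_of_mem _ he)
    have hy' : ∀ e ∈ x', e.1 < 2 * R ∧ e.2 < K + 4 * R :=
      fun e he => hx' e (List.mem_cons_of_mem _ he)
    have hl' : x.length = x'.length := by simpa using hl
    have h1 := (code_cons_lt (e := e) (e' := e') hy hy' hl').not.1 (by rw [hc]; exact lt_irrefl _)
    have h2 := (code_cons_lt (e := e') (e' := e) hy' hy hl'.symm).not.1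
      (by rw [hc]; exact lt_irrefl _)
    push Not at h1 h2
    have h3 : e.1 * (K + 4 * R) + e.2 = e'.1 * (K + 4 * R) + e'.2 := le_antisymm h2.1 h1.1
    have h4 := h1.2 h3
    have h5 := h2.2 h3.symm
    have ih := code_inj hy hy' hl' (le_antisymm h5 h4)
    obtain ⟨h6, h7⟩ := hx e List.mem_cons_self
    obtain ⟨h8, h9⟩ := hx' e' List.mem_cons_self
    have h10 : e.1 = e'.1 := by
      rcases lt_trichotomy e.1 e'.1 with h | h | h
      · exfalso
        have h11 : (e.1 + 1) * (K + 4 * R) ≤ e'.1 * (K + 4 * R) := Nat.mul_le_mul_right _ h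
        have h12 : (e.1 + 1) * (K + 4 * R) = e.1 * (K + 4 * R) + (K + 4 * R) := by ring
        omega
      · exact h
      · exfalso
        have h11 : (e'.1 + 1) * (K + 4 * R) ≤ e.1 * (K + 4 * R) := Nat.mul_le_mul_right _ h
        have h12 : (e'.1 + 1) * (K + 4 * R) = e'.1 * (K + 4 * R) + (K + 4 * R) := by ring
        omega
    have h11 : e.2 = e'.2 := by
      rw [h10] at h3
      omega
    rw [ih, Prod.ext h10 h11]

open Classical in
theorem low_count {h : ℕ} (hR : 1 ≤ R) (b u : ℕ) {τ : List ℕ} (hτ : τ ∈ times (K + 4 * R) h)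
    (v : ℕ) :
    (Finset.univ.filter fun a : dom (K + 4 * R) h → Fin R => v ∈ low K R b u (ext a) τ).card * R ^ h
      ≤ 2 ^ h * R ^ (b + u) * R ^ Fintype.card (dom (K + 4 * R) h) := by
  obtain ⟨hτ1, hτ2⟩ := mem_times.1 hτ
  by_cases hx : ∃ x : List (ℕ × ℕ), tm x = τ ∧ (∀ e ∈ x, e.1 < 2 * R) ∧ v = val K R x
  · obtain ⟨x, hx1, hx2, hx3⟩ := hx
    have hbd : ∀ y : List (ℕ × ℕ), tm y = τ → (∀ e ∈ y, e.1 < 2 * R) →
        ∀ e ∈ y, e.1 < 2 * R ∧ e.2 < K + 4 * R := by
      intro y hy1 hy2 e he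
      refine ⟨hy2 e he, hτ2 _ ?_⟩
      rw [← hy1]
      exact List.mem_map.2 ⟨e, he, rfl⟩
    have hxl : x.length = h := by rw [← tm_length, hx1, hτ1]
    have h1 : ∀ a ∈ Finset.univ.filter fun a : dom (K + 4 * R) h → Fin R =>
        v ∈ low K R b u (ext a) τ, R ^ h ≤ R ^ (b + u) * R ^ gd K R (ext a) x := by
      intro a ha
      obtain ⟨y, hy1, hy2, hy3, hy4, hy5⟩ := (Finset.mem_filter.1 ha).2
      have hxy : x = y := by
        refine code_inj (hbd x hx1 hx2) (hbd y hy1 hy2) ?_ ?_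
        · rw [← tm_length, ← tm_length, hx1, hy1]
        · rw [hx3] at hy5
          unfold val at hy5
          omega
      subst hxy
      rw [← pow_add]
      apply Nat.pow_le_pow_right hR
      have := bad_ph_gd (K := K) (R := R) x (ext a)
      omega
    calc _ = ∑ a ∈ Finset.univ.filter fun a : dom (K + 4 * R) h → Fin R =>
        v ∈ low K R b u (ext a) τ, R ^ h := by rw [Finset.sum_const, smul_eq_mul]
      _ ≤ ∑ a ∈ Finset.univ.filter fun a : dom (K + 4 * R) h → Fin R =>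
        v ∈ low K R b u (ext a) τ, R ^ (b + u) * R ^ gd K R (ext a) x := Finset.sum_le_sum h1
      _ ≤ ∑ a : dom (K + 4 * R) h → Fin R, R ^ (b + u) * R ^ gd K R (ext a) x :=
        Finset.sum_le_sum_of_subset (Finset.filter_subset _ _)
      _ = R ^ (b + u) * ∑ a : dom (K + 4 * R) h → Fin R, R ^ gd K R (ext a) x := by
        rw [Finset.mul_sum]
      _ ≤ R ^ (b + u) * (2 ^ h * R ^ Fintype.card (dom (K + 4 * R) h)) :=
        Nat.mul_le_mul_left _ (moment hR x (by rw [hx1]; exact hτ))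
      _ = _ := by ring
  · have h1 : Finset.univ.filter (fun a : dom (K + 4 * R) h → Fin R =>
        v ∈ low K R b u (ext a) τ) = ∅ := by
      rw [Finset.filter_eq_empty_iff]
      rintro a - ⟨x, hx1, hx2, -, -, hx3⟩
      exact hx ⟨x, hx1, hx2, hx3⟩
    rw [h1]
    simp

/-- Exchange the hidden rows of the events in their first phase. -/
def mix {T h : ℕ} (K : ℕ) {R : ℕ} (τ : List ℕ) (ω a : dom T h → Fin R) : dom T h → Fin R :=
  fun d => if inD K R τ d.1 then a d else ω d

theorem ext_mix_false {T h : ℕ} {τ : List ℕ} (ω a : dom T h → Fin R) {l : List ℕ}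
    (hl : inD K R τ l = false) : ext (mix K τ ω a) l = ext ω l := by
  unfold ext mix
  split_ifs with h1 h2
  · rw [hl] at h2
    exact absurd h2 (by decide)
  · rfl
  · rfl

theorem ext_mix_true {T h : ℕ} {τ : List ℕ} (ω a : dom T h → Fin R) {l : List ℕ}
    (hl : inD K R τ l = true) : ext (mix K τ ω a) l = ext a l := by
  unfold ext mix
  split_ifs with h1
  · rfl
  · rfl

theorem mix_invol {T h : ℕ} (τ : List ℕ) : Function.Involutive
    (fun p : (dom T h → Fin R) × (dom T h → Fin R) => (mix K τ p.1 p.2, mix K τ p.2 p.1)) := by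
  rintro ⟨ω, a⟩
  apply Prod.ext
  · funext d
    change mix K τ (mix K τ ω a) (mix K τ a ω) d = ω d
    unfold mix
    by_cases h1 : inD K R τ d.1 = true
    · rw [if_pos h1, if_pos h1]
    · rw [if_neg h1, if_neg h1]
  · funext d
    change mix K τ (mix K τ a ω) (mix K τ ω a) d = a d
    unfold mix
    by_cases h1 : inD K R τ d.1 = true
    · rw [if_pos h1, if_pos h1]
    · rw [if_neg h1, if_neg h1]

/-- The expected number of stored pairs with low values. -/
theorem exp_cnt {h s : ℕ} (hR : 1 ≤ R) (b u : ℕ) {τ : List ℕ} (hτ : τ ∈ times (K + 4 * R) h)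
    (S : List ℕ → Finset (ℕ × ℕ)) (hS : ∀ l, (S l).card ≤ s) (pre : List (List ℕ))
    (hpre : ∀ τ' ∈ pre, τ' = τ ∨ tlt τ' τ) :
    (∑ ω : dom (K + 4 * R) h → Fin R, cnt K R b u (S (str K R (ext ω) pre)) (ext ω) τ) * R ^ h
      ≤ s * (2 ^ h * R ^ (b + u)) * R ^ Fintype.card (dom (K + 4 * R) h) := by
  classical
  set N := R ^ Fintype.card (dom (K + 4 * R) h) with hN
  have hN0 : 0 < N := by positivity
  have hcard : Fintype.card (dom (K + 4 * R) h → Fin R) = N := by
    rw [Fintype.card_fun, Fintype.card_fin]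
  let c : (dom (K + 4 * R) h → Fin R) → (dom (K + 4 * R) h → Fin R) → ℕ := fun ω a =>
    cnt K R b u (S (str K R (ext ω) pre)) (ext a) τ
  have h1 : ∀ ω a, c (mix K τ ω a) (mix K τ ω a) = c ω a := by
    intro ω a
    change cnt K R b u (S (str K R (ext (mix K τ ω a)) pre)) (ext (mix K τ ω a)) τ
      = cnt K R b u (S (str K R (ext ω) pre)) (ext a) τ
    rw [str_agree τ (ext (mix K τ ω a)) (ext ω) (fun l hl => ext_mix_false ω a hl) pre hpre]
    unfold cnt
    rw [low_agree b u τ (ext (mix K τ ω a)) (ext a) (fun l hl => ext_mix_true ω a hl)]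
  have h2 : N * ∑ ω, c ω ω = ∑ p : (dom (K + 4 * R) h → Fin R) × (dom (K + 4 * R) h → Fin R),
      c p.1 p.1 := by
    rw [Fintype.sum_prod_type, Finset.mul_sum]
    apply Finset.sum_congr rfl
    intro ω _
    dsimp only
    rw [Finset.sum_const, Finset.card_univ, hcard, smul_eq_mul]
  have h3 : ∑ p : (dom (K + 4 * R) h → Fin R) × (dom (K + 4 * R) h → Fin R), c p.1 p.1
      = ∑ p : (dom (K + 4 * R) h → Fin R) × (dom (K + 4 * R) h → Fin R), c p.1 p.2 := by
    rw [← Equiv.sum_comp (mix_invol (K := K) τ).toPerm]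
    apply Finset.sum_congr rfl
    rintro ⟨ω, a⟩ -
    exact h1 ω a
  have h4 : ∀ ω, (∑ a, c ω a) * R ^ h ≤ s * (2 ^ h * R ^ (b + u) * N) := by
    intro ω
    have h5 : ∑ a, c ω a = ∑ p ∈ S (str K R (ext ω) pre),
        (Finset.univ.filter fun a : dom (K + 4 * R) h → Fin R =>
          p.1 ∈ low K R b u (ext a) τ).card := by
      change ∑ a, cnt K R b u (S (str K R (ext ω) pre)) (ext a) τ = _
      unfold cnt
      simp only [Finset.card_filter]
      rw [Finset.sum_comm]
    rw [h5, Finset.sum_mul]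
    refine (Finset.sum_le_sum fun p _ => low_count hR b u hτ p.1).trans ?_
    rw [Finset.sum_const, smul_eq_mul]
    exact Nat.mul_le_mul_right _ (hS _)
  have h6 : N * ((∑ ω, c ω ω) * R ^ h) ≤ N * (s * (2 ^ h * R ^ (b + u)) * N) := by
    calc N * ((∑ ω, c ω ω) * R ^ h) = (N * ∑ ω, c ω ω) * R ^ h := by ring
      _ = ∑ ω, (∑ a, c ω a) * R ^ h := by
        rw [h2, h3, Fintype.sum_prod_type, Finset.sum_mul]
      _ ≤ ∑ ω : dom (K + 4 * R) h → Fin R, s * (2 ^ h * R ^ (b + u) * N) :=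
        Finset.sum_le_sum fun ω _ => h4 ω
      _ = _ := by
        rw [Finset.sum_const, Finset.card_univ, hcard, smul_eq_mul]
        ring
  exact Nat.le_of_mul_le_mul_left h6 hN0

end H40.LS
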