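import Pool.Agent.H40.LS.Inv
import Pool.Agent.H40.LS.Opt
import Pool.Agent.H40.LS.Exp

/-!
# The average output of a deterministic algorithm
-/

namespace H40.LS

variable {K R : ℕ}

theorem exp_cum {h s : ℕ} (hR : 1 ≤ R) (b u : ℕ) (S : List ℕ → Finset (ℕ × ℕ))
    (hS : ∀ l, (S l).card ≤ s) :
    (∑ ω : dom (K + 4 * R) h → Fin R, cum K R b u S (ext ω) (times (K + 4 * R) h)
      (times (K + 4 * R) h).length) * R ^ h
      ≤ (K + 4 * R) ^ h * (s * (2 ^ h * R ^ (b + u)) * R ^ Fintype.card (dom (K + 4 * R) h)) := by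
  unfold cum
  rw [Finset.sum_comm, Finset.sum_mul, ← length_times (K + 4 * R) h]
  set ts := times (K + 4 * R) h with hts
  calc _ ≤ ∑ i ∈ Finset.range ts.length,
      s * (2 ^ h * R ^ (b + u)) * R ^ Fintype.card (dom (K + 4 * R) h) := by
        apply Finset.sum_le_sum
        intro i hi
        have hi' : i < ts.length := Finset.mem_range.1 hi
        rw [List.getD_eq_getElem _ _ hi']
        apply exp_cnt hR b u (List.getElem_mem hi') S hS
        intro τ' hτ'
        obtain ⟨j, hj, rfl⟩ := List.getElem_of_mem hτ'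
        rw [List.getElem_take]
        rw [List.length_take] at hj
        rcases Nat.lt_or_ge j i with h1 | h1
        · exact Or.inr (List.pairwise_iff_getElem.1 (times_sorted (K + 4 * R) h) j i
            (lt_trans h1 hi') hi' h1)
        · left
          have h2 : j = i := by omega
          subst h2
          rfl
    _ = _ := by
      rw [Finset.sum_const, Finset.card_range, smul_eq_mul]

theorem det {z : ℝ} (h1 : Par K R 1 z) (h2 : Par K R 2 1) {s : ℕ} {out : List ℕ → ℕ}
    (hout : Cert s out) (h b u : ℕ) (j : (dom (K + 4 * R) h → Fin R) → ℕ) :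
    (∑ ω, (out (str K R (ext ω) (times (K + 4 * R) h) ++ List.replicate (j ω) 1) : ℝ)) ≤
      (R : ℝ) ^ Fintype.card (dom (K + 4 * R) h) * (((K : ℝ) + 3 * R) ^ h / z ^ b
        + ((K : ℝ) + 6 * R) ^ h / 2 ^ u + 2
        + ((K : ℝ) + 4 * R) ^ h * (s * (2 ^ h * (R : ℝ) ^ (b + u))) / (R : ℝ) ^ h) := by
  obtain ⟨S, hS, hcov⟩ := hout
  have hR := h1.hR
  have hR' : (0 : ℝ) < R := by exact_mod_cast hR
  have hRh : (0 : ℝ) < (R : ℝ) ^ h := by positivity
  have hz1 : (1 : ℝ) ≤ z := h1.hz1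
  have hpos : (0 : ℝ) ≤ ((K : ℝ) + 3 * R) ^ h / z ^ b + ((K : ℝ) + 6 * R) ^ h / 2 ^ u := by
    positivity
  have hout : ∀ ω : dom (K + 4 * R) h → Fin R,
      (out (str K R (ext ω) (times (K + 4 * R) h) ++ List.replicate (j ω) 1) : ℝ)
      ≤ (((K : ℝ) + 3 * R) ^ h / z ^ b + ((K : ℝ) + 6 * R) ^ h / 2 ^ u + 2)
        + cum K R b u S (ext ω) (times (K + 4 * R) h) (times (K + 4 * R) h).length := by
    intro ω
    rcases hcov (str K R (ext ω) (times (K + 4 * R) h) ++ List.replicate (j ω) 1) with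
      h3 | ⟨l', hl', q, hq, h3⟩
    · have h4 : (out (str K R (ext ω) (times (K + 4 * R) h) ++ List.replicate (j ω) 1) : ℝ)
          ≤ 1 := by exact_mod_cast h3
      have h5 : (0 : ℝ) ≤ cum K R b u S (ext ω) (times (K + 4 * R) h)
        (times (K + 4 * R) h).length := Nat.cast_nonneg _
      linarith
    · have h5 := len_bd h1 h2 (fun l => ext_lt hR ω l) hS h b u (j ω) l' hl' q hq
      have h6 : (out (str K R (ext ω) (times (K + 4 * R) h) ++ List.replicate (j ω) 1) : ℝ)
          ≤ q.2 + 1 := by exact_mod_cast h3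
      linarith
  have hcard : Fintype.card (dom (K + 4 * R) h → Fin R)
      = R ^ Fintype.card (dom (K + 4 * R) h) := by
    rw [Fintype.card_fun, Fintype.card_fin]
  refine (Finset.sum_le_sum fun ω _ => hout ω).trans ?_
  rw [Finset.sum_add_distrib, Finset.sum_const, Finset.card_univ, hcard, nsmul_eq_mul,
    Nat.cast_pow]
  have h3 := exp_cum (K := K) (h := h) hR b u S hS.card_le
  have h4 : ((∑ ω : dom (K + 4 * R) h → Fin R, cum K R b u S (ext ω) (times (K + 4 * R) h)
      (times (K + 4 * R) h).length : ℕ) : ℝ) * (R : ℝ) ^ h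
      ≤ ((K : ℝ) + 4 * R) ^ h * (s * (2 ^ h * (R : ℝ) ^ (b + u))
        * (R : ℝ) ^ Fintype.card (dom (K + 4 * R) h)) := by exact_mod_cast h3
  rw [Nat.cast_sum, ← le_div_iff₀ hRh] at h4
  generalize (∑ ω : dom (K + 4 * R) h → Fin R, (cum K R b u S (ext ω) (times (K + 4 * R) h)
      (times (K + 4 * R) h).length : ℝ)) = E at *
  refine (add_le_add_right h4 _).trans (le_of_eq ?_)
  ring

end H40.LS
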