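import Pool.Agent.H40.LS.PInv
import Pool.Agent.H40.LS.Det

/-!
# Exponential moments
-/

namespace H40.LS

variable {K R : ℕ} {s : ℕ}

/-- Extend a finite sequence. -/
def toF {α : Type} (a0 : α) {m : ℕ} (A : Fin m → α) (c : ℕ) : α :=
  if h : c < m then A ⟨c, h⟩ else a0

theorem chern {α : Type} [Fintype α] (a0 : α) (f : ℕ → (ℕ → α) → ℝ) (W : ℝ) (hW0 : 0 ≤ W)
    (hf0 : ∀ c A, 0 ≤ f c A) (hloc : ∀ c A A', (∀ c' ≤ c, A c' = A' c') → f c A = f c A')
    (hW : ∀ c (A : ℕ → α), ∑ a, f c (Function.update A c a) ≤ W) (m : ℕ) :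
    ∑ A : Fin m → α, ∏ c ∈ Finset.range m, f c (toF a0 A) ≤ W ^ m := by
  induction m with
  | zero => simp
  | succ m ih =>
    rw [← (Fin.snocEquiv (fun _ : Fin (m + 1) => α)).sum_comp, Fintype.sum_prod_type_right]
    have h1 : ∀ (A : Fin m → α) (a : α),
        ∏ c ∈ Finset.range (m + 1), f c (toF a0 (Fin.snocEquiv (fun _ : Fin (m + 1) => α) (a, A)))
        = (∏ c ∈ Finset.range m, f c (toF a0 A)) * f m (Function.update (toF a0 A) m a) := by
      intro A a
      have h2 : ∀ c, c < m →
          toF a0 (Fin.snocEquiv (fun _ : Fin (m + 1) => α) (a, A)) c = toF a0 A c := by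
        intro c hc
        unfold toF
        rw [dif_pos (show c < m + 1 by omega), dif_pos hc]
        exact Fin.snoc_castSucc (α := fun _ : Fin (m + 1) => α) a A ⟨c, hc⟩
      have h3 : toF a0 (Fin.snocEquiv (fun _ : Fin (m + 1) => α) (a, A)) m = a := by
        unfold toF
        rw [dif_pos (Nat.lt_succ_self m)]
        exact Fin.snoc_last (α := fun _ : Fin (m + 1) => α) a A
      rw [Finset.prod_range_succ]
      congr 1
      · apply Finset.prod_congr rfl
        intro c hc
        apply hloc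
        intro c' hc'
        exact h2 c' (by have := Finset.mem_range.1 hc; omega)
      · apply hloc
        intro c' hc'
        rcases Nat.lt_or_ge c' m with h4 | h4
        · rw [h2 c' h4, Function.update_of_ne (by omega)]
        · have : c' = m := by omega
          subst this
          rw [h3, Function.update_self]
    simp only [h1]
    calc ∑ A : Fin m → α, ∑ a : α, (∏ c ∈ Finset.range m, f c (toF a0 A)) *
          f m (Function.update (toF a0 A) m a)
        = ∑ A : Fin m → α, (∏ c ∈ Finset.range m, f c (toF a0 A)) *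
          ∑ a : α, f m (Function.update (toF a0 A) m a) := by
          apply Finset.sum_congr rfl
          intro A _
          rw [Finset.mul_sum]
      _ ≤ ∑ A : Fin m → α, (∏ c ∈ Finset.range m, f c (toF a0 A)) * W := by
          apply Finset.sum_le_sum
          intro A _
          apply mul_le_mul_of_nonneg_left (hW m _)
          exact Finset.prod_nonneg fun c _ => hf0 c _
      _ = (∑ A : Fin m → α, ∏ c ∈ Finset.range m, f c (toF a0 A)) * W := by
          rw [Finset.sum_mul]
      _ ≤ W ^ m * W := mul_le_mul_of_nonneg_right ih hW0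
      _ = W ^ (m + 1) := (pow_succ _ _).symm

theorem cumc_congr {h b u : ℕ} (M : PassMemory s) (κ : ℕ) (q0 : M.Q) {Af Af' : ℕ → List ℕ → ℕ}
    {c : ℕ} (hA : ∀ c' ≤ c, Af c' = Af' c') (i : ℕ) :
    cumc K R h b u M κ q0 Af c i = cumc K R h b u M κ q0 Af' c i := by
  unfold cumc
  rw [cat_congr h (fun c' hc' => hA c' hc'.le), hA c le_rfl]

/-- The number of copies with many stored low elements. -/
noncomputable def Zn (K R h b u : ℕ) (θ : ℝ) (M : PassMemory s) (κ : ℕ) (q0 : M.Q)
    (Af : ℕ → List ℕ → ℕ) (m : ℕ) : ℕ :=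
  open Classical in
  ((Finset.range m).filter fun c =>
    θ ≤ cumc K R h b u M κ q0 Af c (times (K + 4 * R) h).length).card

theorem moment_Z {h b u : ℕ} (hR : 1 ≤ R) {θ : ℝ} (hθ : 0 < θ) (M : PassMemory s) (κ : ℕ)
    (q0 : M.Q) (a0 : dom (K + 4 * R) h → Fin R) (m : ℕ) :
    ∑ A : Fin m → (dom (K + 4 * R) h → Fin R),
      (2 : ℝ) ^ Zn K R h b u θ M κ q0 (fun c => ext (toF a0 A c)) m
      ≤ ((R : ℝ) ^ Fintype.card (dom (K + 4 * R) h) * (1 +
        ((K : ℝ) + 4 * R) ^ h * (s * (2 ^ h * (R : ℝ) ^ (b + u))) / (R : ℝ) ^ h / θ)) ^ m := by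
  classical
  have hR' : (0 : ℝ) < R := by exact_mod_cast hR
  have hcard : (Fintype.card (dom (K + 4 * R) h → Fin R) : ℝ)
      = (R : ℝ) ^ Fintype.card (dom (K + 4 * R) h) := by
    rw [Fintype.card_fun, Fintype.card_fin, Nat.cast_pow]
  let f : ℕ → (ℕ → (dom (K + 4 * R) h → Fin R)) → ℝ := fun c A =>
    if θ ≤ cumc K R h b u M κ q0 (fun c => ext (A c)) c (times (K + 4 * R) h).length
    then 2 else 1
  have hZ : ∀ A : Fin m → (dom (K + 4 * R) h → Fin R),
      (2 : ℝ) ^ Zn K R h b u θ M κ q0 (fun c => ext (toF a0 A c)) m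
      = ∏ c ∈ Finset.range m, f c (toF a0 A) := by
    intro A
    unfold Zn
    rw [← Finset.prod_const, Finset.prod_filter]
  rw [Finset.sum_congr rfl fun A _ => hZ A]
  apply chern a0 f
  · positivity
  · intro c A
    change (0 : ℝ) ≤ if _ then 2 else 1
    split_ifs <;> norm_num
  · intro c A A' hAA
    change (if _ then (2 : ℝ) else 1) = if _ then (2 : ℝ) else 1
    rw [cumc_congr M κ q0 (Af := fun c => ext (A c)) (Af' := fun c => ext (A' c))
      (fun c' hc' => by rw [hAA c' hc'])]
  · intro c A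
    have h1 : ∀ a : dom (K + 4 * R) h → Fin R,
        cumc K R h b u M κ q0 (fun c' => ext (Function.update A c a c')) c
          (times (K + 4 * R) h).length
        = cum K R b u (SS K R h M κ c (cat K R h (fun c' => ext (A c')) c).length
            (run (M.step κ) 0 q0 (cat K R h (fun c' => ext (A c')) c)))
          (ext a) (times (K + 4 * R) h) (times (K + 4 * R) h).length := by
      intro a
      unfold cumc
      rw [cat_congr h (Af := fun c' => ext (Function.update A c a c'))
        (Af' := fun c' => ext (A c')) (fun c' hc' => by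
          change ext (Function.update A c a c') = ext (A c')
          rw [Function.update_of_ne (by omega)])]
      simp only [Function.update_self]
    have h2 := exp_cum (K := K) (h := h) hR b u
      (SS K R h M κ c (cat K R h (fun c' => ext (A c')) c).length
            (run (M.step κ) 0 q0 (cat K R h (fun c' => ext (A c')) c)))
      (SS_card h M κ c _ _)
    have h3 : ((∑ a : dom (K + 4 * R) h → Fin R,
        cumc K R h b u M κ q0 (fun c' => ext (Function.update A c a c')) c
          (times (K + 4 * R) h).length : ℕ) : ℝ) * (R : ℝ) ^ h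
        ≤ ((K : ℝ) + 4 * R) ^ h * (s * (2 ^ h * (R : ℝ) ^ (b + u))
          * (R : ℝ) ^ Fintype.card (dom (K + 4 * R) h)) := by
      rw [Finset.sum_congr rfl fun a _ => h1 a]
      exact_mod_cast h2
    rw [← le_div_iff₀ (by positivity)] at h3
    have h4 : ∀ a : dom (K + 4 * R) h → Fin R, f c (Function.update A c a)
        ≤ 1 + (cumc K R h b u M κ q0 (fun c' => ext (Function.update A c a c')) c
          (times (K + 4 * R) h).length : ℝ) / θ := by
      intro a
      change (if _ then (2 : ℝ) else 1) ≤ _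
      split_ifs with h5
      · have : 1 ≤ (cumc K R h b u M κ q0 (fun c' => ext (Function.update A c a c')) c
          (times (K + 4 * R) h).length : ℝ) / θ := by
          rw [le_div_iff₀ hθ, one_mul]
          exact h5
        linarith
      · have : 0 ≤ (cumc K R h b u M κ q0 (fun c' => ext (Function.update A c a c')) c
          (times (K + 4 * R) h).length : ℝ) / θ := by positivity
        linarith
    refine (Finset.sum_le_sum fun a _ => h4 a).trans ?_
    rw [Finset.sum_add_distrib, Finset.sum_const, Finset.card_univ, nsmul_eq_mul, hcard, mul_one,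
      ← Finset.sum_div, ← Nat.cast_sum]
    have h5 := div_le_div_of_nonneg_right h3 hθ.le
    rw [mul_add, mul_one]
    refine add_le_add_right (h5.trans (le_of_eq ?_)) _
    ring

/-- The union bound over the passes and the states at the beginning of a pass. -/
theorem count_bad {h b u : ℕ} (hR : 1 ≤ R) {θ : ℝ} (hθ : 0 < θ) (M : PassMemory s) (p Z0 : ℕ)
    (a0 : dom (K + 4 * R) h → Fin R) (m : ℕ) :
    open Classical in
    ((Finset.univ.filter fun A : Fin m → (dom (K + 4 * R) h → Fin R) => ∃ κ < p, ∃ q0 : M.Q,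
      Z0 ≤ Zn K R h b u θ M κ q0 (fun c => ext (toF a0 A c)) m).card : ℝ) * 2 ^ Z0
      ≤ p * 2 ^ s * ((R : ℝ) ^ Fintype.card (dom (K + 4 * R) h) * (1 +
        ((K : ℝ) + 4 * R) ^ h * (s * (2 ^ h * (R : ℝ) ^ (b + u))) / (R : ℝ) ^ h / θ)) ^ m := by
  classical
  set W := ((R : ℝ) ^ Fintype.card (dom (K + 4 * R) h) * (1 +
        ((K : ℝ) + 4 * R) ^ h * (s * (2 ^ h * (R : ℝ) ^ (b + u))) / (R : ℝ) ^ h / θ)) ^ m with hW
  have hW0 : 0 ≤ W := by
    rw [hW]
    have hR' : (0 : ℝ) < R := by exact_mod_cast hR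
    positivity
  have h1 : Finset.univ.filter (fun A : Fin m → (dom (K + 4 * R) h → Fin R) => ∃ κ < p,
      ∃ q0 : M.Q, Z0 ≤ Zn K R h b u θ M κ q0 (fun c => ext (toF a0 A c)) m)
      ⊆ (Finset.range p ×ˢ (Finset.univ : Finset M.Q)).biUnion fun x =>
        Finset.univ.filter fun A : Fin m → (dom (K + 4 * R) h → Fin R) =>
          Z0 ≤ Zn K R h b u θ M x.1 x.2 (fun c => ext (toF a0 A c)) m := by
    intro A hA
    obtain ⟨κ, hκ, q0, h2⟩ := (Finset.mem_filter.1 hA).2
    rw [Finset.mem_biUnion]
    exact ⟨(κ, q0), Finset.mem_product.2 ⟨Finset.mem_range.2 hκ, Finset.mem_univ _⟩,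
      Finset.mem_filter.2 ⟨Finset.mem_univ _, h2⟩⟩
  have h2 : ∀ x : ℕ × M.Q, ((Finset.univ.filter fun A : Fin m → (dom (K + 4 * R) h → Fin R) =>
      Z0 ≤ Zn K R h b u θ M x.1 x.2 (fun c => ext (toF a0 A c)) m).card : ℝ) * 2 ^ Z0 ≤ W := by
    intro x
    refine le_trans ?_ (moment_Z (K := K) (h := h) (b := b) (u := u) hR hθ M x.1 x.2 a0 m)
    rw [← nsmul_eq_mul, ← Finset.sum_const]
    refine le_trans (Finset.sum_le_sum (g := fun A => (2 : ℝ) ^
      Zn K R h b u θ M x.1 x.2 (fun c => ext (toF a0 A c)) m) ?_)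
      (Finset.sum_le_sum_of_subset_of_nonneg (Finset.filter_subset _ _) fun A _ _ => by positivity)
    intro A hA
    exact pow_le_pow_right₀ (by norm_num) (Finset.mem_filter.1 hA).2
  have h3 : ((Finset.univ.filter fun A : Fin m → (dom (K + 4 * R) h → Fin R) => ∃ κ < p,
      ∃ q0 : M.Q, Z0 ≤ Zn K R h b u θ M κ q0 (fun c => ext (toF a0 A c)) m).card : ℝ)
      ≤ ∑ x ∈ Finset.range p ×ˢ (Finset.univ : Finset M.Q),
        ((Finset.univ.filter fun A : Fin m → (dom (K + 4 * R) h → Fin R) =>
          Z0 ≤ Zn K R h b u θ M x.1 x.2 (fun c => ext (toF a0 A c)) m).card : ℝ) := by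
    exact_mod_cast (Finset.card_le_card h1).trans Finset.card_biUnion_le
  calc _ ≤ (∑ x ∈ Finset.range p ×ˢ (Finset.univ : Finset M.Q),
        ((Finset.univ.filter fun A : Fin m → (dom (K + 4 * R) h → Fin R) =>
          Z0 ≤ Zn K R h b u θ M x.1 x.2 (fun c => ext (toF a0 A c)) m).card : ℝ)) * 2 ^ Z0 :=
        mul_le_mul_of_nonneg_right h3 (by positivity)
    _ ≤ ∑ x ∈ Finset.range p ×ˢ (Finset.univ : Finset M.Q), W := by
        rw [Finset.sum_mul]
        exact Finset.sum_le_sum fun x _ => h2 x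
    _ ≤ p * 2 ^ s * W := by
        rw [Finset.sum_const, Finset.card_product, Finset.card_range, Finset.card_univ,
          nsmul_eq_mul, Nat.cast_mul]
        apply mul_le_mul_of_nonneg_right _ hW0
        apply mul_le_mul_of_nonneg_left _ (Nat.cast_nonneg _)
        exact_mod_cast M.card_le

end H40.LS
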