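import Pool.Agent.H40.LS.Model

/-!
# The construction, the potential
-/

namespace H40.LS

/-- Exact version: no weakening of the values. -/
structure Exact (s : ℕ) (S : List ℕ → Finset (ℕ × ℕ)) : Prop where
  nil : S [] = ∅
  step : ∀ (l : List ℕ) (x : ℕ) (p : ℕ × ℕ), p ∈ S (l ++ [x]) →
    p ∈ S l ∨ (p.1 = x ∧ (p.2 ≤ 1 ∨ ∃ q ∈ S l, q.1 < x ∧ p.2 ≤ q.2 + 1))
  card_le : ∀ l, (S l).card ≤ s

/-- Common generalisation of the two kinds of algorithms. -/
def Cert (s : ℕ) (out : List ℕ → ℕ) : Prop :=
  ∃ S, Exact s S ∧ ∀ l, out l ≤ 1 ∨ ∃ l', l' <+: l ∧ ∃ p ∈ S l', out l ≤ p.2 + 1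

/-! ### The construction -/

/-- The active rows of an event with hidden row `a` at time `t`, in decreasing order. -/
def rows (K R a t : ℕ) : List ℕ :=
  if t < K + R then (((List.range R).reverse.filter fun i => decide (R ≤ i + t + 1)).map (2 * ·))
  else if t + a + 1 < K + 4 * R then [2 * a + 1] else []

/-- The elements presented at the time `τ`, in decreasing order. -/
def tickAt (K R : ℕ) : (List ℕ → ℕ) → List ℕ → List (List (ℕ × ℕ))
  | _, [] => [[]]
  | A, t :: τ => (rows K R (A []) t).flatMap fun ρ =>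
      (tickAt K R (fun l => A (t :: l)) τ).map fun x => (ρ, t) :: x

/-- All times, in lexicographic order. -/
def times (T : ℕ) : ℕ → List (List ℕ)
  | 0 => [[]]
  | h + 1 => (List.range T).flatMap fun t => (times T h).map fun τ => t :: τ

/-- The value of an element (before adding one). -/
def code (T B : ℕ) : List (ℕ × ℕ) → ℕ
  | [] => 0
  | e :: x => (e.1 * T + e.2) * B ^ x.length + code T B x

/-- The value of an element. -/
def val (K R : ℕ) (x : List (ℕ × ℕ)) : ℕ := code (K + 4 * R) (2 * R * (K + 4 * R)) x + 1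

/-- The part of the stream presented at time `τ`. -/
def blk (K R : ℕ) (A : List ℕ → ℕ) (τ : List ℕ) : List ℕ := (tickAt K R A τ).map (val K R)

/-- The part of the stream presented at the times in `τs`. -/
def str (K R : ℕ) (A : List ℕ → ℕ) (τs : List (List ℕ)) : List ℕ := τs.flatMap (blk K R A)

/-- Lexicographic order of times. -/
def tlt : List ℕ → List ℕ → Prop
  | t :: τ, t' :: τ' => t < t' ∨ (t = t' ∧ tlt τ τ')
  | _, _ => False

/-- The times of an element. -/
def tm (x : List (ℕ × ℕ)) : List ℕ := x.map Prod.snd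

/-- Valid elements. -/
def Val (K R : ℕ) : (List ℕ → ℕ) → List (ℕ × ℕ) → Prop
  | _, [] => True
  | A, e :: x => e.1 ∈ rows K R (A []) e.2 ∧ e.2 < K + 4 * R ∧ Val K R (fun l => A (e.2 :: l)) x

/-! ### Weights and potential -/

/-- The weight of one level. -/
noncomputable def W (K R : ℕ) (y z : ℝ) (a ρ t : ℕ) : ℝ :=
  if t < K + R then (if ρ = 2 * a then 1 else z) else y

/-- The potential of one level. -/
noncomputable def O (K R : ℕ) (y z : ℝ) (a ρ t : ℕ) : ℝ :=
  if t < K + R then (if ρ = 2 * a then 1 else z) * ((t : ℝ) + (ρ / 2 : ℕ) + 1 - R)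
  else (K : ℝ) + a + 1 + y * ((t : ℝ) - K - R)

/-- The weight of an element. -/
noncomputable def wt (K R : ℕ) (y z : ℝ) : (List ℕ → ℕ) → List (ℕ × ℕ) → ℝ
  | _, [] => 1
  | A, e :: x => W K R y z (A []) e.1 e.2 * wt K R y z (fun l => A (e.2 :: l)) x

/-- The potential of an element. -/
noncomputable def Ps (K R : ℕ) (y z : ℝ) : (List ℕ → ℕ) → List (ℕ × ℕ) → ℝ
  | _, [] => 1
  | A, e :: x => O K R y z (A []) e.1 e.2 * ((K : ℝ) + 3 * R * y) ^ x.length
      + W K R y z (A []) e.1 e.2 * Ps K R y z (fun l => A (e.2 :: l)) x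

/-- The number of levels in the first phase at which the element is in a wrong row. -/
def bad (K R : ℕ) : (List ℕ → ℕ) → List (ℕ × ℕ) → ℕ
  | _, [] => 0
  | A, e :: x => (if e.2 < K + R ∧ e.1 ≠ 2 * A [] then 1 else 0)
      + bad K R (fun l => A (e.2 :: l)) x

/-- The number of levels in the first phase at which the element is in the hidden row. -/
def gd (K R : ℕ) : (List ℕ → ℕ) → List (ℕ × ℕ) → ℕ
  | _, [] => 0
  | A, e :: x => (if e.2 < K + R ∧ e.1 = 2 * A [] then 1 else 0)
      + gd K R (fun l => A (e.2 :: l)) x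

/-- The number of levels in the second phase. -/
def ph (K R : ℕ) : List (ℕ × ℕ) → ℕ
  | [] => 0
  | e :: x => (if e.2 < K + R then 0 else 1) + ph K R x

/-- The values of the elements at time `τ` with less than `b` bad levels and less than `u`
levels in the second phase. -/
def low (K R b u : ℕ) (A : List ℕ → ℕ) (τ : List ℕ) : Set ℕ :=
  {v | ∃ x : List (ℕ × ℕ), tm x = τ ∧ (∀ e ∈ x, e.1 < 2 * R) ∧ bad K R A x < b ∧ ph K R x < u ∧
    v = val K R x}

open Classical in
/-- The number of stored pairs with a value in `low`. -/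
noncomputable def cnt (K R b u : ℕ) (S : Finset (ℕ × ℕ)) (A : List ℕ → ℕ) (τ : List ℕ) : ℕ :=
  (S.filter fun p => p.1 ∈ low K R b u A τ).card

/-- The set of all times of events (proper prefixes of the times). -/
def dom (T h : ℕ) : Finset (List ℕ) := (Finset.range h).biUnion fun j => (times T j).toFinset

/-- Hidden values as a function on all lists. -/
def ext {T h R : ℕ} (ω : dom T h → Fin R) (l : List ℕ) : ℕ :=
  if hl : l ∈ dom T h then (ω ⟨l, hl⟩ : ℕ) else 0

end H40.LS
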