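import Pool.Agent.H40.LS.Defs

/-!
# Inequalities at one level
-/

namespace H40.LS

/-- Conditions on the parameters. -/
structure Par (K R : ℕ) (y z : ℝ) : Prop where
  hR : 1 ≤ R
  hK : R + 6 ≤ K
  hy1 : 1 ≤ y
  hy2 : y ≤ 2
  hz1 : 1 ≤ z
  hz2 : (z - 1) * ((K : ℝ) + R) ≤ 1 / 2

theorem mem_rows {K R a t ρ : ℕ} : ρ ∈ rows K R a t ↔
    (t < K + R ∧ ∃ i, i < R ∧ R ≤ i + t + 1 ∧ ρ = 2 * i) ∨
      (K + R ≤ t ∧ t + a + 1 < K + 4 * R ∧ ρ = 2 * a + 1) := by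
  unfold rows
  split_ifs with h1 h2
  · simp only [List.mem_map, List.mem_filter, List.mem_reverse, List.mem_range, decide_eq_true_eq]
    constructor
    · rintro ⟨i, ⟨h2, h3⟩, rfl⟩
      exact Or.inl ⟨h1, i, h2, h3, rfl⟩
    · rintro (⟨-, i, h2, h3, rfl⟩ | ⟨h2, -⟩)
      · exact ⟨i, ⟨h2, h3⟩, rfl⟩
      · omega
  · rw [List.mem_singleton]
    constructor
    · rintro rfl
      exact Or.inr ⟨by omega, h2, rfl⟩
    · rintro (⟨h3, -⟩ | ⟨-, -, h3⟩)
      · omega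
      · exact h3
  · constructor
    · intro h
      exact absurd h (List.not_mem_nil)
    · rintro (⟨h3, -⟩ | ⟨-, h3, -⟩)
      · omega
      · omega

variable {K R : ℕ} {y z : ℝ}

theorem Par.zs (h : Par K R y z) {s : ℝ} (hs : s ≤ (K : ℝ) + R) : (z - 1) * s ≤ 1 / 2 :=
  le_trans (mul_le_mul_of_nonneg_left hs (sub_nonneg.2 h.hz1)) h.hz2

theorem Par.z16 (h : Par K R y z) : z - 1 ≤ 1 / 16 := by
  have h1 := h.zs (s := 8) (by
    have := h.hK
    have := h.hR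
    have : 8 ≤ K + R := by omega
    exact_mod_cast this)
  linarith

theorem Par.M (h : Par K R y z) : (K : ℝ) + 3 * R ≤ (K : ℝ) + 3 * R * y := by
  have h1 := h.hy1
  have h2 : (0 : ℝ) ≤ R := Nat.cast_nonneg _
  nlinarith

/-- A row in the first phase: weight and potential. -/
theorem lev1 (h : Par K R y z) {a t ρ i : ℕ} (ht : t < K + R) (hi : ρ = 2 * i) :
    ∃ c : ℝ, W K R y z a ρ t = c ∧ O K R y z a ρ t = c * ((t : ℝ) + i + 1 - R) ∧
      ((c = 1 ∧ i = a) ∨ (c = z ∧ i ≠ a)) ∧ 1 ≤ c ∧ c ≤ z := by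
  have hi2 : ρ / 2 = i := by omega
  by_cases hc : ρ = 2 * a
  · refine ⟨1, ?_, ?_, Or.inl ⟨rfl, by omega⟩, le_refl _, h.hz1⟩
    · unfold W
      rw [if_pos ht, if_pos hc]
    · unfold O
      rw [if_pos ht, if_pos hc, hi2]
  · refine ⟨z, ?_, ?_, Or.inr ⟨rfl, by omega⟩, h.hz1, le_refl _⟩
    · unfold W
      rw [if_pos ht, if_neg hc]
    · unfold O
      rw [if_pos ht, if_neg hc, hi2]

theorem lev2 {a t ρ : ℕ} (ht : K + R ≤ t) :
    W K R y z a ρ t = y ∧ O K R y z a ρ t = (K : ℝ) + a + 1 + y * ((t : ℝ) - K - R) := by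
  unfold W O
  rw [if_neg (by omega), if_neg (by omega)]
  exact ⟨rfl, rfl⟩

/-- Basic bounds. -/
theorem levc (h : Par K R y z) {a t ρ : ℕ} (ha : a < R) (hρ : ρ ∈ rows K R a t) :
    0 ≤ O K R y z a ρ t ∧ 1 ≤ W K R y z a ρ t ∧
      O K R y z a ρ t + W K R y z a ρ t ≤ (K : ℝ) + 3 * R * y := by
  have hM := h.M
  have hR : (1 : ℝ) ≤ R := by exact_mod_cast h.hR
  rcases mem_rows.1 hρ with ⟨ht, i, hi, hi2, hρi⟩ | ⟨ht, hta, hρa⟩
  · obtain ⟨c, hW, hO, -, hc1, hcz⟩ := lev1 (y := y) h (a := a) ht hρi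
    have h1 : (t : ℝ) + 1 ≤ (K : ℝ) + R := by exact_mod_cast ht
    have h2 : (i : ℝ) + 1 ≤ R := by exact_mod_cast hi
    have h3 : (R : ℝ) ≤ (i : ℝ) + t + 1 := by exact_mod_cast hi2
    rw [hW, hO]
    refine ⟨mul_nonneg (by linarith) (by linarith), hc1, ?_⟩
    have h4 := h.zs (s := (t : ℝ) + i + 2 - R) (by linarith)
    have h5 : c * ((t : ℝ) + i + 2 - R) ≤ z * ((t : ℝ) + i + 2 - R) :=
      mul_le_mul_of_nonneg_right hcz (by linarith)
    nlinarith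
  · obtain ⟨hW, hO⟩ := lev2 (y := y) (z := z) (a := a) (ρ := ρ) ht
    have h1 : (K : ℝ) + R ≤ t := by exact_mod_cast ht
    have h2 : (t : ℝ) + a + 1 + 1 ≤ (K : ℝ) + 4 * R := by exact_mod_cast hta
    have h3 : (0 : ℝ) ≤ a := Nat.cast_nonneg _
    have h4 := h.hy1
    rw [hW, hO]
    refine ⟨?_, h4, ?_⟩
    · have : 0 ≤ y * ((t : ℝ) - K - R) := mul_nonneg (by linarith) (by linarith)
      have : (0 : ℝ) ≤ K := Nat.cast_nonneg _
      linarith
    · have h5 : y * ((t : ℝ) + 1 - K - R) ≤ y * (3 * R - a - 1) :=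
        mul_le_mul_of_nonneg_left (by linarith) (by linarith)
      nlinarith

/-- Later time, row not below. -/
theorem leva (h : Par K R y z) {a t ρ t' ρ' : ℕ} (ha : a < R) (hρ : ρ ∈ rows K R a t)
    (hρ' : ρ' ∈ rows K R a t') (htt : t < t') (hρρ : ρ ≤ ρ') :
    O K R y z a ρ t + W K R y z a ρ t ≤ O K R y z a ρ' t' := by
  have hR : (1 : ℝ) ≤ R := by exact_mod_cast h.hR
  have htt' : (t : ℝ) + 1 ≤ t' := by exact_mod_cast htt
  rcases mem_rows.1 hρ with ⟨ht, i, hi, hi2, hρi⟩ | ⟨ht, hta, hρa⟩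
  · obtain ⟨c, hW, hO, hc, hc1, hcz⟩ := lev1 (y := y) h (a := a) ht hρi
    have h1 : (t : ℝ) + 1 ≤ (K : ℝ) + R := by exact_mod_cast ht
    have h2 : (i : ℝ) + 1 ≤ R := by exact_mod_cast hi
    have h3 : (R : ℝ) ≤ (i : ℝ) + t + 1 := by exact_mod_cast hi2
    rw [hW, hO]
    rcases mem_rows.1 hρ' with ⟨ht', i', hi', hi2', hρi'⟩ | ⟨ht', hta', hρa'⟩
    · obtain ⟨c', hW', hO', hc', hc1', hcz'⟩ := lev1 (y := y) h (a := a) ht' hρi'
      have h1' : (t' : ℝ) + 1 ≤ (K : ℝ) + R := by exact_mod_cast ht'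
      have h2' : (i' : ℝ) + 1 ≤ R := by exact_mod_cast hi'
      rw [hO']
      rcases eq_or_lt_of_le (show i ≤ i' by omega) with hii | hii
      · subst hii
        have hcc : c = c' := by
          rcases hc with ⟨rfl, hc⟩ | ⟨rfl, hc⟩ <;> rcases hc' with ⟨rfl, hc'⟩ | ⟨rfl, hc'⟩
          · rfl
          · exact absurd hc hc'
          · exact absurd hc' hc
          · rfl
        rw [← hcc]
        have : c * ((t : ℝ) + i + 1 - R + 1) ≤ c * ((t' : ℝ) + i + 1 - R) :=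
          mul_le_mul_of_nonneg_left (by linarith) (by linarith)
        linarith
      · have hii' : (i : ℝ) + 1 ≤ i' := by exact_mod_cast hii
        have h4 := h.zs (s := (t : ℝ) + i + 2 - R) (by linarith)
        have h5 : c * ((t : ℝ) + i + 2 - R) ≤ z * ((t : ℝ) + i + 2 - R) :=
          mul_le_mul_of_nonneg_right hcz (by linarith)
        have h6 : 1 * ((t : ℝ) + i + 3 - R) ≤ c' * ((t' : ℝ) + i' + 1 - R) :=
          mul_le_mul hc1' (by linarith) (by linarith) (by linarith)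
        linarith
    · obtain ⟨hW', hO'⟩ := lev2 (y := y) (z := z) (a := a) (ρ := ρ') ht'
      have h1' : (K : ℝ) + R ≤ t' := by exact_mod_cast ht'
      rw [hO']
      have h7 : 0 ≤ y * ((t' : ℝ) - K - R) :=
        mul_nonneg (by linarith [h.hy1]) (by linarith)
      rcases hc with ⟨rfl, hc⟩ | ⟨rfl, hc⟩
      · subst hc
        linarith
      · have hia : i < a := by omega
        have hia' : (i : ℝ) + 1 ≤ a := by exact_mod_cast hia
        have h4 := h.zs (s := (t : ℝ) + i + 2 - R) (by linarith)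
        linarith
  · obtain ⟨hW, hO⟩ := lev2 (y := y) (z := z) (a := a) (ρ := ρ) ht
    obtain ⟨hW', hO'⟩ := lev2 (y := y) (z := z) (a := a) (ρ := ρ') (show K + R ≤ t' by omega)
    rw [hW, hO, hO']
    have : y * ((t : ℝ) - K - R + 1) ≤ y * ((t' : ℝ) - K - R) :=
      mul_le_mul_of_nonneg_left (by linarith) (by linarith [h.hy1])
    linarith

/-- Same time, row above. -/
theorem levb (h : Par K R y z) {a t ρ ρ' : ℕ} (ha : a < R) (hρ : ρ ∈ rows K R a t)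
    (hρ' : ρ' ∈ rows K R a t) (hρρ : ρ < ρ') :
    O K R y z a ρ t + W K R y z a ρ' t / 4 ≤ O K R y z a ρ' t ∧
    O K R y z a ρ t + W K R y z a ρ' t / 4 + (W K R y z a ρ t - W K R y z a ρ' t)
      ≤ O K R y z a ρ' t := by
  have hR : (1 : ℝ) ≤ R := by exact_mod_cast h.hR
  have h16 := h.z16
  rcases mem_rows.1 hρ with ⟨ht, i, hi, hi2, hρi⟩ | ⟨ht, hta, hρa⟩
  · obtain ⟨c, hW, hO, hc, hc1, hcz⟩ := lev1 (y := y) h (a := a) ht hρi
    have h1 : (t : ℝ) + 1 ≤ (K : ℝ) + R := by exact_mod_cast ht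
    have h2 : (i : ℝ) + 1 ≤ R := by exact_mod_cast hi
    have h3 : (R : ℝ) ≤ (i : ℝ) + t + 1 := by exact_mod_cast hi2
    rw [hW, hO]
    rcases mem_rows.1 hρ' with ⟨ht', i', hi', hi2', hρi'⟩ | ⟨ht', hta', hρa'⟩
    · obtain ⟨c', hW', hO', hc', hc1', hcz'⟩ := lev1 (y := y) h (a := a) ht' hρi'
      rw [hW', hO']
      have hii : i < i' := by omega
      have hii' : (i : ℝ) + 1 ≤ i' := by exact_mod_cast hii
      have h4 := h.zs (s := (t : ℝ) + i + 1 - R) (by linarith)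
      have h5 : c * ((t : ℝ) + i + 1 - R) ≤ z * ((t : ℝ) + i + 1 - R) :=
        mul_le_mul_of_nonneg_right hcz (by linarith)
      have h6 : 1 * ((t : ℝ) + i + 2 - R) ≤ c' * ((t : ℝ) + i' + 1 - R) :=
        mul_le_mul hc1' (by linarith) (by linarith) (by linarith)
      constructor <;> linarith
    · omega
  · rcases mem_rows.1 hρ' with ⟨ht', i', hi', hi2', hρi'⟩ | ⟨ht', hta', hρa'⟩
    · omega
    · omega

/-- Later time, any row. -/
theorem levd (h : Par K R y z) {a t ρ t' ρ' : ℕ} (ha : a < R) (hρ : ρ ∈ rows K R a t)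
    (hρ' : ρ' ∈ rows K R a t') (htt : t < t') :
    O K R y z a ρ t + W K R y z a ρ t
      ≤ O K R y z a ρ' t' + ((K : ℝ) + 3 * R * y) / 4 := by
  have hR : (1 : ℝ) ≤ R := by exact_mod_cast h.hR
  have hK : (R : ℝ) + 6 ≤ K := by exact_mod_cast h.hK
  have hM := h.M
  have htt' : (t : ℝ) + 1 ≤ t' := by exact_mod_cast htt
  have ha0 : (0 : ℝ) ≤ a := Nat.cast_nonneg _
  rcases mem_rows.1 hρ with ⟨ht, i, hi, hi2, hρi⟩ | ⟨ht, hta, hρa⟩
  · obtain ⟨c, hW, hO, hc, hc1, hcz⟩ := lev1 (y := y) h (a := a) ht hρi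
    have h1 : (t : ℝ) + 1 ≤ (K : ℝ) + R := by exact_mod_cast ht
    have h2 : (i : ℝ) + 1 ≤ R := by exact_mod_cast hi
    have h3 : (R : ℝ) ≤ (i : ℝ) + t + 1 := by exact_mod_cast hi2
    have h4 := h.zs (s := (t : ℝ) + i + 2 - R) (by linarith)
    have h5 : c * ((t : ℝ) + i + 2 - R) ≤ z * ((t : ℝ) + i + 2 - R) :=
      mul_le_mul_of_nonneg_right hcz (by linarith)
    rw [hW, hO]
    rcases mem_rows.1 hρ' with ⟨ht', i', hi', hi2', hρi'⟩ | ⟨ht', hta', hρa'⟩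
    · obtain ⟨c', hW', hO', hc', hc1', hcz'⟩ := lev1 (y := y) h (a := a) ht' hρi'
      rw [hO']
      have h3' : (R : ℝ) ≤ (i' : ℝ) + t' + 1 := by exact_mod_cast hi2'
      have hi0 : (0 : ℝ) ≤ i' := Nat.cast_nonneg _
      have h6 : 1 * ((t' : ℝ) + i' + 1 - R) ≤ c' * ((t' : ℝ) + i' + 1 - R) :=
        mul_le_mul_of_nonneg_right hc1' (by linarith)
      linarith
    · obtain ⟨hW', hO'⟩ := lev2 (y := y) (z := z) (a := a) (ρ := ρ') ht'
      have h1' : (K : ℝ) + R ≤ t' := by exact_mod_cast ht'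
      rw [hO']
      have h7 : 0 ≤ y * ((t' : ℝ) - K - R) :=
        mul_nonneg (by linarith [h.hy1]) (by linarith)
      linarith
  · rcases mem_rows.1 hρ' with ⟨ht', i', hi', hi2', hρi'⟩ | ⟨ht', hta', hρa'⟩
    · omega
    · have := leva h ha hρ hρ' htt (by omega)
      linarith

/-- Same time, different rows. -/
theorem levd' (h : Par K R y z) {a t ρ ρ' : ℕ} (ha : a < R) (hρ : ρ ∈ rows K R a t)
    (hρ' : ρ' ∈ rows K R a t) (hρρ : ρ ≠ ρ') :
    O K R y z a ρ t + W K R y z a ρ' t / 4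
      ≤ O K R y z a ρ' t + ((K : ℝ) + 3 * R * y) / 4 ∧
    O K R y z a ρ t + W K R y z a ρ' t / 4 + (W K R y z a ρ t - W K R y z a ρ' t)
      ≤ O K R y z a ρ' t + ((K : ℝ) + 3 * R * y) / 4 := by
  have hR : (1 : ℝ) ≤ R := by exact_mod_cast h.hR
  have hK : (R : ℝ) + 6 ≤ K := by exact_mod_cast h.hK
  have hM := h.M
  have h16 := h.z16
  rcases mem_rows.1 hρ with ⟨ht, i, hi, hi2, hρi⟩ | ⟨ht, hta, hρa⟩
  · obtain ⟨c, hW, hO, hc, hc1, hcz⟩ := lev1 (y := y) h (a := a) ht hρi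
    have h1 : (t : ℝ) + 1 ≤ (K : ℝ) + R := by exact_mod_cast ht
    have h2 : (i : ℝ) + 1 ≤ R := by exact_mod_cast hi
    have h3 : (R : ℝ) ≤ (i : ℝ) + t + 1 := by exact_mod_cast hi2
    have h4 := h.zs (s := (t : ℝ) + i + 1 - R) (by linarith)
    have h5 : c * ((t : ℝ) + i + 1 - R) ≤ z * ((t : ℝ) + i + 1 - R) :=
      mul_le_mul_of_nonneg_right hcz (by linarith)
    rw [hW, hO]
    rcases mem_rows.1 hρ' with ⟨ht', i', hi', hi2', hρi'⟩ | ⟨ht', hta', hρa'⟩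
    · obtain ⟨c', hW', hO', hc', hc1', hcz'⟩ := lev1 (y := y) h (a := a) ht' hρi'
      rw [hW', hO']
      have h3' : (R : ℝ) ≤ (i' : ℝ) + t + 1 := by exact_mod_cast hi2'
      have hi0 : (0 : ℝ) ≤ i' := Nat.cast_nonneg _
      have h6 : 1 * ((t : ℝ) + i' + 1 - R) ≤ c' * ((t : ℝ) + i' + 1 - R) :=
        mul_le_mul_of_nonneg_right hc1' (by linarith)
      constructor <;> linarith
    · omega
  · rcases mem_rows.1 hρ' with ⟨ht', i', hi', hi2', hρi'⟩ | ⟨ht', hta', hρa'⟩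
    · omega
    · omega

end H40.LS
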