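import Pool.Agent.H40.LS.Defs

/-!
# Linked subsequences
-/

namespace H40.LS

variable {mem : List ℕ → Finset ℕ}

theorem Linked.lt {l : List ℕ} {k j : ℕ} (h : Linked mem l k j) : j < l.length := by
  cases h with
  | one _ h => exact h
  | step _ _ _ _ _ h _ _ => exact h

theorem Linked.le {l : List ℕ} {k j : ℕ} (h : Linked mem l k j) : k ≤ j + 1 := by
  induction h with
  | one j _ => omega
  | step k i j _ h1 _ _ _ ih => omega

theorem getD_append_lt (l l' : List ℕ) {i : ℕ} (hi : i < l.length) :
    (l ++ l').getD i 0 = l.getD i 0 := by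
  rw [List.getD_append _ _ _ _ hi]

theorem Linked.mono {l : List ℕ} (l' : List ℕ) {k j : ℕ} (h : Linked mem l k j) :
    Linked mem (l ++ l') k j := by
  induction h with
  | one j h =>
    apply Linked.one
    rw [List.length_append]
    omega
  | step k i j _ h1 h2 h3 h4 ih =>
    refine Linked.step k i j ih h1 ?_ ?_ ?_
    · rw [List.length_append]
      omega
    · rw [getD_append_lt _ _ (by omega), getD_append_lt _ _ h2]
      exact h3
    · rw [List.take_append_of_le_length h2.le]
      exact h4

theorem Linked.restrict {l l' : List ℕ} {k j : ℕ} (h : Linked mem (l ++ l') k j)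
    (hj : j < l.length) : Linked mem l k j := by
  induction h with
  | one j h => exact Linked.one j hj
  | step k i j _ h1 h2 h3 h4 ih =>
    refine Linked.step k i j (ih (by omega)) h1 hj ?_ ?_
    · rwa [getD_append_lt _ _ (by omega), getD_append_lt _ _ hj] at h3
    · rwa [List.take_append_of_le_length hj.le] at h4

/-- The maximal length of a linked subsequence which ends at `i`. -/
noncomputable def best (mem : List ℕ → Finset ℕ) (l : List ℕ) (i : ℕ) : ℕ :=
  sSup {k | Linked mem l k i}

theorem best_bdd (l : List ℕ) (i : ℕ) : BddAbove {k | Linked mem l k i} :=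
  ⟨i + 1, fun _ h => Linked.le h⟩

theorem le_best {l : List ℕ} {k i : ℕ} (h : Linked mem l k i) : k ≤ best mem l i :=
  le_csSup (best_bdd l i) h

theorem best_mem {l : List ℕ} {i : ℕ} (hi : i < l.length) : Linked mem l (best mem l i) i :=
  Nat.sSup_mem (s := {k | Linked mem l k i}) ⟨1, Linked.one i hi⟩ (best_bdd l i)

theorem best_append (l l' : List ℕ) {i : ℕ} (hi : i < l.length) :
    best mem (l ++ l') i = best mem l i := by
  unfold best
  congr 1
  ext k
  exact ⟨fun h => Linked.restrict h hi, fun h => Linked.mono l' h⟩

/-- The pairs of an algorithm which keeps elements of the stream. -/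
noncomputable def pairs (mem : List ℕ → Finset ℕ) (l : List ℕ) : Finset (ℕ × ℕ) :=
  (mem l).image fun i => (l.getD i 0, best mem l i)

theorem Memory.lt {s : ℕ} (M : Memory s) (l : List ℕ) : ∀ i ∈ M.mem l, i < l.length := by
  induction l using List.reverseRecOn with
  | nil =>
    intro i hi
    rw [M.nil] at hi
    exact absurd hi (Finset.notMem_empty i)
  | append_singleton l x ih =>
    intro i hi
    rw [List.length_append, List.length_singleton]
    rcases Finset.mem_insert.1 (M.step l x hi) with h | h
    · omega
    · have := ih i h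
      omega

theorem Linked.new {l : List ℕ} {k j : ℕ} (h : Linked mem l k j) : k ≤ 1 ∨
    ∃ i ∈ mem (l.take j), i < j ∧ l.getD i 0 < l.getD j 0 ∧ k ≤ best mem (l.take j) i + 1 := by
  cases h with
  | one _ h => exact Or.inl (le_refl _)
  | step k i j h0 h1 h2 h3 h4 =>
    right
    refine ⟨i, h4, h1, h3, ?_⟩
    have h5 : Linked mem (l.take j ++ l.drop j) k i := by rwa [List.take_append_drop]
    have h6 := le_best (Linked.restrict h5 (by rw [List.length_take]; omega))
    omega

theorem Memory.exact {s : ℕ} (M : Memory s) : Exact s (pairs M.mem) := by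
  refine ⟨?_, ?_, ?_⟩
  · unfold pairs
    rw [M.nil, Finset.image_empty]
  · intro l x p hp
    unfold pairs at hp
    obtain ⟨i, hi, rfl⟩ := Finset.mem_image.1 hp
    rcases Finset.mem_insert.1 (M.step l x hi) with h | h
    · subst h
      right
      have hlen : l.length < (l ++ [x]).length := by
        rw [List.length_append, List.length_singleton]
        omega
      have hx : (l ++ [x]).getD l.length 0 = x := by
        rw [List.getD_eq_getElem _ _ hlen]
        simp
      refine ⟨hx, ?_⟩
      rcases Linked.new (best_mem (mem := M.mem) hlen) with h1 | ⟨i, h1, h2, h3, h4⟩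
      · exact Or.inl h1
      · right
        rw [List.take_left] at h1 h4
        rw [hx, getD_append_lt _ _ h2] at h3
        exact ⟨(l.getD i 0, best M.mem l i), Finset.mem_image.2 ⟨i, h1, rfl⟩, h3, h4⟩
    · left
      have hi' := M.lt l i h
      rw [getD_append_lt _ _ hi', best_append _ _ hi']
      exact Finset.mem_image.2 ⟨i, h, rfl⟩
  · intro l
    exact Finset.card_image_le.trans (M.card_le l)

theorem LinkAlg.cert {s : ℕ} (𝒜 : LinkAlg s) : Cert s 𝒜.out := by
  refine ⟨pairs 𝒜.mem, 𝒜.toMemory.exact, ?_⟩
  intro l
  rcases 𝒜.out_le l with h | ⟨k, j, h, h1⟩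
  · exact Or.inl (by omega)
  · rcases Linked.new h with h2 | ⟨i, h2, h3, -, h4⟩
    · exact Or.inl (by omega)
    · right
      exact ⟨l.take j, List.take_prefix j l, _, Finset.mem_image.2 ⟨i, h2, rfl⟩, by
        change 𝒜.out l ≤ best 𝒜.mem (l.take j) i + 1
        omega⟩

end H40.LS
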