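import Pool.Agent.H40.LS.Lev

/-!
# Choice of the parameters
-/

namespace H40.LS

/-- The number of rows. -/
def Rq (q : ℕ) : ℕ := 4 ^ (q + 1) * (9 * q + 4) ^ q

/-- The number of free slots. -/
def Kq (q : ℕ) : ℕ := 9 * q * Rq q

/-- The growth rate of the length. -/
def Gr (q : ℕ) : ℕ := ((9 * q + 4) * Rq q ^ 2) ^ q

/-- The weight. -/
noncomputable def zq (q : ℕ) : ℝ := 1 + 1 / (2 * ((Kq q : ℝ) + Rq q))

/-- The decay rate. -/
noncomputable def xq (q : ℕ) : ℝ := max (zq q)⁻¹ (3 / 4)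

theorem Rq_pos (q : ℕ) : 1 ≤ Rq q := by
  unfold Rq
  exact Nat.mul_pos (by positivity) (by positivity)

theorem parz {q : ℕ} (hq : 3 ≤ q) : Par (Kq q) (Rq q) 1 (zq q) := by
  have hR := Rq_pos q
  have hR' : (0 : ℝ) < Rq q := by exact_mod_cast hR
  have hK' : (0 : ℝ) ≤ Kq q := Nat.cast_nonneg _
  refine ⟨hR, ?_, le_refl _, by norm_num, ?_, ?_⟩
  · unfold Kq
    nlinarith
  · unfold zq
    have : (0 : ℝ) < 1 / (2 * ((Kq q : ℝ) + Rq q)) := by positivity
    linarith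
  · unfold zq
    rw [add_sub_cancel_left]
    have : (Kq q : ℝ) + Rq q ≠ 0 := by positivity
    apply le_of_eq
    field_simp

theorem par1 {q : ℕ} (hq : 3 ≤ q) : Par (Kq q) (Rq q) 2 1 := by
  have h := parz hq
  exact ⟨h.hR, h.hK, by norm_num, le_refl _, le_refl _, by norm_num⟩

theorem xq_lt {q : ℕ} : xq q < 1 := by
  unfold xq
  apply max_lt
  · apply inv_lt_one_of_one_lt₀
    unfold zq
    have hR' : (0 : ℝ) < Rq q := by exact_mod_cast Rq_pos q
    have hK' : (0 : ℝ) ≤ Kq q := Nat.cast_nonneg _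
    have : (0 : ℝ) < 1 / (2 * ((Kq q : ℝ) + Rq q)) := by positivity
    linarith
  · norm_num

theorem xq_ge (q : ℕ) : 3 / 4 ≤ xq q := le_max_right _ _

theorem num_s {q g n s : ℕ} (hq : 3 ≤ q) (hs : s ^ (2 * q) ≤ n ^ (q - 3))
    (hn : n ≤ Gr q ^ (g + 1)) :
    s * 4 ^ (q * g) * Rq q ^ (g + g) * 4 ^ g ≤ Gr q * Rq q ^ (q * g) := by
  obtain ⟨m, rfl⟩ := Nat.exists_eq_add_of_le' hq
  rw [Nat.add_sub_cancel] at hs
  have hR := Rq_pos (m + 3)
  have hRdef : Rq (m + 3) = 4 ^ (m + 3 + 1) * (9 * (m + 3) + 4) ^ (m + 3) := rfl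
  have hQdef : Gr (m + 3) = ((9 * (m + 3) + 4) * Rq (m + 3) ^ 2) ^ (m + 3) := rfl
  have hQ : 1 ≤ Gr (m + 3) := by
    rw [hQdef]
    exact Nat.one_le_pow _ _ (by positivity)
  generalize Rq (m + 3) = R at *
  generalize Gr (m + 3) = Q at *
  have hw : 1 ≤ 9 * (m + 3) + 4 := by omega
  generalize 9 * (m + 3) + 4 = w at *
  have h1 : (s * 4 ^ ((m + 3) * g) * R ^ (g + g) * 4 ^ g) ^ (2 * (m + 3))
      ≤ (Q * R ^ ((m + 3) * g)) ^ (2 * (m + 3)) := by
    calc (s * 4 ^ ((m + 3) * g) * R ^ (g + g) * 4 ^ g) ^ (2 * (m + 3))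
        = s ^ (2 * (m + 3)) * (4 ^ (2 * (m + 3) * (m + 4) * g) * R ^ (4 * (m + 3) * g)) := by
          ring
      _ ≤ (Q ^ (g + 1)) ^ m * (4 ^ (2 * (m + 3) * (m + 4) * g) * R ^ (4 * (m + 3) * g)) :=
          Nat.mul_le_mul_right _ (hs.trans (Nat.pow_le_pow_left hn m))
      _ = Q ^ m * (w ^ ((m + 3) * g * m) * 4 ^ (2 * (m + 3) * (m + 4) * g))
            * (R ^ (2 * (m + 3) * g * m) * R ^ (4 * (m + 3) * g)) := by
          have : (Q ^ (g + 1)) ^ m = Q ^ m * Q ^ (g * m) := by ring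
          rw [this]
          have : Q ^ (g * m) = w ^ ((m + 3) * g * m) * R ^ (2 * (m + 3) * g * m) := by
            rw [hQdef]
            ring
          rw [this]
          ring
      _ ≤ Q ^ (2 * (m + 3)) * (w ^ (2 * (m + 3) * (m + 3) * g) * 4 ^ (2 * (m + 3) * (m + 4) * g))
            * (R ^ (2 * (m + 3) * g * m) * R ^ (4 * (m + 3) * g)) := by
          apply Nat.mul_le_mul_right
          apply Nat.mul_le_mul
          · exact Nat.pow_le_pow_right hQ (by omega)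
          · apply Nat.mul_le_mul_right
            apply Nat.pow_le_pow_right hw
            nlinarith [Nat.zero_le (g * m), Nat.zero_le g]
      _ = Q ^ (2 * (m + 3)) * R ^ (2 * (m + 3) * g)
            * (R ^ (2 * (m + 3) * g * m) * R ^ (4 * (m + 3) * g)) := by
          have : R ^ (2 * (m + 3) * g) = w ^ (2 * (m + 3) * (m + 3) * g)
              * 4 ^ (2 * (m + 3) * (m + 4) * g) := by
            rw [hRdef, mul_pow, ← pow_mul, ← pow_mul, mul_comm]
            congr 2 <;> ring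
          rw [this]
      _ = _ := by ring
  exact (Nat.pow_le_pow_iff_left (by omega)).1 h1

theorem num2 {q : ℕ} (hq : 3 ≤ q) : (9 * (q : ℝ) + 6) ^ q ≤ 3 / 2 * (9 * (q : ℝ) + 3) ^ q := by
  have hq' : (0 : ℝ) ≤ q := Nat.cast_nonneg _
  have hp : (0 : ℝ) < 9 * (q : ℝ) + 3 := by positivity
  have h1 : (9 * (q : ℝ) + 6) = (1 + 3 / (9 * (q : ℝ) + 3)) * (9 * (q : ℝ) + 3) := by
    field_simp
    ring
  rw [h1, mul_pow]
  apply mul_le_mul_of_nonneg_right _ (by positivity)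
  have h2 : (1 + 3 / (9 * (q : ℝ) + 3)) ≤ Real.exp (3 / (9 * (q : ℝ) + 3)) := by
    rw [add_comm]
    exact Real.add_one_le_exp _
  calc (1 + 3 / (9 * (q : ℝ) + 3)) ^ q ≤ (Real.exp (3 / (9 * (q : ℝ) + 3))) ^ q :=
        pow_le_pow_left₀ (by positivity) h2 q
    _ = Real.exp (q * (3 / (9 * (q : ℝ) + 3))) := by rw [← Real.exp_nat_mul]
    _ ≤ Real.exp (1 / 3) := by
      apply Real.exp_le_exp.2
      rw [mul_div_assoc', div_le_div_iff₀ hp (by norm_num)]
      linarith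
    _ ≤ 3 / 2 := by
      have h3 : Real.exp (1 / 3) ^ 3 ≤ (3 / 2 : ℝ) ^ 3 := by
        rw [← Real.exp_nat_mul]
        have : ((3 : ℕ) : ℝ) * (1 / 3) = 1 := by norm_num
        rw [this]
        have := Real.exp_one_lt_d9
        norm_num
        linarith
      exact le_of_pow_le_pow_left₀ (by norm_num) (by norm_num) h3

theorem num {q g n s : ℕ} (hq : 3 ≤ q) (hs : s ^ (2 * q) ≤ n ^ (q - 3))
    (hn : n ≤ Gr q ^ (g + 1)) :
    ((Kq q : ℝ) + 3 * Rq q) ^ (q * g) / zq q ^ g + ((Kq q : ℝ) + 6 * Rq q) ^ (q * g) / 2 ^ g + 2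
      + ((Kq q : ℝ) + 4 * Rq q) ^ (q * g) * (s * (2 ^ (q * g) * (Rq q : ℝ) ^ (g + g)))
        / (Rq q : ℝ) ^ (q * g)
      ≤ (4 + Gr q) * xq q ^ g * ((Kq q : ℝ) + 3 * Rq q) ^ (q * g) := by
  have hR : (1 : ℝ) ≤ Rq q := by exact_mod_cast Rq_pos q
  have hR0 : (0 : ℝ) < Rq q := by linarith
  have hKq : (Kq q : ℝ) = 9 * q * Rq q := by
    unfold Kq
    push_cast
    ring
  have hq1 : (3 : ℝ) ≤ q := by exact_mod_cast hq
  have hx1 := xq_ge q
  have hz : (zq q)⁻¹ ≤ xq q := le_max_left _ _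
  have hz1 : 1 ≤ zq q := (parz hq).hz1
  have hQ0 : (0 : ℝ) ≤ Gr q := Nat.cast_nonneg _
  have hns := num_s hq hs hn
  have hns' : (s : ℝ) * 4 ^ (q * g) * (Rq q : ℝ) ^ (g + g) * 4 ^ g
      ≤ Gr q * (Rq q : ℝ) ^ (q * g) := by exact_mod_cast hns
  rw [hKq]
  generalize (Rq q : ℝ) = R at *
  generalize (Gr q : ℝ) = Q at *
  generalize zq q = z at *
  generalize xq q = ξ at *
  have hN0 : (0 : ℝ) < (9 * q * R + 3 * R) ^ (q * g) := by positivity
  have hx0 : (0 : ℝ) < ξ := by linarith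
  -- first term
  have t1 : (9 * q * R + 3 * R) ^ (q * g) / z ^ g ≤ ξ ^ g * (9 * q * R + 3 * R) ^ (q * g) := by
    rw [div_eq_mul_inv, ← inv_pow, mul_comm]
    exact mul_le_mul_of_nonneg_right (pow_le_pow_left₀ (by positivity) hz g) hN0.le
  -- second term
  have t2 : (9 * q * R + 6 * R) ^ (q * g) / 2 ^ g ≤ ξ ^ g * (9 * q * R + 3 * R) ^ (q * g) := by
    have h1 : (9 * q * R + 6 * R) ^ q ≤ 3 / 2 * (9 * q * R + 3 * R) ^ q := by
      have h2 := num2 hq
      have e1 : 9 * q * R + 6 * R = (9 * q + 6) * R := by ring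
      have e2 : 9 * q * R + 3 * R = (9 * q + 3) * R := by ring
      rw [e1, e2, mul_pow, mul_pow]
      have := mul_le_mul_of_nonneg_right h2 (show 0 ≤ R ^ q by positivity)
      linarith
    rw [pow_mul, pow_mul, div_le_iff₀ (by positivity)]
    calc ((9 * q * R + 6 * R) ^ q) ^ g ≤ (3 / 2 * (9 * q * R + 3 * R) ^ q) ^ g :=
          pow_le_pow_left₀ (by positivity) h1 g
      _ = (3 / 4) ^ g * ((9 * q * R + 3 * R) ^ q) ^ g * 2 ^ g := by
        rw [← mul_pow, ← mul_pow]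
        congr 1
        ring
      _ ≤ _ := by
        apply mul_le_mul_of_nonneg_right _ (by positivity)
        apply mul_le_mul_of_nonneg_right _ (by positivity)
        exact pow_le_pow_left₀ (by norm_num) hx1 g
  -- third term
  have t3 : (1 : ℝ) ≤ ξ ^ g * (9 * q * R + 3 * R) ^ (q * g) := by
    rw [pow_mul, ← mul_pow]
    apply one_le_pow₀
    have h1 : (4 : ℝ) / 3 ≤ (9 * q * R + 3 * R) ^ q := by
      calc (4 : ℝ) / 3 ≤ 9 * q * R + 3 * R := by nlinarith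
        _ ≤ (9 * q * R + 3 * R) ^ q := by
          apply le_self_pow₀
          · nlinarith
          · omega
    calc (1 : ℝ) = 3 / 4 * (4 / 3) := by norm_num
      _ ≤ ξ * (9 * q * R + 3 * R) ^ q := mul_le_mul hx1 h1 (by norm_num) (by linarith)
  -- fourth term
  have t4 : (9 * q * R + 4 * R) ^ (q * g) * (s * (2 ^ (q * g) * R ^ (g + g))) / R ^ (q * g)
      ≤ Q * ξ ^ g * (9 * q * R + 3 * R) ^ (q * g) := by
    rw [div_le_iff₀ (by positivity)]
    have h1 : (9 * q * R + 4 * R) ^ (q * g) ≤ 2 ^ (q * g) * (9 * q * R + 3 * R) ^ (q * g) := by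
      rw [← mul_pow]
      apply pow_le_pow_left₀ (by positivity)
      nlinarith
    have h2 : s * 4 ^ (q * g) * R ^ (g + g) ≤ Q * ξ ^ g * R ^ (q * g) := by
      have h3 : (1 : ℝ) ≤ 4 ^ g * ξ ^ g := by
        rw [← mul_pow]
        exact one_le_pow₀ (by linarith)
      calc s * 4 ^ (q * g) * R ^ (g + g) ≤ s * 4 ^ (q * g) * R ^ (g + g) * (4 ^ g * ξ ^ g) :=
            le_mul_of_one_le_right (by positivity) h3
        _ = (s * 4 ^ (q * g) * R ^ (g + g) * 4 ^ g) * ξ ^ g := by ring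
        _ ≤ (Q * R ^ (q * g)) * ξ ^ g := mul_le_mul_of_nonneg_right hns' (by positivity)
        _ = _ := by ring
    calc (9 * q * R + 4 * R) ^ (q * g) * (s * (2 ^ (q * g) * R ^ (g + g)))
        ≤ 2 ^ (q * g) * (9 * q * R + 3 * R) ^ (q * g) * (s * (2 ^ (q * g) * R ^ (g + g))) :=
          mul_le_mul_of_nonneg_right h1 (by positivity)
      _ = (9 * q * R + 3 * R) ^ (q * g) * (s * 4 ^ (q * g) * R ^ (g + g)) := by
        have : (4 : ℝ) ^ (q * g) = 2 ^ (q * g) * 2 ^ (q * g) := by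
          rw [← mul_pow]
          norm_num
        rw [this]
        ring
      _ ≤ (9 * q * R + 3 * R) ^ (q * g) * (Q * ξ ^ g * R ^ (q * g)) :=
        mul_le_mul_of_nonneg_left h2 hN0.le
      _ = _ := by ring
  linarith

end H40.LS
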