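import Pool.Agent.H40.LS.Det
import Pool.Agent.H40.LS.Num

/-!
# Randomised algorithms
-/

open MeasureTheory

namespace H40.LS

theorem length_str {K R : ℕ} (hR : 1 ≤ R) (A : List ℕ → ℕ) (h : ℕ) :
    (str K R A (times (K + 4 * R) h)).length ≤ ((K + 4 * R) * R) ^ h := by
  have h1 : ∀ ts : List (List ℕ), (∀ τ ∈ ts, τ.length = h) →
      (str K R A ts).length ≤ ts.length * R ^ h := by
    intro ts
    induction ts with
    | nil =>
      intro _
      simp [str]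
    | cons τ ts ih =>
      intro hts
      have h2 := ih fun τ' h' => hts τ' (List.mem_cons_of_mem _ h')
      have h3 := length_tickAt (K := K) hR τ A
      rw [hts τ List.mem_cons_self] at h3
      unfold str at h2 ⊢
      rw [List.flatMap_cons, List.length_append, List.length_cons, Nat.add_mul, one_mul, add_comm]
      unfold blk at h2 ⊢
      rw [List.length_map]
      omega
  have h2 := h1 (times (K + 4 * R) h) fun τ hτ => (mem_times.1 hτ).1
  rwa [length_times, ← mul_pow] at h2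

theorem val_le {K R : ℕ} {A : List ℕ → ℕ} (hA : ∀ l, A l < R) (h : ℕ) :
    ∀ v ∈ str K R A (times (K + 4 * R) h), v ≤ (2 * R * (K + 4 * R)) ^ h := by
  intro v hv
  unfold str at hv
  obtain ⟨τ, hτ, h1⟩ := List.mem_flatMap.1 hv
  unfold blk at h1
  obtain ⟨x, hx, rfl⟩ := List.mem_map.1 h1
  obtain ⟨h2, h3⟩ := mem_times.1 hτ
  obtain ⟨h4, h5⟩ := mem_tickAt hx
  have h6 := code_lt (Val.lt hA (h5 h3))
  rw [← tm_length, h4, h2] at h6
  unfold val
  exact h6

/-- The average probability of success is small, for a deterministic algorithm. -/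
theorem det_success {q g n s : ℕ} (hq : 3 ≤ q) (hs : s ^ (2 * q) ≤ n ^ (q - 3))
    (hn : n ≤ Gr q ^ (g + 1)) {out : List ℕ → ℕ}
    (hout : Cert s out) (j : (dom (Kq q + 4 * Rq q) (q * g) → Fin (Rq q)) → ℕ) (Y : ℝ) (hY : 0 ≤ Y)
    (hY2 : Y * Y * ((4 + Gr q) * xq q ^ g) ≤ 1) (hY0 : Y ≠ 0) :
    ∑ ω, Set.indicator {ω : dom (Kq q + 4 * Rq q) (q * g) → Fin (Rq q) |
      (LIS (str (Kq q) (Rq q) (ext ω) (times (Kq q + 4 * Rq q) (q * g)) ++
        List.replicate (j ω) 1) : ℝ) ≤ Y *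
      out (str (Kq q) (Rq q) (ext ω) (times (Kq q + 4 * Rq q) (q * g)) ++
        List.replicate (j ω) 1)} (fun _ => (1 : ℝ)) ω
      ≤ (Rq q : ℝ) ^ Fintype.card (dom (Kq q + 4 * Rq q) (q * g)) * Y⁻¹ := by
  have h1 := parz hq
  have h2 := par1 hq
  have hR := Rq_pos q
  have hd := det h1 h2 hout (q * g) g g j
  have hnum := num hq hs hn
  have hR0 : (0 : ℝ) < Rq q := by exact_mod_cast hR
  have hN0 : (0 : ℝ) < ((Kq q : ℝ) + 3 * Rq q) ^ (q * g) := by positivity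
  have hC0 : (0 : ℝ) ≤ (Rq q : ℝ) ^ Fintype.card (dom (Kq q + 4 * Rq q) (q * g)) := by positivity
  have hpt : ∀ ω : dom (Kq q + 4 * Rq q) (q * g) → Fin (Rq q),
      Set.indicator {ω : dom (Kq q + 4 * Rq q) (q * g) → Fin (Rq q) |
      (LIS (str (Kq q) (Rq q) (ext ω) (times (Kq q + 4 * Rq q) (q * g)) ++
        List.replicate (j ω) 1) : ℝ) ≤ Y *
      out (str (Kq q) (Rq q) (ext ω) (times (Kq q + 4 * Rq q) (q * g)) ++
        List.replicate (j ω) 1)} (fun _ => (1 : ℝ)) ω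
      ≤ (Y / ((Kq q : ℝ) + 3 * Rq q) ^ (q * g)) *
      out (str (Kq q) (Rq q) (ext ω) (times (Kq q + 4 * Rq q) (q * g)) ++
        List.replicate (j ω) 1) := by
    intro ω
    have hL := le_LIS (K := Kq q) (R := Rq q) (fun l => ext_lt hR ω l) (q * g)
      (List.replicate (j ω) 1)
    have hL' : ((Kq q : ℝ) + 3 * Rq q) ^ (q * g) ≤
        (LIS (str (Kq q) (Rq q) (ext ω) (times (Kq q + 4 * Rq q) (q * g)) ++
        List.replicate (j ω) 1) : ℝ) := by exact_mod_cast hL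
    rw [div_mul_eq_mul_div, le_div_iff₀ hN0]
    by_cases hω : ω ∈ {ω : dom (Kq q + 4 * Rq q) (q * g) → Fin (Rq q) |
      (LIS (str (Kq q) (Rq q) (ext ω) (times (Kq q + 4 * Rq q) (q * g)) ++
        List.replicate (j ω) 1) : ℝ) ≤ Y *
      out (str (Kq q) (Rq q) (ext ω) (times (Kq q + 4 * Rq q) (q * g)) ++
        List.replicate (j ω) 1)}
    · rw [Set.indicator_of_mem hω, one_mul]
      exact hL'.trans hω
    · rw [Set.indicator_of_notMem hω, zero_mul]
      positivity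
  refine (Finset.sum_le_sum fun ω _ => hpt ω).trans ?_
  rw [← Finset.mul_sum]
  have h3 := mul_le_mul_of_nonneg_left (hd.trans (mul_le_mul_of_nonneg_left hnum hC0))
    (show 0 ≤ Y / ((Kq q : ℝ) + 3 * Rq q) ^ (q * g) by positivity)
  refine h3.trans ?_
  have h4 : Y / ((Kq q : ℝ) + 3 * Rq q) ^ (q * g) *
      ((Rq q : ℝ) ^ Fintype.card (dom (Kq q + 4 * Rq q) (q * g)) *
        ((4 + Gr q) * xq q ^ g * ((Kq q : ℝ) + 3 * Rq q) ^ (q * g)))
      = (Rq q : ℝ) ^ Fintype.card (dom (Kq q + 4 * Rq q) (q * g)) *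
        (Y * ((4 + Gr q) * xq q ^ g)) := by
    field_simp
  rw [h4]
  apply mul_le_mul_of_nonneg_left _ hC0
  have hYpos : 0 < Y := lt_of_le_of_ne hY (Ne.symm hY0)
  rw [← mul_le_mul_iff_right₀ hYpos, mul_inv_cancel₀ hY0]
  linarith

/-- **Main theorem.** -/
theorem main (δ : ℝ) (hδ : 0 < δ) : ∃ γ : ℝ, 0 < γ ∧ ∃ n₀ : ℕ, ∀ n : ℕ, n₀ ≤ n → ∀ s : ℕ,
    (s : ℝ) ≤ (n : ℝ) ^ (1 / 2 - δ) → ∀ (Ω : Type) [MeasurableSpace Ω] (μ : Measure Ω)
    [IsProbabilityMeasure μ] (out : Ω → List ℕ → ℕ), (∀ ω, Cert s (out ω)) →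
    (∀ l, Measurable fun ω => out ω l) →
    ∃ l : List ℕ, l.length = n ∧ (∀ x ∈ l, 1 ≤ x ∧ x ≤ n ^ 2) ∧
      μ.real {ω | (LIS l : ℝ) ≤ (n : ℝ) ^ γ * out ω l} ≤ (n : ℝ) ^ (-γ) := by
  -- the parameters
  obtain ⟨q1, hq1⟩ := exists_nat_ge (3 / (2 * δ))
  set q := max 3 q1 with hqdef
  have hq : 3 ≤ q := le_max_left _ _
  have hqδ : 3 ≤ 2 * δ * q := by
    have h1 : 3 / (2 * δ) ≤ q := hq1.trans (by exact_mod_cast le_max_right _ _)
    rw [div_le_iff₀ (by positivity)] at h1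
    linarith
  have hR := Rq_pos q
  have hx1 : xq q < 1 := xq_lt
  have hx0 : 0 < xq q := lt_of_lt_of_le (by norm_num) (xq_ge q)
  have hxi : 1 < (xq q)⁻¹ := (one_lt_inv₀ hx0).2 hx1
  obtain ⟨m, hm⟩ := pow_unbounded_of_one_lt ((Gr q : ℕ) : ℝ) hxi
  obtain ⟨g0, hg0⟩ := pow_unbounded_of_one_lt ((4 + (Gr q : ℝ)) ^ 2) hxi
  have hQ2 : 2 ^ q ≤ Gr q := by
    unfold Gr
    apply Nat.pow_le_pow_left
    have : 1 ≤ Rq q ^ 2 := Nat.one_le_pow _ _ hR
    nlinarith
  have hQ : 1 < Gr q := by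
    have : 2 ^ 3 ≤ 2 ^ q := Nat.pow_le_pow_right (by norm_num) hq
    omega
  have hγ : (0 : ℝ) < 1 / (4 * ((m : ℝ) + 1)) := by positivity
  refine ⟨1 / (4 * ((m : ℝ) + 1)), hγ, Gr q ^ (g0 + 1), ?_⟩
  intro n hn s hs Ω _ μ _ out hcert hmeas
  have hn0 : n ≠ 0 := by
    have : 0 < Gr q ^ (g0 + 1) := by positivity
    omega
  have hn1 : (1 : ℝ) ≤ n := by exact_mod_cast Nat.one_le_iff_ne_zero.2 hn0
  set g := Nat.log (Gr q) n with hg
  have hg1 : Gr q ^ g ≤ n := Nat.pow_log_le_self _ hn0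
  have hg2 : n < Gr q ^ (g + 1) := Nat.lt_pow_succ_log_self hQ n
  have hgg : g0 + 1 ≤ g := Nat.le_log_of_pow_le hQ hn
  -- the number of pairs
  have hs2 : s ^ (2 * q) ≤ n ^ (q - 3) := by
    have h1 : (s : ℝ) ^ (2 * q) ≤ (n : ℝ) ^ (q - 3) := by
      calc (s : ℝ) ^ (2 * q) ≤ ((n : ℝ) ^ (1 / 2 - δ)) ^ (2 * q) :=
            pow_le_pow_left₀ (Nat.cast_nonneg _) hs _
        _ = (n : ℝ) ^ ((1 / 2 - δ) * (2 * q : ℕ)) := by
            rw [Real.rpow_mul (by positivity), Real.rpow_natCast]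
        _ ≤ (n : ℝ) ^ (((q - 3 : ℕ) : ℝ)) := by
            apply Real.rpow_le_rpow_of_exponent_le hn1
            rw [Nat.cast_sub hq]
            push_cast
            linarith
        _ = (n : ℝ) ^ (q - 3) := Real.rpow_natCast _ _
    exact_mod_cast h1
  -- the approximation factor
  set Y : ℝ := (n : ℝ) ^ (1 / (4 * ((m : ℝ) + 1))) with hYdef
  have hY1 : 1 ≤ Y := Real.one_le_rpow hn1 hγ.le
  have hYY : (Y * Y) ^ (2 * (m + 1)) = n := by
    rw [hYdef, ← Real.rpow_add (by linarith), ← Real.rpow_natCast, ← Real.rpow_mul (by linarith)]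
    have : (1 / (4 * ((m : ℝ) + 1)) + 1 / (4 * ((m : ℝ) + 1))) * ((2 * (m + 1) : ℕ) : ℝ) = 1 := by
      push_cast
      field_simp
      norm_num
    rw [this, Real.rpow_one]
  have hY2 : Y * Y * ((4 + Gr q) * xq q ^ g) ≤ 1 := by
    have hpos : (0 : ℝ) < 4 + Gr q := by positivity
    have h1 : Y * Y * (4 + Gr q) ≤ ((xq q)⁻¹) ^ g := by
      refine le_of_pow_le_pow_left₀ (n := 2 * (m + 1)) (by omega) (by positivity) ?_
      rw [mul_pow, hYY]
      obtain ⟨g', hg'⟩ : ∃ g', g = g' + 1 := ⟨g - 1, by omega⟩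
      calc (n : ℝ) * (4 + (Gr q : ℝ)) ^ (2 * (m + 1))
          ≤ (((xq q)⁻¹) ^ (m + 1)) ^ (g + 1) * (((xq q)⁻¹) ^ g') ^ (m + 1) := by
            apply mul_le_mul _ _ (by positivity) (by positivity)
            · calc (n : ℝ) ≤ (Gr q : ℝ) ^ (g + 1) := by exact_mod_cast hg2.le
                _ ≤ (((xq q)⁻¹) ^ (m + 1)) ^ (g + 1) := by
                  apply pow_le_pow_left₀ (by positivity)
                  exact hm.le.trans (pow_le_pow_right₀ hxi.le (Nat.le_succ m))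
            · rw [pow_mul]
              apply pow_le_pow_left₀ (by positivity)
              exact hg0.le.trans (pow_le_pow_right₀ hxi.le (by omega))
        _ = (((xq q)⁻¹) ^ g) ^ (2 * (m + 1)) := by
            rw [hg', ← pow_mul, ← pow_mul, ← pow_mul, ← pow_add]
            congr 1
            ring
    have h2 : Y * Y * ((4 + Gr q) * xq q ^ g) = (Y * Y * (4 + Gr q)) * xq q ^ g := by ring
    rw [h2]
    calc (Y * Y * (4 + Gr q)) * xq q ^ g ≤ ((xq q)⁻¹) ^ g * xq q ^ g :=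
          mul_le_mul_of_nonneg_right h1 (by positivity)
      _ = 1 := by rw [← mul_pow, inv_mul_cancel₀ hx0.ne', one_pow]
  -- the streams
  let T := Kq q + 4 * Rq q
  let L : (dom (Kq q + 4 * Rq q) (q * g) → Fin (Rq q)) → List ℕ := fun ω =>
    str (Kq q) (Rq q) (ext ω) (times (Kq q + 4 * Rq q) (q * g))
  have hTR : ((Kq q + 4 * Rq q) * Rq q) ^ (q * g) = Gr q ^ g := by
    unfold Gr Kq
    rw [pow_mul]
    congr 2
    ring
  have hLlen : ∀ ω, (L ω).length ≤ n := by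
    intro ω
    have h1 := length_str (K := Kq q) hR (ext ω) (q * g)
    rw [hTR] at h1
    exact h1.trans hg1
  have hLval : ∀ ω, ∀ v ∈ L ω, 1 ≤ v ∧ v ≤ n ^ 2 := by
    intro ω v hv
    refine ⟨str_pos _ _ v hv, ?_⟩
    have h1 := val_le (K := Kq q) (fun l => ext_lt hR ω l) (q * g) v hv
    refine h1.trans ?_
    calc (2 * Rq q * (Kq q + 4 * Rq q)) ^ (q * g)
        = (2 ^ q) ^ g * ((Kq q + 4 * Rq q) * Rq q) ^ (q * g) := by
          rw [← pow_mul, ← mul_pow]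
          congr 1
          ring
      _ ≤ (Gr q) ^ g * Gr q ^ g := by
          rw [hTR]
          exact Nat.mul_le_mul_right _ (Nat.pow_le_pow_left hQ2 g)
      _ ≤ n * n := Nat.mul_le_mul hg1 hg1
      _ = n ^ 2 := (sq n).symm
  let P : (dom (Kq q + 4 * Rq q) (q * g) → Fin (Rq q)) → List ℕ := fun ω =>
    L ω ++ List.replicate (n - (L ω).length) 1
  let E : (dom (Kq q + 4 * Rq q) (q * g) → Fin (Rq q)) → Set Ω := fun ω =>
    {ω' | (LIS (P ω) : ℝ) ≤ Y * out ω' (P ω)}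
  have hEmeas : ∀ ω, MeasurableSet (E ω) := by
    intro ω
    exact (hmeas (P ω)) (MeasurableSet.of_discrete (s := {k : ℕ | (LIS (P ω) : ℝ) ≤ Y * (k : ℝ)}))
  -- the average over the streams
  have hsum : ∑ ω, μ.real (E ω) ≤
      (Rq q : ℝ) ^ Fintype.card (dom (Kq q + 4 * Rq q) (q * g)) * Y⁻¹ := by
    have h1 : ∀ ω, μ.real (E ω) = ∫ ω', (E ω).indicator (fun _ => (1 : ℝ)) ω' ∂μ := by
      intro ω
      exact (integral_indicator_one (hEmeas ω)).symm
    rw [Finset.sum_congr rfl fun ω _ => h1 ω, ← integral_finset_sum _ fun ω _ => by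
      exact (integrable_const (1 : ℝ)).indicator (hEmeas ω)]
    have h2 : ∀ ω' : Ω, ∑ ω, (E ω).indicator (fun _ => (1 : ℝ)) ω' ≤
        (Rq q : ℝ) ^ Fintype.card (dom (Kq q + 4 * Rq q) (q * g)) * Y⁻¹ := by
      intro ω'
      exact det_success hq hs2 hg2.le (hcert ω') (fun ω => n - (L ω).length) Y (by linarith) hY2
        (by linarith)
    calc ∫ ω', ∑ ω, (E ω).indicator (fun _ => (1 : ℝ)) ω' ∂μ
        ≤ ∫ _ω' : Ω, (Rq q : ℝ) ^ Fintype.card (dom (Kq q + 4 * Rq q) (q * g)) * Y⁻¹ ∂μ := by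
          apply integral_mono
          · exact integrable_finset_sum _ fun ω _ =>
              (integrable_const (1 : ℝ)).indicator (hEmeas ω)
          · exact integrable_const _
          · exact h2
      _ = _ := by
        rw [integral_const]
        simp
  -- a bad stream
  have hex : ∃ ω ∈ (Finset.univ : Finset (dom (Kq q + 4 * Rq q) (q * g) → Fin (Rq q))),
      μ.real (E ω) ≤ Y⁻¹ := by
    have hne : (Finset.univ : Finset (dom (Kq q + 4 * Rq q) (q * g) → Fin (Rq q))).Nonempty :=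
      ⟨fun _ => ⟨0, hR⟩, Finset.mem_univ _⟩
    refine Finset.exists_le_of_sum_le hne ?_
    rw [Finset.sum_const, Finset.card_univ, Fintype.card_fun, Fintype.card_fin, nsmul_eq_mul,
      Nat.cast_pow]
    exact hsum
  obtain ⟨ω, -, hω⟩ := hex
  refine ⟨P ω, ?_, ?_, ?_⟩
  · change (L ω ++ List.replicate (n - (L ω).length) 1).length = n
    rw [List.length_append, List.length_replicate]
    have := hLlen ω
    omega
  · intro v hv
    rcases List.mem_append.1 hv with h1 | h1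
    · exact hLval ω v h1
    · rw [List.eq_of_mem_replicate h1]
      exact ⟨le_refl _, Nat.one_le_pow _ _ (Nat.pos_of_ne_zero hn0)⟩
  · rw [Real.rpow_neg (by positivity)]
    exact hω

end H40.LS
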