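import Mathlib

/-!
# Streaming algorithms for the length of the longest increasing subsequence

A stream is a list of natural numbers, the element at position `i` of `l` is `l.getD i 0`.
-/

namespace H40.LS

/-- The length of a longest strictly increasing subsequence of `l`. -/
noncomputable def LIS (l : List ℕ) : ℕ :=
  sSup {k | ∃ t : List ℕ, t.Sublist l ∧ t.Pairwise (· < ·) ∧ t.length = k}

/-- A deterministic one-pass streaming algorithm which keeps at most `s` elements of the stream in
its memory.  `mem l` is the set of the positions of the elements kept after the prefix `l` of the
stream has been read.  An element enters the memory only when it is read.  There is no other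
restriction on the choice of the elements which are kept, it may depend on the whole prefix: the
rest of the memory of the algorithm is unlimited. -/
structure Memory (s : ℕ) where
  /-- the positions of the elements in the memory -/
  mem : List ℕ → Finset ℕ
  nil : mem [] = ∅
  step : ∀ (l : List ℕ) (x : ℕ), mem (l ++ [x]) ⊆ insert l.length (mem l)
  card_le : ∀ l, (mem l).card ≤ s

/-- `Linked mem l k j`: the stream `l` has an increasing subsequence of length `k` which ends at the
position `j` and is such that every element of it is in the memory when the next one is read. -/
inductive Linked (mem : List ℕ → Finset ℕ) (l : List ℕ) : ℕ → ℕ → Prop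
  | one (j : ℕ) : j < l.length → Linked mem l 1 j
  | step (k i j : ℕ) : Linked mem l k i → i < j → j < l.length → l.getD i 0 < l.getD j 0 →
      i ∈ mem (l.take j) → Linked mem l (k + 1) j

/-- A deterministic one-pass streaming algorithm which keeps at most `s` elements of the stream in
its memory and whose output is at most the length of an increasing subsequence each element of
which is in the memory when the next one is read. -/
structure LinkAlg (s : ℕ) extends Memory s where
  /-- the output -/
  out : List ℕ → ℕ
  out_le : ∀ l, out l = 0 ∨ ∃ k j, Linked mem l k j ∧ out l ≤ k

/-- A deterministic one-pass streaming algorithm which stores at most `s` certified pairs.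
`S l` is the set of the pairs stored after the prefix `l` of the stream has been read; a pair
`(v, k)` certifies that the stream read so far has an increasing subsequence of length at least `k`
whose last element is at most `v`.  A pair is stored after the element `x` has been read only if it
follows from a pair stored before or from `x` alone or from a pair stored before and `x`.  There
is no other restriction on the choice of the stored pairs: it may depend on the whole prefix.
The output `out l` is at most the length of a pair which was stored at some time. -/
structure PairAlg (s : ℕ) where
  /-- the stored pairs -/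
  S : List ℕ → Finset (ℕ × ℕ)
  /-- the output -/
  out : List ℕ → ℕ
  nil : S [] = ∅
  step : ∀ (l : List ℕ) (x : ℕ) (p : ℕ × ℕ), p ∈ S (l ++ [x]) →
    (∃ q ∈ S l, q.1 ≤ p.1 ∧ p.2 ≤ q.2) ∨ (x ≤ p.1 ∧ p.2 ≤ 1) ∨
      (∃ q ∈ S l, q.1 < x ∧ x ≤ p.1 ∧ p.2 ≤ q.2 + 1)
  card_le : ∀ l, (S l).card ≤ s
  out_le : ∀ l, out l = 0 ∨ ∃ l', l' <+: l ∧ ∃ p ∈ S l', out l ≤ p.2

end H40.LS
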