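import Pool.Agent.H40.LS.PMain

/-!
# Randomised algorithms with several passes: the main theorem
-/

open MeasureTheory

namespace H40.LS

theorem avg {Ω ι : Type} [Fintype ι] [Nonempty ι] [MeasurableSpace Ω] (μ : Measure Ω)
    [IsProbabilityMeasure μ] (E : ι → Set Ω) (hE : ∀ i, MeasurableSet (E i)) (B : ℝ)
    (h : ∀ ω, ∑ i, (E i).indicator (fun _ => (1 : ℝ)) ω ≤ Fintype.card ι * B) :
    ∃ i, μ.real (E i) ≤ B := by
  have hsum : ∑ i, μ.real (E i) ≤ Fintype.card ι * B := by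
    have h1 : ∀ i, μ.real (E i) = ∫ ω, (E i).indicator (fun _ => (1 : ℝ)) ω ∂μ := by
      intro i
      exact (integral_indicator_one (hE i)).symm
    rw [Finset.sum_congr rfl fun i _ => h1 i, ← integral_finset_sum _ fun i _ => by
      exact (integrable_const (1 : ℝ)).indicator (hE i)]
    calc ∫ ω, ∑ i, (E i).indicator (fun _ => (1 : ℝ)) ω ∂μ
        ≤ ∫ _ω : Ω, (Fintype.card ι : ℝ) * B ∂μ := by
          apply integral_mono
          · exact integrable_finset_sum _ fun i _ =>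
              (integrable_const (1 : ℝ)).indicator (hE i)
          · exact integrable_const _
          · exact h
      _ = _ := by
        rw [integral_const]
        simp
  obtain ⟨i, -, hi⟩ := Finset.exists_le_of_sum_le (s := (Finset.univ : Finset ι))
    (f := fun i => μ.real (E i)) (g := fun _ => B) Finset.univ_nonempty (by
      rw [Finset.sum_const, Finset.card_univ, nsmul_eq_mul]
      exact hsum)
  exact ⟨i, hi⟩

/-- **Main theorem for several passes.** -/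
theorem pmain (δ : ℝ) (hδ : 0 < δ) : ∃ γ : ℝ, 0 < γ ∧ ∃ n₀ : ℕ, ∀ n : ℕ, n₀ ≤ n → ∀ p s : ℕ,
    (p : ℝ) ≤ (n : ℝ) ^ γ → (s : ℝ) ≤ (n : ℝ) ^ (1 / 3 - δ) →
    ∀ (Ω : Type) [MeasurableSpace Ω] (μ : Measure Ω) [IsProbabilityMeasure μ]
    (𝒜 : Ω → PassAlg p s), (∀ l, Measurable fun ω => (𝒜 ω).out l) →
    ∃ l : List ℕ, l.length = n ∧ (∀ x ∈ l, 1 ≤ x ∧ x ≤ n ^ 2) ∧
      μ.real {ω | (LIS l : ℝ) ≤ (n : ℝ) ^ γ * (𝒜 ω).out l} ≤ (n : ℝ) ^ (-γ) := by
  -- the parameters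
  obtain ⟨q1, hq1⟩ := exists_nat_ge (4 / (3 * δ))
  set q := max 4 q1 with hqdef
  have hq : 4 ≤ q := le_max_left _ _
  have hqδ : 4 ≤ 3 * δ * q := by
    have h1 : 4 / (3 * δ) ≤ q := hq1.trans (by exact_mod_cast le_max_right _ _)
    rw [div_le_iff₀ (by positivity)] at h1
    linarith
  have hR := Rq_pos q
  have hx1 : xq q < 1 := xq_lt
  have hxge := xq_ge q
  have hx0 : 0 < xq q := lt_of_lt_of_le (by norm_num) hxge
  have hxi : 1 < (xq q)⁻¹ := (one_lt_inv₀ hx0).2 hx1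
  have hxi2 : (xq q)⁻¹ ≤ 4 / 3 := by
    rw [inv_le_comm₀ hx0 (by norm_num)]
    linarith
  obtain ⟨m, hm⟩ := pow_unbounded_of_one_lt ((Gr q : ℕ) : ℝ) hxi
  obtain ⟨g0, hg0⟩ := pow_unbounded_of_one_lt ((3 * (Gr q : ℝ) + 6) ^ 2) hxi
  have hQ2 := two_pow_le q
  have hQ : 1 < Gr q := by
    have : 2 ^ 4 ≤ 2 ^ q := Nat.pow_le_pow_right (by norm_num) hq
    omega
  have hQ3 : 1 < Gr q ^ 3 := Nat.one_lt_pow (by norm_num) hQ
  have hγ : (0 : ℝ) < 1 / (12 * ((m : ℝ) + 1)) := by positivity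
  refine ⟨1 / (12 * ((m : ℝ) + 1)), hγ, (Gr q ^ 3) ^ (g0 + 1 + q), ?_⟩
  intro n hn p s hp hs Ω _ μ _ 𝒜 hmeas
  have hn0 : n ≠ 0 := by
    have : 0 < (Gr q ^ 3) ^ (g0 + 1 + q) := by positivity
    omega
  have hn1 : (1 : ℝ) ≤ n := by exact_mod_cast Nat.one_le_iff_ne_zero.2 hn0
  set g := Nat.log (Gr q ^ 3) n with hg
  have hg1 : (Gr q ^ 3) ^ g ≤ n := Nat.pow_log_le_self _ hn0
  have hg2 : n < (Gr q ^ 3) ^ (g + 1) := Nat.lt_pow_succ_log_self hQ3 n
  have hgg : g0 + 1 + q ≤ g := Nat.le_log_of_pow_le hQ3 hn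
  rw [← pow_mul] at hg1 hg2
  -- the number of copies
  set mm := n / Gr q ^ (2 * g) with hmm
  have hmm1 : Gr q ^ g ≤ mm := by
    rw [hmm, Nat.le_div_iff_mul_le (by positivity), ← pow_add]
    calc Gr q ^ (g + 2 * g) = Gr q ^ (3 * g) := by
          congr 1
          ring
      _ ≤ n := hg1
  have hmm2 : mm * Gr q ^ (2 * g) ≤ n := Nat.div_mul_le_self _ _
  -- the number of bits
  have hs2 : s ^ (6 * q) ≤ n ^ (2 * q - 8) := by
    have h1 : (s : ℝ) ^ (6 * q) ≤ (n : ℝ) ^ (2 * q - 8) := by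
      calc (s : ℝ) ^ (6 * q) ≤ ((n : ℝ) ^ (1 / 3 - δ)) ^ (6 * q) :=
            pow_le_pow_left₀ (Nat.cast_nonneg _) hs _
        _ = (n : ℝ) ^ ((1 / 3 - δ) * (6 * q : ℕ)) := by
            rw [Real.rpow_mul (by positivity), Real.rpow_natCast]
        _ ≤ (n : ℝ) ^ (((2 * q - 8 : ℕ) : ℝ)) := by
            apply Real.rpow_le_rpow_of_exponent_le hn1
            rw [Nat.cast_sub (by omega)]
            push_cast
            linarith
        _ = (n : ℝ) ^ (2 * q - 8) := Real.rpow_natCast _ _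
    exact_mod_cast h1
  obtain ⟨hsa, hsb⟩ := num_a hq (show q ≤ g by omega) hs2 (by
    calc n ≤ Gr q ^ (3 * (g + 1)) := hg2.le
      _ = _ := rfl)
  -- the approximation factor
  set Y : ℝ := (n : ℝ) ^ (1 / (12 * ((m : ℝ) + 1))) with hYdef
  have hY1 : 1 ≤ Y := Real.one_le_rpow hn1 hγ.le
  have hYn : (Y * Y) ^ (6 * (m + 1)) = n := by
    rw [hYdef, ← Real.rpow_add (by linarith), ← Real.rpow_natCast, ← Real.rpow_mul (by linarith)]
    have : (1 / (12 * ((m : ℝ) + 1)) + 1 / (12 * ((m : ℝ) + 1))) * ((6 * (m + 1) : ℕ) : ℝ)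
        = 1 := by
      push_cast
      field_simp
      norm_num
    rw [this, Real.rpow_one]
  have hY4 : (Y * Y) ^ 2 ≤ ((xq q)⁻¹) ^ (g + 1) := by
    refine le_of_pow_le_pow_left₀ (n := 3 * (m + 1)) (by omega) (by positivity) ?_
    calc ((Y * Y) ^ 2) ^ (3 * (m + 1)) = (Y * Y) ^ (6 * (m + 1)) := by
          rw [← pow_mul]
          congr 1
          ring
      _ = (n : ℝ) := hYn
      _ ≤ (Gr q : ℝ) ^ (3 * (g + 1)) := by exact_mod_cast hg2.le
      _ ≤ (((xq q)⁻¹) ^ (m + 1)) ^ (3 * (g + 1)) := by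
          apply pow_le_pow_left₀ (by positivity)
          exact hm.le.trans (pow_le_pow_right₀ hxi.le (Nat.le_succ m))
      _ = _ := by
          rw [← pow_mul, ← pow_mul]
          congr 1
          ring
  have hYY1 : 1 ≤ Y * Y := by nlinarith
  have hYY : Y * Y ≤ (4 / 3) ^ (g + 1) := by
    calc Y * Y ≤ (Y * Y) ^ 2 := le_self_pow₀ hYY1 (by norm_num)
      _ ≤ ((xq q)⁻¹) ^ (g + 1) := hY4
      _ ≤ _ := pow_le_pow_left₀ (by positivity) hxi2 _
  have hY2 : Y * Y * (3 * Gr q + 6) * xq q ^ g < 1 := by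
    have h1 : Y * Y * (3 * Gr q + 6) < ((xq q)⁻¹) ^ g := by
      refine lt_of_pow_lt_pow_left₀ 2 (by positivity) ?_
      calc (Y * Y * (3 * Gr q + 6)) ^ 2 = (Y * Y) ^ 2 * (3 * (Gr q : ℝ) + 6) ^ 2 := by ring
        _ < ((xq q)⁻¹) ^ (g + 1) * ((xq q)⁻¹) ^ g0 := by
            apply mul_lt_mul' hY4 hg0 (by positivity) (by positivity)
        _ = ((xq q)⁻¹) ^ (g + 1 + g0) := (pow_add _ _ _).symm
        _ ≤ ((xq q)⁻¹) ^ (g * 2) := pow_le_pow_right₀ hxi.le (by omega)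
        _ = _ := pow_mul _ _ _
    calc Y * Y * (3 * Gr q + 6) * xq q ^ g < ((xq q)⁻¹) ^ g * xq q ^ g :=
          mul_lt_mul_of_pos_right h1 (by positivity)
      _ = 1 := by rw [← mul_pow, inv_mul_cancel₀ hx0.ne', one_pow]
  -- the streams
  let a0 : dom (Kq q + 4 * Rq q) (q * (2 * g)) → Fin (Rq q) := fun _ => ⟨0, hR⟩
  let L : (Fin mm → (dom (Kq q + 4 * Rq q) (q * (2 * g)) → Fin (Rq q))) → List ℕ := fun A =>
    cat (Kq q) (Rq q) (q * (2 * g)) (fun c => ext (toF a0 A c)) mm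
  have hlt : ∀ (A : Fin mm → (dom (Kq q + 4 * Rq q) (q * (2 * g)) → Fin (Rq q))) c l,
      (fun c => ext (toF a0 A c)) c l < Rq q := fun A c l => ext_lt hR _ l
  have hTR : ((Kq q + 4 * Rq q) * Rq q) ^ (q * (2 * g)) = Gr q ^ (2 * g) := by
    unfold Gr Kq
    rw [pow_mul]
    congr 2
    ring
  have hLlen : ∀ A, (L A).length ≤ n := by
    intro A
    have h1 := length_cat (K := Kq q) hR (fun c => ext (toF a0 A c)) (q * (2 * g)) mm
    rw [hTR] at h1
    exact h1.trans hmm2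
  have hwid : mm * wid (Kq q) (Rq q) (q * (2 * g)) ≤ n ^ 2 := by
    unfold wid
    calc mm * (2 * Rq q * (Kq q + 4 * Rq q)) ^ (q * (2 * g))
        = (mm * ((Kq q + 4 * Rq q) * Rq q) ^ (q * (2 * g))) * (2 ^ q) ^ (2 * g) := by
          have e1 : 2 * Rq q * (Kq q + 4 * Rq q) = 2 * ((Kq q + 4 * Rq q) * Rq q) := by ring
          rw [e1, mul_pow, ← pow_mul, mul_comm (2 ^ (q * (2 * g))), mul_assoc]
      _ ≤ n * Gr q ^ (3 * g) := by
          rw [hTR]
          apply Nat.mul_le_mul hmm2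
          exact (Nat.pow_le_pow_left hQ2 _).trans (Nat.pow_le_pow_right hQ.le (by omega))
      _ ≤ n * n := Nat.mul_le_mul_left _ hg1
      _ = n ^ 2 := (sq n).symm
  let P : (Fin mm → (dom (Kq q + 4 * Rq q) (q * (2 * g)) → Fin (Rq q))) → List ℕ := fun A =>
    L A ++ List.replicate (n - (L A).length) 1
  let E : (Fin mm → (dom (Kq q + 4 * Rq q) (q * (2 * g)) → Fin (Rq q))) → Set Ω := fun A =>
    {ω | (LIS (P A) : ℝ) ≤ Y * (𝒜 ω).out (P A)}
  have hEmeas : ∀ A, MeasurableSet (E A) := by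
    intro A
    exact (hmeas (P A)) (MeasurableSet.of_discrete (s := {k : ℕ | (LIS (P A) : ℝ) ≤ Y * (k : ℝ)}))
  have hne : Nonempty (Fin mm → (dom (Kq q + 4 * Rq q) (q * (2 * g)) → Fin (Rq q))) :=
    ⟨fun _ => a0⟩
  obtain ⟨A, hA⟩ := avg μ E hEmeas Y⁻¹ (by
    intro ω
    have h1 := det_success2 hq (show 1 ≤ g by omega) hsa hsb hmm1 hY1 hYY hp hY2 (𝒜 ω) a0
      (fun A => n - (L A).length)
    refine h1.trans (le_of_eq ?_)
    congr 1
    rw [Fintype.card_fun, Fintype.card_fin, Fintype.card_fun, Fintype.card_fin]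
    push_cast
    rfl)
  refine ⟨P A, ?_, ?_, ?_⟩
  · change (L A ++ List.replicate (n - (L A).length) 1).length = n
    rw [List.length_append, List.length_replicate]
    have := hLlen A
    omega
  · intro v hv
    rcases List.mem_append.1 hv with h1 | h1
    · exact ⟨cat_pos _ _ _ v h1, (cat_val (hlt A) _ _ v h1).trans hwid⟩
    · rw [List.eq_of_mem_replicate h1]
      exact ⟨le_refl _, Nat.one_le_pow _ _ (Nat.pos_of_ne_zero hn0)⟩
  · rw [Real.rpow_neg (by positivity)]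
    exact hA

end H40.LS
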