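import Pool.Agent.H40.LS.Cat

/-!
# The length of a linked subsequence of a concatenation of copies
-/

namespace H40.LS

variable {K R : ℕ} {s : ℕ}

/-- The stored elements of a copy, as a function of the prefix of the copy. -/
noncomputable def SS (K R h : ℕ) (M : PassMemory s) (κ c i0 : ℕ) (q : M.Q) (l' : List ℕ) :
    Finset (ℕ × ℕ) :=
  (M.mem (run (M.step κ) i0 q (l'.map (· + c * wid K R h)))).image fun a =>
    (l'.getD (a - i0) 0, 0)

theorem SS_card (h : ℕ) (M : PassMemory s) (κ c i0 : ℕ) (q : M.Q) (l' : List ℕ) :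
    (SS K R h M κ c i0 q l').card ≤ s :=
  Finset.card_image_le.trans (M.mem_card _)

/-- The number of stored low elements of the copy `c` in the first `i` ticks. -/
noncomputable def cumc (K R h b u : ℕ) (M : PassMemory s) (κ : ℕ) (q0 : M.Q)
    (Af : ℕ → List ℕ → ℕ) (c i : ℕ) : ℕ :=
  cum K R b u (SS K R h M κ c (cat K R h Af c).length (run (M.step κ) 0 q0 (cat K R h Af c)))
    (Af c) (times (K + 4 * R) h) i

theorem cumc_mono (h b u : ℕ) (M : PassMemory s) (κ : ℕ) (q0 : M.Q)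
    (Af : ℕ → List ℕ → ℕ) (c : ℕ) {i i' : ℕ} (hi : i ≤ i') :
    cumc K R h b u M κ q0 Af c i ≤ cumc K R h b u M κ q0 Af c i' :=
  cum_mono b u _ _ hi

theorem stored_cnt {h b u : ℕ} {M : PassMemory s} {κ : ℕ} {q0 : M.Q} {Af : ℕ → List ℕ → ℕ}
    (hA : ∀ c l, Af c l < R) {m a c i a' : ℕ} {y : List (ℕ × ℕ)} (hloc : Loc K R h Af m a c i y)
    (hb : bad K R (Af c) y < b) (hu : ph K R y < u) (l'' : List ℕ)
    (ha' : pos K R h Af c (i + 1) ≤ a')
    (hmem : a ∈ M.mem (run (M.step κ) 0 q0 ((cat K R h Af m ++ l'').take a'))) :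
    cumc K R h b u M κ q0 Af c i + 1 ≤ cumc K R h b u M κ q0 Af c (i + 1) := by
  classical
  obtain ⟨hc, hi, hy, hlt, hge, hval, -⟩ := hloc
  have h1 : (cat K R h Af m ++ l'').take a' = (cat K R h Af m ++ l'').take (pos K R h Af c (i + 1))
      ++ ((cat K R h Af m ++ l'').take a').drop (pos K R h Af c (i + 1)) := by
    conv_lhs => rw [← List.take_append_drop (pos K R h Af c (i + 1))
      ((cat K R h Af m ++ l'').take a')]
    rw [List.take_take, min_eq_left ha']
  have hlen : ((cat K R h Af m ++ l'').take (pos K R h Af c (i + 1))).length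
      = pos K R h Af c (i + 1) := by
    rw [List.length_take, List.length_append]
    have h2 := pos_le_cat (K := K) (R := R) h Af c (i + 1)
    have h3 := (cat_prefix (K := K) (R := R) h Af (show c + 1 ≤ m by omega)).length_le
    omega
  rw [h1, run_append] at hmem
  have hmem2 : a ∈ M.mem (run (M.step κ) 0 q0
      ((cat K R h Af m ++ l'').take (pos K R h Af c (i + 1)))) := by
    rcases mem_run M κ _ _ _ a hmem with h4 | h4
    · exact h4
    · rw [hlen] at h4
      omega
  rw [take_pos h Af hc, run_append, zero_add] at hmem2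
  have hpair : (val K R y, 0) ∈ SS K R h M κ c (cat K R h Af c).length
      (run (M.step κ) 0 q0 (cat K R h Af c))
      (str K R (Af c) ((times (K + 4 * R) h).take (i + 1))) := by
    unfold SS
    rw [Finset.mem_image]
    exact ⟨a, hmem2, by rw [hval]⟩
  obtain ⟨hy1, hy2⟩ := mem_tickAt hy
  have hτ := (mem_times.1 (List.getElem_mem hi)).2
  unfold cumc cum
  rw [Finset.sum_range_succ]
  apply Nat.add_le_add_left
  unfold cnt
  rw [Nat.one_le_iff_ne_zero, ← Nat.pos_iff_ne_zero, Finset.card_pos]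
  refine ⟨_, Finset.mem_filter.2 ⟨hpair, ?_⟩⟩
  refine ⟨y, ?_, fun e he => (Val.lt (fun l => hA c l) (hy2 hτ) e he).1, hb, hu, rfl⟩
  rw [hy1, List.getD_eq_getElem _ _ hi]

/-- A bound for the number of elements of a linked subsequence in one copy. -/
noncomputable def Fc (K R h b u p : ℕ) (z θ : ℝ) (M : PassMemory s) (qs : ℕ → M.Q)
    (Af : ℕ → List ℕ → ℕ) (c : ℕ) : ℝ :=
  open Classical in
  if ∃ κ < p, θ ≤ cumc K R h b u M κ (qs κ) Af c (times (K + 4 * R) h).length then
    ((K : ℝ) + 3 * R) ^ h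
  else ((K : ℝ) + 3 * R) ^ h / z ^ b + ((K : ℝ) + 6 * R) ^ h / 2 ^ u + p * θ

/-- The invariant. -/
def Inv (K R h b u p : ℕ) (z θ : ℝ) (M : PassMemory s) (qs : ℕ → M.Q)
    (Af : ℕ → List ℕ → ℕ) (k c i : ℕ) (y : List (ℕ × ℕ)) : Prop :=
  ∃ n0 n1 n2 n3 : ℕ, (k : ℝ) ≤ ∑ c' ∈ Finset.range c, Fc K R h b u p z θ M qs Af c' + n0 + 1 ∧
    n0 ≤ n1 + n2 + n3 ∧ (n0 : ℝ) + 1 ≤ Ps K R 1 1 (Af c) y ∧
    (n1 : ℝ) * z ^ b + wt K R 1 z (Af c) y ≤ Ps K R 1 z (Af c) y ∧
    (n2 : ℝ) * 2 ^ u + wt K R 2 1 (Af c) y ≤ Ps K R 2 1 (Af c) y ∧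
    n3 ≤ ∑ κ ∈ Finset.range p, cumc K R h b u M κ (qs κ) Af c i

theorem Fc_nonneg {h b u p : ℕ} {z θ : ℝ} (hz : 1 ≤ z) (hθ : 0 ≤ θ) (M : PassMemory s)
    (qs : ℕ → M.Q) (Af : ℕ → List ℕ → ℕ) (c : ℕ) : 0 ≤ Fc K R h b u p z θ M qs Af c := by
  unfold Fc
  split_ifs <;> positivity

/-- If `n0` elements are bounded in the two ways then `n0` is at most `Fc`. -/
theorem le_Fc {h b u p : ℕ} {z θ : ℝ} (hz : 1 ≤ z) (hθ : 0 ≤ θ) (M : PassMemory s)
    (qs : ℕ → M.Q) (Af : ℕ → List ℕ → ℕ) (c : ℕ) {n0 n1 n2 n3 : ℕ}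
    (h0 : (n0 : ℝ) ≤ ((K : ℝ) + 3 * R) ^ h) (h1 : n0 ≤ n1 + n2 + n3)
    (h2 : (n1 : ℝ) * z ^ b ≤ ((K : ℝ) + 3 * R) ^ h)
    (h3 : (n2 : ℝ) * 2 ^ u ≤ ((K : ℝ) + 6 * R) ^ h)
    (h4 : n3 ≤ ∑ κ ∈ Finset.range p, cumc K R h b u M κ (qs κ) Af c (times (K + 4 * R) h).length) :
    (n0 : ℝ) ≤ Fc K R h b u p z θ M qs Af c := by
  unfold Fc
  split_ifs with hbad
  · exact h0
  · push Not at hbad
    have hzb : (0 : ℝ) < z ^ b := by positivity
    have e1 : (n1 : ℝ) ≤ ((K : ℝ) + 3 * R) ^ h / z ^ b := by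
      rwa [le_div_iff₀ hzb]
    have e2 : (n2 : ℝ) ≤ ((K : ℝ) + 6 * R) ^ h / 2 ^ u := by
      rwa [le_div_iff₀ (by positivity)]
    have e3 : (n3 : ℝ) ≤ p * θ := by
      have e4 : (n3 : ℝ) ≤ ∑ κ ∈ Finset.range p,
          (cumc K R h b u M κ (qs κ) Af c (times (K + 4 * R) h).length : ℝ) := by
        exact_mod_cast h4
      refine e4.trans ?_
      calc ∑ κ ∈ Finset.range p,
          (cumc K R h b u M κ (qs κ) Af c (times (K + 4 * R) h).length : ℝ)
          ≤ ∑ κ ∈ Finset.range p, θ := by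
            apply Finset.sum_le_sum
            intro κ hκ
            exact (hbad κ (Finset.mem_range.1 hκ)).le
        _ = p * θ := by
            rw [Finset.sum_const, Finset.card_range, nsmul_eq_mul]
    have e5 : (n0 : ℝ) ≤ n1 + n2 + n3 := by exact_mod_cast h1
    linarith

theorem par11 {z : ℝ} (h1 : Par K R 1 z) : Par K R 1 1 :=
  ⟨h1.hR, h1.hK, le_refl _, by norm_num, le_refl _, by norm_num⟩

/-- The first element of a linked subsequence. -/
theorem inv_one {h b u p : ℕ} {z θ : ℝ} (h1 : Par K R 1 z) (h2 : Par K R 2 1) (hθ : 0 ≤ θ)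
    {M : PassMemory s} {qs : ℕ → M.Q} {Af : ℕ → List ℕ → ℕ} (hA : ∀ c l, Af c l < R)
    {m a c i : ℕ} {y : List (ℕ × ℕ)} (hloc : Loc K R h Af m a c i y) {k : ℕ} (hk : (k : ℝ) ≤
      ∑ c' ∈ Finset.range c, Fc K R h b u p z θ M qs Af c' + 1) :
    Inv K R h b u p z θ M qs Af k c i y := by
  have hyV := (mem_tickAt hloc.hy).2 (mem_times.1 (List.getElem_mem hloc.hi)).2
  have b0 := pot_bd (par11 h1) (fun l => hA c l) hyV
  have b1 := pot_bd h1 (fun l => hA c l) hyV
  have b2 := pot_bd h2 (fun l => hA c l) hyV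
  refine ⟨0, 0, 0, 0, ?_, le_refl _, ?_, ?_, ?_, Nat.zero_le _⟩
  · rw [Nat.cast_zero, add_zero]
    exact hk
  · rw [Nat.cast_zero, zero_add]
    linarith [b0.1, b0.2.1]
  · rw [Nat.cast_zero, zero_mul, zero_add]
    exact b1.2.1
  · rw [Nat.cast_zero, zero_mul, zero_add]
    exact b2.2.1

/-- A stored element is counted. -/
theorem inv_count {h b u p : ℕ} {z θ : ℝ} (h1 : Par K R 1 z)
    {M : PassMemory s} {qs : ℕ → M.Q} {Af : ℕ → List ℕ → ℕ} (hA : ∀ c l, Af c l < R)
    {m a c i : ℕ} {y : List (ℕ × ℕ)} (hloc : Loc K R h Af m a c i y) {k : ℕ}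
    (hinv : Inv K R h b u p z θ M qs Af k c i y) (l'' : List ℕ) {a' κ : ℕ} (hκ : κ < p)
    (ha' : pos K R h Af c (i + 1) ≤ a')
    (hmem : a ∈ M.mem (run (M.step κ) 0 (qs κ) ((cat K R h Af m ++ l'').take a'))) :
    ∃ n0 n1 n2 n3 : ℕ, (k : ℝ) ≤ ∑ c' ∈ Finset.range c, Fc K R h b u p z θ M qs Af c' + n0 ∧
      n0 ≤ n1 + n2 + n3 ∧ (n0 : ℝ) ≤ Ps K R 1 1 (Af c) y ∧
      (n1 : ℝ) * z ^ b ≤ Ps K R 1 z (Af c) y ∧ (n2 : ℝ) * 2 ^ u ≤ Ps K R 2 1 (Af c) y ∧
      n3 ≤ ∑ κ ∈ Finset.range p, cumc K R h b u M κ (qs κ) Af c (i + 1) := by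
  obtain ⟨n0, n1, n2, n3, e1, e2, e3, e4, e5, e6⟩ := hinv
  have hz1 : (1 : ℝ) ≤ z := h1.hz1
  rw [wt_z] at e4
  rw [wt_y] at e5
  have hmono : ∑ κ ∈ Finset.range p, cumc K R h b u M κ (qs κ) Af c i
      ≤ ∑ κ ∈ Finset.range p, cumc K R h b u M κ (qs κ) Af c (i + 1) :=
    Finset.sum_le_sum fun κ _ => cumc_mono h b u M κ (qs κ) Af c (Nat.le_succ i)
  have hw1 : (0 : ℝ) ≤ z ^ bad K R (Af c) y := by positivity
  have hw2 : (0 : ℝ) ≤ 2 ^ ph K R y := by positivity
  have e1' : (k : ℝ) ≤ ∑ c' ∈ Finset.range c, Fc K R h b u p z θ M qs Af c' + (n0 + 1 : ℕ) := by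
    push_cast
    linarith
  have e3' : ((n0 + 1 : ℕ) : ℝ) ≤ Ps K R 1 1 (Af c) y := by
    push_cast
    exact e3
  by_cases hbad : b ≤ bad K R (Af c) y
  · have h5 : z ^ b ≤ z ^ bad K R (Af c) y := pow_le_pow_right₀ hz1 hbad
    refine ⟨n0 + 1, n1 + 1, n2, n3, e1', by omega, e3', ?_, by linarith, by omega⟩
    push_cast
    linarith
  · by_cases hph : u ≤ ph K R y
    · have h5 : (2 : ℝ) ^ u ≤ 2 ^ ph K R y := pow_le_pow_right₀ (by norm_num) hph
      refine ⟨n0 + 1, n1, n2 + 1, n3, e1', by omega, e3', by linarith, ?_, by omega⟩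
      push_cast
      linarith
    · refine ⟨n0 + 1, n1, n2, n3 + 1, e1', by omega, e3', by linarith, by linarith, ?_⟩
      have h6 : ∑ κ ∈ Finset.range p, cumc K R h b u M κ (qs κ) Af c i
          < ∑ κ ∈ Finset.range p, cumc K R h b u M κ (qs κ) Af c (i + 1) := by
        apply Finset.sum_lt_sum
        · exact fun κ _ => cumc_mono h b u M κ (qs κ) Af c (Nat.le_succ i)
        · exact ⟨κ, Finset.mem_range.2 hκ, stored_cnt hA hloc (by omega) (by omega) l'' ha' hmem⟩
      omega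

theorem inv_link {h b u p : ℕ} {z θ : ℝ} (h1 : Par K R 1 z) (h2 : Par K R 2 1) (hθ : 0 ≤ θ)
    {M : PassMemory s} {qs : ℕ → M.Q} {Af : ℕ → List ℕ → ℕ} (hA : ∀ c l, Af c l < R)
    {m a c i : ℕ} {y : List (ℕ × ℕ)} (hloc : Loc K R h Af m a c i y) {k : ℕ}
    (hinv : Inv K R h b u p z θ M qs Af k c i y) (l'' : List ℕ) {a' κ : ℕ} (hκ : κ < p)
    {c' i' : ℕ} {y' : List (ℕ × ℕ)} (hloc' : Loc K R h Af m a' c' i' y') (haa : a < a')
    (hval : val K R y + c * wid K R h < val K R y' + c' * wid K R h)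
    (hmem : a ∈ M.mem (run (M.step κ) 0 (qs κ) ((cat K R h Af m ++ l'').take a'))) :
    Inv K R h b u p z θ M qs Af (k + 1) c' i' y' := by
  have hz1 : (1 : ℝ) ≤ z := h1.hz1
  have hyt := mem_tickAt hloc.hy
  have hyt' := mem_tickAt hloc'.hy
  have ht := mem_times.1 (List.getElem_mem hloc.hi)
  have ht' := mem_times.1 (List.getElem_mem hloc'.hi)
  have hyV := hyt.2 ht.2
  have hyV' := hyt'.2 ht'.2
  have b0 := pot_bd (par11 h1) (fun l => hA c l) hyV
  have b1 := pot_bd h1 (fun l => hA c l) hyV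
  have b2 := pot_bd h2 (fun l => hA c l) hyV
  have hyl : y.length = h := by rw [← tm_length, hyt.1, ht.1]
  have hyl' : y'.length = h := by rw [← tm_length, hyt'.1, ht'.1]
  -- the copies are in order
  have hcc : c ≤ c' := by
    by_contra hcon
    have e1 : pos K R h Af c' (i' + 1) ≤ pos K R h Af c i :=
      (pos_le_cat h Af c' (i' + 1)).trans (cat_le_pos h Af (by omega) i)
    have := hloc'.hlt
    have := hloc.hge
    omega
  rcases Nat.lt_or_ge c c' with hlt | hge
  · -- a later copy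
    have ha' : pos K R h Af c (i + 1) ≤ a' :=
      ((pos_le_cat h Af c (i + 1)).trans (cat_le_pos h Af hlt i')).trans hloc'.hge
    obtain ⟨n0, n1, n2, n3, e1, e2, e3, e4, e5, e6⟩ := inv_count h1 hA hloc hinv l'' hκ ha' hmem
    apply inv_one h1 h2 hθ hA hloc'
    rw [hyl] at b0 b1 b2
    have f1 : (n0 : ℝ) ≤ Fc K R h b u p z θ M qs Af c := by
      apply le_Fc hz1 hθ M qs Af c (n1 := n1) (n2 := n2) (n3 := n3)
      · calc (n0 : ℝ) ≤ _ := e3
          _ ≤ _ := b0.2.2
          _ = _ := by rw [mul_one]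
      · exact e2
      · calc (n1 : ℝ) * z ^ b ≤ _ := e4
          _ ≤ _ := b1.2.2
          _ = _ := by rw [mul_one]
      · calc (n2 : ℝ) * 2 ^ u ≤ _ := e5
          _ ≤ _ := b2.2.2
          _ = _ := by
            congr 1
            ring
      · refine e6.trans (Finset.sum_le_sum fun κ _ => cumc_mono h b u M κ (qs κ) Af c ?_)
        exact hloc.hi
    have f2 : ∑ c'' ∈ Finset.range (c + 1), Fc K R h b u p z θ M qs Af c''
        ≤ ∑ c'' ∈ Finset.range c', Fc K R h b u p z θ M qs Af c'' := by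
      apply Finset.sum_le_sum_of_subset_of_nonneg
      · exact Finset.range_subset_range.2 hlt
      · intro c'' _ _
        exact Fc_nonneg hz1 hθ M qs Af c''
    rw [Finset.sum_range_succ] at f2
    push_cast
    linarith
  · -- the same copy
    have hc : c = c' := le_antisymm hcc hge
    subst hc
    have hii : i < i' := by
      rcases lt_trichotomy i i' with e1 | e1 | e1
      · exact e1
      · exfalso
        subst e1
        -- the same block, which is decreasing
        have hs := blk_sorted (K := K) (R := R) (fun l => hA c l) ht.2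
        have e2 := hloc.hblk
        have e3 := hloc'.hblk
        have e4 := hloc.hge
        have e5 := hloc'.hlt
        have hi0 := hloc.hi
        rw [pos_succ h Af c hloc.hi] at e5
        have e6 : a' - pos K R h Af c i < (blk K R (Af c) (times (K + 4 * R) h)[i]).length := by
          omega
        have e7 : a - pos K R h Af c i < (blk K R (Af c) (times (K + 4 * R) h)[i]).length := by
          omega
        rw [List.getD_eq_getElem _ _ e7] at e2
        rw [List.getD_eq_getElem _ _ e6] at e3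
        have e8 := List.pairwise_iff_getElem.1 hs _ _ e7 e6 (by omega)
        rw [e2, e3] at e8
        omega
      · exfalso
        have e2 : pos K R h Af c (i' + 1) ≤ pos K R h Af c i := pos_le_right h Af c e1
        have := hloc'.hlt
        have := hloc.hge
        omega
    have ha' : pos K R h Af c (i + 1) ≤ a' :=
      (pos_le_right h Af c hii).trans hloc'.hge
    obtain ⟨n0, n1, n2, n3, e1, e2, e3, e4, e5, e6⟩ := inv_count h1 hA hloc hinv l'' hκ ha' hmem
    have htlt : tlt (tm y) (tm y') := by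
      rw [hyt.1, hyt'.1]
      exact List.pairwise_iff_getElem.1 (times_sorted (K + 4 * R) h) i i' hloc.hi hloc'.hi hii
    have hcode : code (K + 4 * R) (2 * R * (K + 4 * R)) y
        < code (K + 4 * R) (2 * R * (K + 4 * R)) y' := by
      unfold val at hval
      omega
    have hyy : y.length = y'.length := by rw [hyl, hyl']
    have p0 := (pot (par11 h1) (fun l => hA c l) hyV hyV' hyy htlt).2 hcode
    have p1 := (pot h1 (fun l => hA c l) hyV hyV' hyy htlt).2 hcode
    have p2 := (pot h2 (fun l => hA c l) hyV hyV' hyy htlt).2 hcode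
    have w0 : wt K R 1 1 (Af c) y' = 1 := by
      rw [wt_z, one_pow]
    refine ⟨n0, n1, n2, n3, ?_, e2, ?_, by linarith, by linarith, ?_⟩
    · push_cast
      linarith
    · linarith
    · exact e6.trans (Finset.sum_le_sum fun κ _ => cumc_mono h b u M κ (qs κ) Af c hii)

theorem cat_pos (h : ℕ) (Af : ℕ → List ℕ → ℕ) (m : ℕ) : ∀ v ∈ cat K R h Af m, 1 ≤ v := by
  intro v hv
  unfold cat at hv
  obtain ⟨c, -, h1⟩ := List.mem_flatMap.1 hv
  unfold copy at h1
  obtain ⟨w, hw, rfl⟩ := List.mem_map.1 h1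
  have := str_pos _ _ w hw
  omega

/-- **The length of a linked subsequence.** -/
theorem linked_le {h b u p : ℕ} {z θ : ℝ} (h1 : Par K R 1 z) (h2 : Par K R 2 1) (hθ : 0 ≤ θ)
    {M : PassMemory s} {Af : ℕ → List ℕ → ℕ} (hA : ∀ c l, Af c l < R) (m r : ℕ)
    {k a : ℕ} (hlink : PLinked M p (cat K R h Af m ++ List.replicate r 1) k a) :
    (k : ℝ) ≤ ∑ c ∈ Finset.range m, Fc K R h b u p z θ M
      (M.passStart (cat K R h Af m ++ List.replicate r 1)) Af c + 1 := by
  have hz1 : (1 : ℝ) ≤ z := h1.hz1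
  set l := cat K R h Af m ++ List.replicate r 1 with hl
  have key : ∀ k a, PLinked M p l k a → ((cat K R h Af m).length ≤ a ∧ k ≤ 1) ∨
      (a < (cat K R h Af m).length ∧ ∀ c i y, Loc K R h Af m a c i y →
        (cat K R h Af m).getD a 0 = val K R y + c * wid K R h →
        Inv K R h b u p z θ M (M.passStart l) Af k c i y) := by
    intro k a hka
    induction hka with
    | one j hj =>
      by_cases hjm : j < (cat K R h Af m).length
      · right
        refine ⟨hjm, fun c i y hloc _ => ?_⟩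
        apply inv_one h1 h2 hθ hA hloc
        have : 0 ≤ ∑ c' ∈ Finset.range c, Fc K R h b u p z θ M (M.passStart l) Af c' :=
          Finset.sum_nonneg fun c' _ => Fc_nonneg hz1 hθ M _ Af c'
        push_cast
        linarith
      · exact Or.inl ⟨by omega, le_refl _⟩
    | step k i j κ hki hij hj hlt hκ hmem ih =>
      by_cases hjm : j < (cat K R h Af m).length
      · right
        refine ⟨hjm, fun c' i' y' hloc' hv' => ?_⟩
        rcases ih with ⟨h3, -⟩ | ⟨h3, h4⟩
        · omega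
        · obtain ⟨c, i0, y, hloc, hv⟩ := exists_loc h Af m i h3
          refine inv_link h1 h2 hθ hA hloc (h4 c i0 y hloc hv) (List.replicate r 1) hκ hloc' hij
            ?_ hmem
          rw [hl, List.getD_append _ _ _ _ h3, List.getD_append _ _ _ _ hjm, hv, hv'] at hlt
          exact hlt
      · exfalso
        have h3 : l.getD j 0 = 1 := by
          rw [hl, List.getD_append_right _ _ _ _ (by omega)]
          rw [hl, List.length_append, List.length_replicate] at hj
          rw [List.getD_eq_getElem _ _ (by rw [List.length_replicate]; omega)]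
          exact List.getElem_replicate _
        have h4 : 1 ≤ l.getD i 0 := by
          have hi : i < l.length := by omega
          rw [List.getD_eq_getElem _ _ hi]
          have h5 : ∀ v ∈ l, 1 ≤ v := by
            intro v hv
            rw [hl] at hv
            rcases List.mem_append.1 hv with h6 | h6
            · exact cat_pos h Af m _ h6
            · exact (List.eq_of_mem_replicate h6).ge
          exact h5 _ (List.getElem_mem hi)
        omega
  have hnn : ∀ c, 0 ≤ Fc K R h b u p z θ M (M.passStart l) Af c :=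
    fun c => Fc_nonneg hz1 hθ M _ Af c
  have hsum0 : 0 ≤ ∑ c ∈ Finset.range m, Fc K R h b u p z θ M (M.passStart l) Af c :=
    Finset.sum_nonneg fun c _ => hnn c
  rcases key k a hlink with ⟨-, h3⟩ | ⟨h3, h4⟩
  · have : (k : ℝ) ≤ 1 := by exact_mod_cast h3
    linarith
  · obtain ⟨c, i, y, hloc, hv⟩ := exists_loc h Af m a h3
    obtain ⟨n0, n1, n2, n3, e1, e2, e3, e4, e5, e6⟩ := h4 c i y hloc hv
    have hyt := mem_tickAt hloc.hy
    have ht := mem_times.1 (List.getElem_mem hloc.hi)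
    have hyV := hyt.2 ht.2
    have b0 := pot_bd (par11 h1) (fun l => hA c l) hyV
    have b1 := pot_bd h1 (fun l => hA c l) hyV
    have b2 := pot_bd h2 (fun l => hA c l) hyV
    have hyl : y.length = h := by rw [← tm_length, hyt.1, ht.1]
    rw [hyl] at b0 b1 b2
    have f1 : (n0 : ℝ) ≤ Fc K R h b u p z θ M (M.passStart l) Af c := by
      apply le_Fc hz1 hθ M _ Af c (n1 := n1) (n2 := n2) (n3 := n3)
      · calc (n0 : ℝ) ≤ Ps K R 1 1 (Af c) y := by linarith
          _ ≤ _ := b0.2.2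
          _ = _ := by rw [mul_one]
      · exact e2
      · calc (n1 : ℝ) * z ^ b ≤ Ps K R 1 z (Af c) y := by linarith [b1.1]
          _ ≤ _ := b1.2.2
          _ = _ := by rw [mul_one]
      · calc (n2 : ℝ) * 2 ^ u ≤ Ps K R 2 1 (Af c) y := by linarith [b2.1]
          _ ≤ _ := b2.2.2
          _ = _ := by
            congr 1
            ring
      · refine e6.trans (Finset.sum_le_sum fun κ _ => cumc_mono h b u M κ _ Af c ?_)
        exact hloc.hi.le
    have f2 : ∑ c'' ∈ Finset.range (c + 1), Fc K R h b u p z θ M (M.passStart l) Af c''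
        ≤ ∑ c'' ∈ Finset.range m, Fc K R h b u p z θ M (M.passStart l) Af c'' := by
      apply Finset.sum_le_sum_of_subset_of_nonneg
      · exact Finset.range_subset_range.2 hloc.hc
      · intro c'' _ _
        exact hnn c''
    rw [Finset.sum_range_succ] at f2
    linarith

end H40.LS
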