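import Pool.Agent.H40.LS.Num

/-!
# Numbers for the version with several passes
-/

namespace H40.LS

theorem num_parts {q g n s : ℕ} (hq : 3 ≤ q) (hs : s ^ (2 * q) ≤ n ^ (q - 3))
    (hn : n ≤ Gr q ^ (g + 1)) :
    (((Kq q : ℝ) + 3 * Rq q) ^ (q * g) / zq q ^ g
      ≤ xq q ^ g * ((Kq q : ℝ) + 3 * Rq q) ^ (q * g)) ∧
    (((Kq q : ℝ) + 6 * Rq q) ^ (q * g) / 2 ^ g
      ≤ xq q ^ g * ((Kq q : ℝ) + 3 * Rq q) ^ (q * g)) ∧
    ((Kq q : ℝ) + 4 * Rq q) ^ (q * g) * (s * (2 ^ (q * g) * (Rq q : ℝ) ^ (g + g)))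
        / (Rq q : ℝ) ^ (q * g)
      ≤ Gr q * xq q ^ g * ((Kq q : ℝ) + 3 * Rq q) ^ (q * g) := by
  have hR : (1 : ℝ) ≤ Rq q := by exact_mod_cast Rq_pos q
  have hR0 : (0 : ℝ) < Rq q := by linarith
  have hKq : (Kq q : ℝ) = 9 * q * Rq q := by
    unfold Kq
    push_cast
    ring
  have hq1 : (3 : ℝ) ≤ q := by exact_mod_cast hq
  have hx1 := xq_ge q
  have hz : (zq q)⁻¹ ≤ xq q := le_max_left _ _
  have hz1 : 1 ≤ zq q := (parz hq).hz1
  have hQ0 : (0 : ℝ) ≤ Gr q := Nat.cast_nonneg _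
  have hns := num_s hq hs hn
  have hns' : (s : ℝ) * 4 ^ (q * g) * (Rq q : ℝ) ^ (g + g) * 4 ^ g
      ≤ Gr q * (Rq q : ℝ) ^ (q * g) := by exact_mod_cast hns
  rw [hKq]
  generalize (Rq q : ℝ) = R at *
  generalize (Gr q : ℝ) = Q at *
  generalize zq q = z at *
  generalize xq q = ξ at *
  have hN0 : (0 : ℝ) < (9 * q * R + 3 * R) ^ (q * g) := by positivity
  have hx0 : (0 : ℝ) < ξ := by linarith
  -- first term
  have t1 : (9 * q * R + 3 * R) ^ (q * g) / z ^ g ≤ ξ ^ g * (9 * q * R + 3 * R) ^ (q * g) := by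
    rw [div_eq_mul_inv, ← inv_pow, mul_comm]
    exact mul_le_mul_of_nonneg_right (pow_le_pow_left₀ (by positivity) hz g) hN0.le
  -- second term
  have t2 : (9 * q * R + 6 * R) ^ (q * g) / 2 ^ g ≤ ξ ^ g * (9 * q * R + 3 * R) ^ (q * g) := by
    have h1 : (9 * q * R + 6 * R) ^ q ≤ 3 / 2 * (9 * q * R + 3 * R) ^ q := by
      have h2 := num2 hq
      have e1 : 9 * q * R + 6 * R = (9 * q + 6) * R := by ring
      have e2 : 9 * q * R + 3 * R = (9 * q + 3) * R := by ring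
      rw [e1, e2, mul_pow, mul_pow]
      have := mul_le_mul_of_nonneg_right h2 (show 0 ≤ R ^ q by positivity)
      linarith
    rw [pow_mul, pow_mul, div_le_iff₀ (by positivity)]
    calc ((9 * q * R + 6 * R) ^ q) ^ g ≤ (3 / 2 * (9 * q * R + 3 * R) ^ q) ^ g :=
          pow_le_pow_left₀ (by positivity) h1 g
      _ = (3 / 4) ^ g * ((9 * q * R + 3 * R) ^ q) ^ g * 2 ^ g := by
        rw [← mul_pow, ← mul_pow]
        congr 1
        ring
      _ ≤ _ := by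
        apply mul_le_mul_of_nonneg_right _ (by positivity)
        apply mul_le_mul_of_nonneg_right _ (by positivity)
        exact pow_le_pow_left₀ (by norm_num) hx1 g
  -- fourth term
  have t4 : (9 * q * R + 4 * R) ^ (q * g) * (s * (2 ^ (q * g) * R ^ (g + g))) / R ^ (q * g)
      ≤ Q * ξ ^ g * (9 * q * R + 3 * R) ^ (q * g) := by
    rw [div_le_iff₀ (by positivity)]
    have h1 : (9 * q * R + 4 * R) ^ (q * g) ≤ 2 ^ (q * g) * (9 * q * R + 3 * R) ^ (q * g) := by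
      rw [← mul_pow]
      apply pow_le_pow_left₀ (by positivity)
      nlinarith
    have h2 : s * 4 ^ (q * g) * R ^ (g + g) ≤ Q * ξ ^ g * R ^ (q * g) := by
      have h3 : (1 : ℝ) ≤ 4 ^ g * ξ ^ g := by
        rw [← mul_pow]
        exact one_le_pow₀ (by linarith)
      calc s * 4 ^ (q * g) * R ^ (g + g) ≤ s * 4 ^ (q * g) * R ^ (g + g) * (4 ^ g * ξ ^ g) :=
            le_mul_of_one_le_right (by positivity) h3
        _ = (s * 4 ^ (q * g) * R ^ (g + g) * 4 ^ g) * ξ ^ g := by ring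
        _ ≤ (Q * R ^ (q * g)) * ξ ^ g := mul_le_mul_of_nonneg_right hns' (by positivity)
        _ = _ := by ring
    calc (9 * q * R + 4 * R) ^ (q * g) * (s * (2 ^ (q * g) * R ^ (g + g)))
        ≤ 2 ^ (q * g) * (9 * q * R + 3 * R) ^ (q * g) * (s * (2 ^ (q * g) * R ^ (g + g))) :=
          mul_le_mul_of_nonneg_right h1 (by positivity)
      _ = (9 * q * R + 3 * R) ^ (q * g) * (s * 4 ^ (q * g) * R ^ (g + g)) := by
        have : (4 : ℝ) ^ (q * g) = 2 ^ (q * g) * 2 ^ (q * g) := by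
          rw [← mul_pow]
          norm_num
        rw [this]
        ring
      _ ≤ (9 * q * R + 3 * R) ^ (q * g) * (Q * ξ ^ g * R ^ (q * g)) :=
        mul_le_mul_of_nonneg_left h2 hN0.le
      _ = _ := by ring
  exact ⟨t1, t2, t4⟩


theorem two_pow_le (q : ℕ) : 2 ^ q ≤ Gr q := by
  unfold Gr
  apply Nat.pow_le_pow_left
  have : 1 ≤ Rq q ^ 2 := Nat.one_le_pow _ _ (Rq_pos q)
  nlinarith

/-- The number of bits, first estimate. -/
theorem num_a {q g s n : ℕ} (hq : 4 ≤ q) (hg : q ≤ g) (hs : s ^ (6 * q) ≤ n ^ (2 * q - 8))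
    (hn : n ≤ Gr q ^ (3 * (g + 1))) : s ^ (2 * q) ≤ Gr q ^ ((g + 1) * (2 * q - 8)) ∧
      s ^ (2 * q) ≤ (Gr q ^ (2 * g + 1)) ^ (q - 3) := by
  have hG : 1 ≤ Gr q := le_trans (Nat.one_le_pow _ _ (by norm_num)) (two_pow_le q)
  have h1 : s ^ (2 * q) ≤ Gr q ^ ((g + 1) * (2 * q - 8)) := by
    have h2 : (s ^ (2 * q)) ^ 3 ≤ (Gr q ^ ((g + 1) * (2 * q - 8))) ^ 3 := by
      calc (s ^ (2 * q)) ^ 3 = s ^ (6 * q) := by
            rw [← pow_mul]
            congr 1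
            ring
        _ ≤ n ^ (2 * q - 8) := hs
        _ ≤ (Gr q ^ (3 * (g + 1))) ^ (2 * q - 8) := Nat.pow_le_pow_left hn _
        _ = _ := by
            rw [← pow_mul, ← pow_mul]
            congr 1
            ring
    exact (Nat.pow_le_pow_iff_left (by norm_num)).1 h2
  refine ⟨h1, h1.trans ?_⟩
  rw [← pow_mul]
  apply Nat.pow_le_pow_right hG
  obtain ⟨m, rfl⟩ := Nat.exists_eq_add_of_le' hq
  have e1 : 2 * (m + 4) - 8 = 2 * m := by omega
  have e2 : m + 4 - 3 = m + 1 := by omega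
  rw [e1, e2]
  nlinarith

/-- The number of bits, second estimate. -/
theorem num_b {q g s : ℕ} (hq : 4 ≤ q) (hs : s ^ (2 * q) ≤ Gr q ^ ((g + 1) * (2 * q - 8))) :
    (s : ℝ) ≤ (Gr q : ℝ) ^ (g + 1) * xq q ^ g := by
  have hG : (1 : ℝ) ≤ Gr q := by
    exact_mod_cast le_trans (Nat.one_le_pow _ _ (by norm_num)) (two_pow_le q)
  have hx := xq_ge q
  have hx0 : 0 < xq q := by linarith
  have h1 : (s : ℝ) ^ (2 * q) ≤ (Gr q : ℝ) ^ ((g + 1) * (2 * q - 8)) := by exact_mod_cast hs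
  refine le_of_pow_le_pow_left₀ (n := 2 * q) (by omega) (by positivity) (h1.trans ?_)
  have h2 : (1 : ℝ) ≤ (Gr q : ℝ) ^ ((g + 1) * 8) * (xq q ^ g) ^ (2 * q) := by
    have h3 : (1 : ℝ) ≤ (Gr q : ℝ) * xq q ^ q := by
      have h4 : (2 : ℝ) ^ q ≤ Gr q := by exact_mod_cast two_pow_le q
      calc (1 : ℝ) ≤ (2 * xq q) ^ q := one_le_pow₀ (by linarith)
        _ = 2 ^ q * xq q ^ q := mul_pow _ _ _
        _ ≤ _ := mul_le_mul_of_nonneg_right h4 (by positivity)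
    have h5 : (Gr q : ℝ) ^ ((g + 1) * 8) * (xq q ^ g) ^ (2 * q)
        = ((Gr q : ℝ) * xq q ^ q) ^ (2 * g) * (Gr q : ℝ) ^ (6 * g + 8) := by
      rw [mul_pow, ← pow_mul, ← pow_mul]
      have e1 : (g + 1) * 8 = 2 * g + (6 * g + 8) := by ring
      have e2 : g * (2 * q) = q * (2 * g) := by ring
      rw [e1, e2, pow_add]
      ring
    rw [h5]
    exact one_le_mul_of_one_le_of_one_le (one_le_pow₀ h3) (one_le_pow₀ hG)
  calc (Gr q : ℝ) ^ ((g + 1) * (2 * q - 8))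
      ≤ (Gr q : ℝ) ^ ((g + 1) * (2 * q - 8)) *
        ((Gr q : ℝ) ^ ((g + 1) * 8) * (xq q ^ g) ^ (2 * q)) :=
        le_mul_of_one_le_right (by positivity) h2
    _ = ((Gr q : ℝ) ^ (g + 1) * xq q ^ g) ^ (2 * q) := by
        have e2 : (g + 1) * (2 * q - 8) + (g + 1) * 8 = (g + 1) * (2 * q) := by
          rw [← mul_add]
          congr 1
          omega
        rw [mul_pow, ← mul_assoc, ← pow_add, ← pow_mul (Gr q : ℝ), e2]

/-- The failure probability. -/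
theorem num_c {q g m s p Z0 : ℕ} {Y π : ℝ} (hq : 4 ≤ q) (hg : 1 ≤ g) (hm : Gr q ^ g ≤ m)
    (hY1 : 1 ≤ Y) (hY : Y * Y ≤ (4 / 3) ^ (g + 1)) (hp : (p : ℝ) ≤ Y) (hπ0 : 0 ≤ π)
    (hπ : π ≤ Gr q * xq q ^ g) (hZ : (s : ℝ) + (2 * Gr q + 1) * xq q ^ g * m ≤ Z0) :
    p * 2 ^ s * (1 + π) ^ m * Y ≤ 2 ^ Z0 := by
  have hx := xq_ge q
  have hx0 : 0 < xq q := by linarith
  have hG16 : (16 : ℝ) ≤ Gr q := by
    have h1 : 2 ^ 4 ≤ 2 ^ q := Nat.pow_le_pow_right (by norm_num) hq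
    have h2 := h1.trans (two_pow_le q)
    exact_mod_cast h2
  have hxm : (12 : ℝ) ^ g ≤ xq q ^ g * m := by
    calc (12 : ℝ) ^ g ≤ (xq q * Gr q) ^ g := by
          apply pow_le_pow_left₀ (by norm_num)
          nlinarith
      _ = xq q ^ g * (Gr q : ℝ) ^ g := mul_pow _ _ _
      _ ≤ _ := by
          apply mul_le_mul_of_nonneg_left _ (by positivity)
          exact_mod_cast hm
  -- `Y ^ 2 ≤ exp (ξ ^ g m / 2)`
  have h1 : Y * Y ≤ Real.exp (xq q ^ g * m / 2) := by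
    have h2 : (4 / 3 : ℝ) ^ (g + 1) ≤ 12 ^ g / 2 := by
      have h3 : (8 / 3 : ℝ) * (4 / 3) ^ g ≤ 12 ^ g := by
        calc (8 / 3 : ℝ) * (4 / 3) ^ g ≤ 9 ^ g * (4 / 3) ^ g := by
              apply mul_le_mul_of_nonneg_right _ (by positivity)
              calc (8 / 3 : ℝ) ≤ 9 := by norm_num
                _ ≤ 9 ^ g := le_self_pow₀ (by norm_num) (by omega)
          _ = 12 ^ g := by
              rw [← mul_pow]
              norm_num
      rw [pow_succ]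
      linarith
    calc Y * Y ≤ _ := hY
      _ ≤ 12 ^ g / 2 := h2
      _ ≤ xq q ^ g * m / 2 := by linarith
      _ ≤ xq q ^ g * m / 2 + 1 := by linarith
      _ ≤ _ := Real.add_one_le_exp _
  -- `(1 + π) ^ m ≤ exp (Q ξ ^ g m)`
  have h2 : (1 + π) ^ m ≤ Real.exp (Gr q * xq q ^ g * m) := by
    calc (1 + π) ^ m ≤ (Real.exp π) ^ m := by
          apply pow_le_pow_left₀ (by linarith)
          rw [add_comm]
          exact Real.add_one_le_exp _
      _ = Real.exp (m * π) := by rw [← Real.exp_nat_mul]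
      _ ≤ _ := by
          apply Real.exp_le_exp.2
          rw [mul_comm]
          exact mul_le_mul_of_nonneg_right hπ (Nat.cast_nonneg _)
  -- `2 ^ Z0`
  have hlog : (1 : ℝ) / 2 ≤ Real.log 2 := by
    have := Real.log_two_gt_d9
    linarith
  have h3 : (2 : ℝ) ^ s * Real.exp (Gr q * xq q ^ g * m + xq q ^ g * m / 2) ≤ 2 ^ Z0 := by
    have e1 : ∀ k : ℕ, (2 : ℝ) ^ k = Real.exp (k * Real.log 2) := by
      intro k
      rw [Real.exp_nat_mul, Real.exp_log (by norm_num)]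
    rw [e1, e1, ← Real.exp_add]
    apply Real.exp_le_exp.2
    have h4 : 0 ≤ (2 * Gr q + 1) * xq q ^ g * m := by positivity
    have h5 : ((s : ℝ) + (2 * Gr q + 1) * xq q ^ g * m) * Real.log 2 ≤ Z0 * Real.log 2 :=
      mul_le_mul_of_nonneg_right hZ (by linarith)
    nlinarith
  have hp0 : (0 : ℝ) ≤ p := Nat.cast_nonneg _
  calc p * 2 ^ s * (1 + π) ^ m * Y = (p * Y) * (2 ^ s * (1 + π) ^ m) := by ring
    _ ≤ (Y * Y) * (2 ^ s * (1 + π) ^ m) := by
        apply mul_le_mul_of_nonneg_right _ (by positivity)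
        exact mul_le_mul_of_nonneg_right hp (by linarith)
    _ ≤ Real.exp (xq q ^ g * m / 2) * (2 ^ s * Real.exp (Gr q * xq q ^ g * m)) := by
        apply mul_le_mul h1 _ (by positivity) (Real.exp_pos _).le
        exact mul_le_mul_of_nonneg_left h2 (by positivity)
    _ = 2 ^ s * Real.exp (Gr q * xq q ^ g * m + xq q ^ g * m / 2) := by
        rw [Real.exp_add]
        ring
    _ ≤ _ := h3

end H40.LS
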