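import Pool.Agent.H40.LS.Chern
import Pool.Agent.H40.LS.PNum
import Pool.Agent.H40.LS.Main

/-!
# Randomised algorithms with several passes
-/

open MeasureTheory

namespace H40.LS

variable {K R : ℕ}

theorem opt_sorted {A : List ℕ → ℕ} (hA : ∀ l, A l < R) (h : ℕ) :
    (((times (K + 4 * R) h).flatMap (optAt K R A)).map (val K R)).Pairwise (· < ·) := by
  rw [List.pairwise_map, List.pairwise_flatMap]
  constructor
  · intro τ _
    rcases optAt_cases (K := K) (R := R) τ A with h1 | ⟨x, h1⟩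
    · rw [h1]
      exact List.Pairwise.nil
    · rw [h1]
      exact List.pairwise_singleton _ _
  · refine List.Pairwise.imp_of_mem ?_ (times_sorted (K + 4 * R) h)
    intro τ τ' hτ hτ' ht x hx y hy
    obtain ⟨h1, h2⟩ := mem_times.1 hτ
    obtain ⟨h1', h2'⟩ := mem_times.1 hτ'
    have := optAt_lt hA h2 h2' (by rw [h1, h1']) ht x hx y hy
    unfold val
    omega

theorem opt_sub {A : List ℕ → ℕ} (hA : ∀ l, A l < R) (h : ℕ) :
    (((times (K + 4 * R) h).flatMap (optAt K R A)).map (val K R)).Sublist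
      (str K R A (times (K + 4 * R) h)) := by
  unfold str
  rw [List.map_flatMap]
  refine List.Sublist.flatMap_right _ fun τ _ => ?_
  exact (optAt_sublist τ A hA).map _

theorem le_LIS_cat {Af : ℕ → List ℕ → ℕ} (hA : ∀ c l, Af c l < R) (h m : ℕ) (l' : List ℕ) :
    m * (K + 3 * R) ^ h ≤ LIS (cat K R h Af m ++ l') := by
  unfold LIS
  have hbdd : BddAbove {k | ∃ t : List ℕ, t.Sublist (cat K R h Af m ++ l') ∧
      t.Pairwise (· < ·) ∧ t.length = k} := by
    refine ⟨(cat K R h Af m ++ l').length, ?_⟩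
    rintro k ⟨t, ht, -, rfl⟩
    exact ht.length_le
  refine le_csSup hbdd ⟨(List.range m).flatMap fun c =>
    (((times (K + 4 * R) h).flatMap (optAt K R (Af c))).map (val K R)).map
      (· + c * wid K R h), ?_, ?_, ?_⟩
  · refine List.Sublist.trans ?_ (List.sublist_append_left _ _)
    unfold cat
    refine List.Sublist.flatMap_right _ fun c _ => ?_
    unfold copy
    exact (opt_sub (hA c) h).map _
  · rw [List.pairwise_flatMap]
    constructor
    · intro c _
      rw [List.pairwise_map]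
      refine List.Pairwise.imp ?_ (opt_sorted (hA c) h)
      intro a b hab
      omega
    · refine List.Pairwise.imp ?_ (List.pairwise_lt_range (n := m))
      intro c c' hcc x hx y hy
      obtain ⟨v, hv, rfl⟩ := List.mem_map.1 hx
      obtain ⟨w, hw, rfl⟩ := List.mem_map.1 hy
      have h1 := val_le (K := K) (hA c) h v ((opt_sub (hA c) h).subset hv)
      have h2 := str_pos (K := K) (R := R) (Af c') _ w ((opt_sub (hA c') h).subset hw)
      change v ≤ wid K R h at h1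
      have h3 : (c + 1) * wid K R h ≤ c' * wid K R h := Nat.mul_le_mul_right _ hcc
      have h4 : (c + 1) * wid K R h = c * wid K R h + wid K R h := by ring
      omega
  · rw [List.length_flatMap]
    have h1 : (List.range m).map (fun c =>
        ((((times (K + 4 * R) h).flatMap (optAt K R (Af c))).map (val K R)).map
        (· + c * wid K R h)).length) = (List.range m).map fun _ => (K + 3 * R) ^ h := by
      apply List.map_congr_left
      intro c _
      rw [List.length_map, List.length_map, length_opt h (Af c) (hA c)]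
    rw [h1]
    simp

theorem length_cat (hR : 1 ≤ R) (Af : ℕ → List ℕ → ℕ) (h m : ℕ) :
    (cat K R h Af m).length ≤ m * ((K + 4 * R) * R) ^ h := by
  induction m with
  | zero => simp [cat]
  | succ m ih =>
    rw [cat_succ, List.length_append]
    have h1 := length_str (K := K) hR (Af m) h
    unfold copy
    rw [List.length_map]
    have h2 : (m + 1) * ((K + 4 * R) * R) ^ h = m * ((K + 4 * R) * R) ^ h
      + ((K + 4 * R) * R) ^ h := by ring
    omega

theorem cat_val {Af : ℕ → List ℕ → ℕ} (hA : ∀ c l, Af c l < R) (h m : ℕ) :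
    ∀ v ∈ cat K R h Af m, v ≤ m * wid K R h := by
  intro v hv
  unfold cat at hv
  obtain ⟨c, hc, h1⟩ := List.mem_flatMap.1 hv
  unfold copy at h1
  obtain ⟨w, hw, rfl⟩ := List.mem_map.1 h1
  have h2 := val_le (hA c) h w hw
  change w ≤ wid K R h at h2
  have h3 : (c + 1) * wid K R h ≤ m * wid K R h :=
    Nat.mul_le_mul_right _ (List.mem_range.1 hc)
  have h4 : (c + 1) * wid K R h = c * wid K R h + wid K R h := by ring
  change w + c * wid K R h ≤ _
  omega

/-- The sum of the bounds for the copies. -/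
theorem sum_Fc {s : ℕ} {h b u p : ℕ} {z θ : ℝ} (hz : 1 ≤ z) (hθ : 0 ≤ θ) (M : PassMemory s)
    (qs : ℕ → M.Q) (Af : ℕ → List ℕ → ℕ) (m : ℕ) :
    ∑ c ∈ Finset.range m, Fc K R h b u p z θ M qs Af c ≤
      m * (((K : ℝ) + 3 * R) ^ h / z ^ b + ((K : ℝ) + 6 * R) ^ h / 2 ^ u + p * θ)
      + ((K : ℝ) + 3 * R) ^ h * ∑ κ ∈ Finset.range p, (Zn K R h b u θ M κ (qs κ) Af m : ℝ) := by
  classical
  set G := ((K : ℝ) + 3 * R) ^ h / z ^ b + ((K : ℝ) + 6 * R) ^ h / 2 ^ u + p * θ with hG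
  have hG0 : 0 ≤ G := by
    rw [hG]
    positivity
  have hN0 : (0 : ℝ) ≤ ((K : ℝ) + 3 * R) ^ h := by positivity
  have h1 : ∀ c ∈ Finset.range m, Fc K R h b u p z θ M qs Af c ≤ G +
      ∑ κ ∈ Finset.range p, ((K : ℝ) + 3 * R) ^ h * (if θ ≤ cumc K R h b u M κ (qs κ) Af c
        (times (K + 4 * R) h).length then 1 else 0) := by
    intro c _
    unfold Fc
    have hnn : ∀ κ ∈ Finset.range p, (0 : ℝ) ≤ ((K : ℝ) + 3 * R) ^ h *
        (if θ ≤ cumc K R h b u M κ (qs κ) Af c (times (K + 4 * R) h).length then 1 else 0) := by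
      intro κ _
      apply mul_nonneg hN0
      split_ifs <;> norm_num
    split_ifs with hbad
    · obtain ⟨κ, hκ, h2⟩ := hbad
      have h3 := Finset.single_le_sum hnn (Finset.mem_range.2 hκ)
      rw [if_pos h2, mul_one] at h3
      linarith
    · have := Finset.sum_nonneg hnn
      linarith
  refine (Finset.sum_le_sum h1).trans (le_of_eq ?_)
  rw [Finset.sum_add_distrib, Finset.sum_const, Finset.card_range, nsmul_eq_mul,
    Finset.sum_comm, Finset.mul_sum]
  congr 1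
  apply Finset.sum_congr rfl
  intro κ _
  rw [← Finset.mul_sum]
  congr 1
  unfold Zn
  rw [Finset.sum_boole]

theorem det_success2 {q g m s p : ℕ} (hq : 4 ≤ q) (hg : 1 ≤ g)
    (hs1 : s ^ (2 * q) ≤ Gr q ^ ((g + 1) * (2 * q - 8)))
    (hs2 : s ^ (2 * q) ≤ (Gr q ^ (2 * g + 1)) ^ (q - 3)) (hm : Gr q ^ g ≤ m)
    {Y : ℝ} (hY1 : 1 ≤ Y) (hYY : Y * Y ≤ (4 / 3) ^ (g + 1)) (hp : (p : ℝ) ≤ Y)
    (hY2 : Y * Y * (3 * Gr q + 6) * xq q ^ g < 1) (𝒜 : PassAlg p s)
    (a0 : dom (Kq q + 4 * Rq q) (q * (2 * g)) → Fin (Rq q))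
    (r : (Fin m → (dom (Kq q + 4 * Rq q) (q * (2 * g)) → Fin (Rq q))) → ℕ) :
    ∑ A, Set.indicator {A : Fin m → (dom (Kq q + 4 * Rq q) (q * (2 * g)) → Fin (Rq q)) |
      (LIS (cat (Kq q) (Rq q) (q * (2 * g)) (fun c => ext (toF a0 A c)) m ++
        List.replicate (r A) 1) : ℝ) ≤ Y *
      𝒜.out (cat (Kq q) (Rq q) (q * (2 * g)) (fun c => ext (toF a0 A c)) m ++
        List.replicate (r A) 1)} (fun _ => (1 : ℝ)) A
      ≤ ((Rq q : ℝ) ^ Fintype.card (dom (Kq q + 4 * Rq q) (q * (2 * g)))) ^ m * Y⁻¹ := by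
  classical
  have hq3 : 3 ≤ q := by omega
  have h1 := parz hq3
  have h2 := par1 hq3
  have hR := Rq_pos q
  have hz1 := h1.hz1
  obtain ⟨t1, t2, t4⟩ := num_parts (g := 2 * g) hq3 hs2 (le_refl _)
  have hsb := num_b hq hs1
  have hx := xq_ge q
  have hx1 : xq q < 1 := xq_lt
  have hx0 : 0 < xq q := by linarith
  have hR0 : (0 : ℝ) < Rq q := by exact_mod_cast hR
  have hG16 : (16 : ℝ) ≤ Gr q := by
    have e1 : 2 ^ 4 ≤ 2 ^ q := Nat.pow_le_pow_right (by norm_num) hq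
    exact_mod_cast e1.trans (two_pow_le q)
  have hN1 : (1 : ℝ) ≤ ((Kq q : ℝ) + 3 * Rq q) ^ (q * (2 * g)) := by
    apply one_le_pow₀
    have : (1 : ℝ) ≤ Rq q := by exact_mod_cast hR
    have : (0 : ℝ) ≤ Kq q := Nat.cast_nonneg _
    linarith
  set N0 := ((Kq q : ℝ) + 3 * Rq q) ^ (q * (2 * g)) with hN0
  have hN0pos : 0 < N0 := by linarith
  set ξ := xq q ^ g with hξ
  have hξ0 : 0 < ξ := by positivity
  have hξ1 : ξ ≤ 1 := pow_le_one₀ hx0.le hx1.le
  have hξ2 : xq q ^ (2 * g) = ξ * ξ := by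
    rw [two_mul, pow_add]
  rw [hξ2] at t1 t2 t4
  have hθ : 0 < N0 * ξ := by positivity
  have hmξ : 1 ≤ ξ * m := by
    calc (1 : ℝ) ≤ (xq q * Gr q) ^ g := one_le_pow₀ (by nlinarith)
      _ = ξ * (Gr q : ℝ) ^ g := mul_pow _ _ _
      _ ≤ _ := by
          apply mul_le_mul_of_nonneg_left _ hξ0.le
          exact_mod_cast hm
  have hm0 : (0 : ℝ) < m := by
    by_contra hcon
    have : (m : ℝ) = 0 := le_antisymm (not_lt.1 hcon) (Nat.cast_nonneg _)
    rw [this, mul_zero] at hmξ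
    linarith
  set Z0 : ℕ := s + ⌈(2 * Gr q + 1) * ξ * m⌉₊ with hZ0
  have hZ1 : (s : ℝ) + (2 * Gr q + 1) * ξ * m ≤ Z0 := by
    rw [hZ0, Nat.cast_add]
    have := Nat.le_ceil ((2 * (Gr q : ℝ) + 1) * ξ * m)
    linarith
  have hZ2 : (Z0 : ℝ) ≤ (3 * Gr q + 2) * (ξ * m) := by
    have e1 : (⌈(2 * (Gr q : ℝ) + 1) * ξ * m⌉₊ : ℝ) < (2 * Gr q + 1) * ξ * m + 1 :=
      Nat.ceil_lt_add_one (by positivity)
    have e2 : (s : ℝ) ≤ Gr q * (ξ * m) := by
      calc (s : ℝ) ≤ (Gr q : ℝ) ^ (g + 1) * ξ := hsb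
        _ = Gr q * (ξ * (Gr q : ℝ) ^ g) := by
            rw [pow_succ]
            ring
        _ ≤ _ := by
            apply mul_le_mul_of_nonneg_left _ (by linarith)
            apply mul_le_mul_of_nonneg_left _ hξ0.le
            exact_mod_cast hm
    rw [hZ0, Nat.cast_add]
    nlinarith
  -- the bad sets
  set T4 := ((Kq q : ℝ) + 4 * Rq q) ^ (q * (2 * g)) * (s * (2 ^ (q * (2 * g)) *
    (Rq q : ℝ) ^ (2 * g + 2 * g))) / (Rq q : ℝ) ^ (q * (2 * g)) with hT4
  have hT40 : 0 ≤ T4 := by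
    rw [hT4]
    positivity
  have hπ : T4 / (N0 * ξ) ≤ Gr q * ξ := by
    rw [div_le_iff₀ hθ]
    calc T4 ≤ _ := t4
      _ = _ := by ring
  have hcb := count_bad (K := Kq q) (h := q * (2 * g)) (b := 2 * g) (u := 2 * g) hR hθ
    𝒜.toPassMemory p Z0 a0 m
  have hnc := num_c (π := T4 / (N0 * ξ)) hq hg hm hY1 hYY hp (by positivity) hπ hZ1
  set C := (Rq q : ℝ) ^ Fintype.card (dom (Kq q + 4 * Rq q) (q * (2 * g))) with hC
  have hC0 : 0 < C := by positivity
  set BS := Finset.univ.filter fun A : Fin m → (dom (Kq q + 4 * Rq q) (q * (2 * g)) →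
    Fin (Rq q)) => ∃ κ < p, ∃ q0 : 𝒜.Q, Z0 ≤ Zn (Kq q) (Rq q) (q * (2 * g)) (2 * g) (2 * g)
      (N0 * ξ) 𝒜.toPassMemory κ q0 (fun c => ext (toF a0 A c)) m with hBS
  have hBScard : (BS.card : ℝ) ≤ C ^ m * Y⁻¹ := by
    have e1 : (BS.card : ℝ) * 2 ^ Z0 ≤ p * 2 ^ s * (C * (1 + T4 / (N0 * ξ))) ^ m := hcb
    rw [mul_pow] at e1
    have e2 : (BS.card : ℝ) * 2 ^ Z0 * Y ≤ C ^ m * 2 ^ Z0 := by
      calc (BS.card : ℝ) * 2 ^ Z0 * Y
          ≤ p * 2 ^ s * (C ^ m * (1 + T4 / (N0 * ξ)) ^ m) * Y :=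
            mul_le_mul_of_nonneg_right e1 (by linarith)
        _ = C ^ m * (p * 2 ^ s * (1 + T4 / (N0 * ξ)) ^ m * Y) := by ring
        _ ≤ C ^ m * 2 ^ Z0 := mul_le_mul_of_nonneg_left hnc (by positivity)
    have e3 : (BS.card : ℝ) * Y ≤ C ^ m := by
      have : (0 : ℝ) < 2 ^ Z0 := by positivity
      nlinarith
    rw [← div_eq_mul_inv, le_div_iff₀ (by linarith)]
    exact e3
  -- a success implies that the sequence is bad
  have hsub : ∀ A : Fin m → (dom (Kq q + 4 * Rq q) (q * (2 * g)) → Fin (Rq q)),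
      (LIS (cat (Kq q) (Rq q) (q * (2 * g)) (fun c => ext (toF a0 A c)) m ++
        List.replicate (r A) 1) : ℝ) ≤ Y *
      𝒜.out (cat (Kq q) (Rq q) (q * (2 * g)) (fun c => ext (toF a0 A c)) m ++
        List.replicate (r A) 1) → A ∈ BS := by
    intro A hA
    by_contra hcon
    have hgood : ∀ κ < p, ∀ q0 : 𝒜.Q, Zn (Kq q) (Rq q) (q * (2 * g)) (2 * g) (2 * g)
        (N0 * ξ) 𝒜.toPassMemory κ q0 (fun c => ext (toF a0 A c)) m ≤ Z0 := by
      intro κ hκ q0
      by_contra hcon2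
      exact hcon (Finset.mem_filter.2 ⟨Finset.mem_univ _, κ, hκ, q0, by omega⟩)
    have hAlt : ∀ c l, (fun c => ext (toF a0 A c)) c l < Rq q := fun c l => ext_lt hR _ l
    set l := cat (Kq q) (Rq q) (q * (2 * g)) (fun c => ext (toF a0 A c)) m ++
        List.replicate (r A) 1 with hl
    have hLIS := le_LIS_cat (K := Kq q) hAlt (q * (2 * g)) m (List.replicate (r A) 1)
    have hLIS' : (m : ℝ) * N0 ≤ (LIS l : ℝ) := by
      rw [hN0, hl]
      exact_mod_cast hLIS
    have hsum : ∑ c ∈ Finset.range m, Fc (Kq q) (Rq q) (q * (2 * g)) (2 * g) (2 * g) p (zq q)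
        (N0 * ξ) 𝒜.toPassMemory (𝒜.toPassMemory.passStart l) (fun c => ext (toF a0 A c)) c
        ≤ m * N0 * ξ * (2 + p + p * (3 * Gr q + 2)) := by
      refine (sum_Fc hz1 hθ.le 𝒜.toPassMemory _ _ m).trans ?_
      have e1 : ∑ κ ∈ Finset.range p, (Zn (Kq q) (Rq q) (q * (2 * g)) (2 * g) (2 * g)
          (N0 * ξ) 𝒜.toPassMemory κ (𝒜.toPassMemory.passStart l κ)
            (fun c => ext (toF a0 A c)) m : ℝ) ≤ p * ((3 * Gr q + 2) * (ξ * m)) := by
        calc _ ≤ ∑ κ ∈ Finset.range p, (3 * (Gr q : ℝ) + 2) * (ξ * m) := by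
              apply Finset.sum_le_sum
              intro κ hκ
              refine le_trans ?_ hZ2
              exact_mod_cast hgood κ (Finset.mem_range.1 hκ) _
          _ = _ := by rw [Finset.sum_const, Finset.card_range, nsmul_eq_mul]
      have e2 := mul_le_mul_of_nonneg_left e1 hN0pos.le
      have e3 : ξ * ξ * N0 ≤ ξ * N0 := by
        apply mul_le_mul_of_nonneg_right _ hN0pos.le
        nlinarith
      have e4 := mul_le_mul_of_nonneg_left (add_le_add t1 t2) hm0.le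
      have e5 := mul_le_mul_of_nonneg_left e3 hm0.le
      calc _ ≤ (m : ℝ) * (2 * (ξ * N0) + p * (N0 * ξ))
            + N0 * (p * ((3 * Gr q + 2) * (ξ * m))) := by
            refine add_le_add ?_ e2
            nlinarith
        _ = _ := by ring
    have hout : (𝒜.out l : ℝ) ≤ m * N0 * ξ * (2 + p + p * (3 * Gr q + 2)) + 1 := by
      have hnn : (0 : ℝ) ≤ m * N0 * ξ * (2 + p + p * (3 * Gr q + 2)) := by positivity
      rcases 𝒜.out_le l with h3 | ⟨k, j, h3, h4⟩
      · rw [h3, Nat.cast_zero]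
        linarith
      · have h5 := linked_le (b := 2 * g) (u := 2 * g) h1 h2 hθ.le hAlt m (r A) (hl ▸ h3)
        rw [← hl] at h5
        have h6 : (𝒜.out l : ℝ) ≤ k := by exact_mod_cast h4
        linarith
    have hfin : (𝒜.out l : ℝ) ≤ m * N0 * (Y * (3 * Gr q + 6) * ξ) := by
      have e1 : (1 : ℝ) ≤ m * N0 * ξ := by nlinarith
      have e2 : (2 : ℝ) + p + p * (3 * Gr q + 2) + 1 ≤ Y * (3 * Gr q + 6) := by
        nlinarith
      calc (𝒜.out l : ℝ) ≤ m * N0 * ξ * (2 + p + p * (3 * Gr q + 2)) + m * N0 * ξ := by linarith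
        _ = m * N0 * ξ * (2 + p + p * (3 * Gr q + 2) + 1) := by ring
        _ ≤ m * N0 * ξ * (Y * (3 * Gr q + 6)) :=
            mul_le_mul_of_nonneg_left e2 (by positivity)
        _ = _ := by ring
    have e3 : (m : ℝ) * N0 ≤ m * N0 * (Y * Y * (3 * Gr q + 6) * ξ) := by
      calc (m : ℝ) * N0 ≤ (LIS l : ℝ) := hLIS'
        _ ≤ Y * 𝒜.out l := hA
        _ ≤ Y * (m * N0 * (Y * (3 * Gr q + 6) * ξ)) :=
            mul_le_mul_of_nonneg_left hfin (by linarith)
        _ = _ := by ring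
    have e4 : (m : ℝ) * N0 * (Y * Y * (3 * Gr q + 6) * ξ) < m * N0 * 1 :=
      mul_lt_mul_of_pos_left hY2 (by positivity)
    linarith
  refine le_trans ?_ hBScard
  have hle : ∀ A ∈ (Finset.univ : Finset (Fin m → (dom (Kq q + 4 * Rq q) (q * (2 * g)) →
      Fin (Rq q)))), Set.indicator {A : Fin m → (dom (Kq q + 4 * Rq q) (q * (2 * g)) →
        Fin (Rq q)) |
      (LIS (cat (Kq q) (Rq q) (q * (2 * g)) (fun c => ext (toF a0 A c)) m ++
        List.replicate (r A) 1) : ℝ) ≤ Y *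
      𝒜.out (cat (Kq q) (Rq q) (q * (2 * g)) (fun c => ext (toF a0 A c)) m ++
        List.replicate (r A) 1)} (fun _ => (1 : ℝ)) A ≤ if A ∈ BS then 1 else 0 := by
    intro A _
    by_cases hA : A ∈ {A : Fin m → (dom (Kq q + 4 * Rq q) (q * (2 * g)) → Fin (Rq q)) |
      (LIS (cat (Kq q) (Rq q) (q * (2 * g)) (fun c => ext (toF a0 A c)) m ++
        List.replicate (r A) 1) : ℝ) ≤ Y *
      𝒜.out (cat (Kq q) (Rq q) (q * (2 * g)) (fun c => ext (toF a0 A c)) m ++
        List.replicate (r A) 1)}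
    · rw [Set.indicator_of_mem hA, if_pos (hsub A hA)]
    · rw [Set.indicator_of_notMem hA]
      split_ifs <;> norm_num
  refine (Finset.sum_le_sum hle).trans (le_of_eq ?_)
  rw [Finset.sum_ite_mem, Finset.univ_inter, Finset.sum_const, nsmul_eq_mul, mul_one]

end H40.LS
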