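import Pool.Agent.H40.LS.Model

/-!
# Streaming algorithms with several passes

The element at position `i` of the stream `l` is `l.getD i 0`.
-/

namespace H40.LS

/-- The state after the list `l` has been read, starting in the state `q` with the element at
position `i`. -/
def run {Q : Type} (step : ℕ → Q → ℕ → Q) : ℕ → Q → List ℕ → Q
  | _, q, [] => q
  | i, q, x :: l => run step (i + 1) (step i q x) l

/-- A deterministic streaming algorithm with `s` bits of memory: it has at most `2 ^ s` states.
`step κ i q x` is the next state if in the pass `κ` the element `x` at position `i` is read in the
state `q`.  `mem q` is the set of the positions of the at most `s` elements of the stream which are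
kept in the state `q`; an element enters this set only when it is read. -/
structure PassMemory (s : ℕ) where
  /-- the states of the memory -/
  Q : Type
  [fin : Fintype Q]
  card_le : Fintype.card Q ≤ 2 ^ s
  /-- the initial state -/
  start : Q
  /-- the transition function -/
  step : ℕ → ℕ → Q → ℕ → Q
  /-- the positions of the elements in the memory -/
  mem : Q → Finset ℕ
  mem_start : mem start = ∅
  mem_step : ∀ κ i q x, mem (step κ i q x) ⊆ insert i (mem q)
  mem_card : ∀ q, (mem q).card ≤ s

attribute [instance] PassMemory.fin

/-- The state at the beginning of the pass `κ` over the stream `l`. -/
def PassMemory.passStart {s : ℕ} (M : PassMemory s) (l : List ℕ) : ℕ → M.Q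
  | 0 => M.start
  | κ + 1 => run (M.step κ) 0 (M.passStart l κ) l

/-- `PLinked M p l k j`: the stream `l` has an increasing subsequence of length `k` which ends at the
position `j` and is such that every element of it is, in one of the first `p` passes, in the memory
when the next one is read. -/
inductive PLinked {s : ℕ} (M : PassMemory s) (p : ℕ) (l : List ℕ) : ℕ → ℕ → Prop
  | one (j : ℕ) : j < l.length → PLinked M p l 1 j
  | step (k i j κ : ℕ) : PLinked M p l k i → i < j → j < l.length → l.getD i 0 < l.getD j 0 →
      κ < p → i ∈ M.mem (run (M.step κ) 0 (M.passStart l κ) (l.take j)) → PLinked M p l (k + 1) j

/-- A deterministic streaming algorithm with `p` passes and `s` bits of memory whose output is at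
most the length of an increasing subsequence every element of which is, in one of the passes, in
the memory when the next one is read. -/
structure PassAlg (p s : ℕ) extends PassMemory s where
  /-- the output -/
  out : List ℕ → ℕ
  out_le : ∀ l, out l = 0 ∨ ∃ k j, PLinked toPassMemory p l k j ∧ out l ≤ k

end H40.LS
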