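import Pool.Agent.H40.LS.Lev

/-!
# The potential
-/

namespace H40.LS

variable {K R : ℕ} {y z : ℝ}

theorem tm_cons (e : ℕ × ℕ) (x : List (ℕ × ℕ)) : tm (e :: x) = e.2 :: tm x := rfl

theorem code_cons (T B : ℕ) (e : ℕ × ℕ) (x : List (ℕ × ℕ)) :
    code T B (e :: x) = (e.1 * T + e.2) * B ^ x.length + code T B x := rfl

theorem tm_length (x : List (ℕ × ℕ)) : (tm x).length = x.length := List.length_map ..

theorem row_lt {a t ρ : ℕ} (ha : a < R) (hρ : ρ ∈ rows K R a t) : ρ < 2 * R := by
  rcases mem_rows.1 hρ with ⟨ht, i, hi, hi2, hρi⟩ | ⟨ht, hta, hρa⟩ <;> omega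

theorem Val.lt : ∀ {x : List (ℕ × ℕ)} {A : List ℕ → ℕ}, (∀ l, A l < R) → Val K R A x →
    ∀ e ∈ x, e.1 < 2 * R ∧ e.2 < K + 4 * R
  | [], _, _, _ => by simp
  | e :: x, A, hA, hx => by
    intro e' he'
    rcases List.mem_cons.1 he' with rfl | he'
    · exact ⟨row_lt (hA []) hx.1, hx.2.1⟩
    · exact Val.lt (A := fun l => A (e.2 :: l)) (fun l => hA _) hx.2.2 e' he'

/-- The code is smaller than `B ^ length`. -/
theorem code_lt : ∀ {x : List (ℕ × ℕ)}, (∀ e ∈ x, e.1 < 2 * R ∧ e.2 < K + 4 * R) →
    code (K + 4 * R) (2 * R * (K + 4 * R)) x < (2 * R * (K + 4 * R)) ^ x.length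
  | [], _ => by simp [code]
  | e :: x, hx => by
    have ih := code_lt (x := x) fun e' he' => hx e' (List.mem_cons_of_mem _ he')
    obtain ⟨h1, h2⟩ := hx e List.mem_cons_self
    have h3 : e.1 * (K + 4 * R) + e.2 + 1 ≤ 2 * R * (K + 4 * R) := by
      have : (e.1 + 1) * (K + 4 * R) ≤ 2 * R * (K + 4 * R) := Nat.mul_le_mul_right _ h1
      have h4 : (e.1 + 1) * (K + 4 * R) = e.1 * (K + 4 * R) + (K + 4 * R) := by ring
      omega
    have h5 := Nat.mul_le_mul_right ((2 * R * (K + 4 * R)) ^ x.length) h3
    have h6 : (e.1 * (K + 4 * R) + e.2 + 1) * (2 * R * (K + 4 * R)) ^ x.length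
        = (e.1 * (K + 4 * R) + e.2) * (2 * R * (K + 4 * R)) ^ x.length
          + (2 * R * (K + 4 * R)) ^ x.length := by ring
    rw [List.length_cons, pow_succ']
    change (e.1 * (K + 4 * R) + e.2) * (2 * R * (K + 4 * R)) ^ x.length
      + code (K + 4 * R) (2 * R * (K + 4 * R)) x < _
    omega

/-- Comparison of the codes of two lists of the same length. -/
theorem code_cons_lt {e e' : ℕ × ℕ} {x x' : List (ℕ × ℕ)}
    (hx : ∀ e ∈ x, e.1 < 2 * R ∧ e.2 < K + 4 * R)
    (hx' : ∀ e ∈ x', e.1 < 2 * R ∧ e.2 < K + 4 * R) (hl : x.length = x'.length) :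
    code (K + 4 * R) (2 * R * (K + 4 * R)) (e :: x)
      < code (K + 4 * R) (2 * R * (K + 4 * R)) (e' :: x') ↔
    (e.1 * (K + 4 * R) + e.2 < e'.1 * (K + 4 * R) + e'.2 ∨
      (e.1 * (K + 4 * R) + e.2 = e'.1 * (K + 4 * R) + e'.2 ∧
        code (K + 4 * R) (2 * R * (K + 4 * R)) x < code (K + 4 * R) (2 * R * (K + 4 * R)) x')) := by
  have h1 := code_lt hx
  have h2 := code_lt hx'
  rw [code_cons, code_cons]
  rw [← hl] at h2 ⊢
  generalize (2 * R * (K + 4 * R)) ^ x.length = P at *
  generalize code (K + 4 * R) (2 * R * (K + 4 * R)) x = c at *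
  generalize code (K + 4 * R) (2 * R * (K + 4 * R)) x' = c' at *
  generalize e.1 * (K + 4 * R) + e.2 = d at *
  generalize e'.1 * (K + 4 * R) + e'.2 = d' at *
  constructor
  · intro h3
    rcases lt_trichotomy d d' with h4 | h4 | h4
    · exact Or.inl h4
    · subst h4
      exact Or.inr ⟨rfl, by omega⟩
    · exfalso
      have h5 : (d' + 1) * P ≤ d * P := Nat.mul_le_mul_right _ h4
      have h6 : (d' + 1) * P = d' * P + P := by ring
      omega
  · rintro (h3 | ⟨h3, h4⟩)
    · have h5 : (d + 1) * P ≤ d' * P := Nat.mul_le_mul_right _ h3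
      have h6 : (d + 1) * P = d * P + P := by ring
      omega
    · subst h3
      omega

theorem pot_bd (h : Par K R y z) : ∀ {x : List (ℕ × ℕ)} {A : List ℕ → ℕ}, (∀ l, A l < R) →
    Val K R A x → 1 ≤ wt K R y z A x ∧ wt K R y z A x ≤ Ps K R y z A x ∧
      Ps K R y z A x ≤ ((K : ℝ) + 3 * R * y) ^ x.length
  | [], _, _, _ => by
    refine ⟨le_refl _, le_refl _, ?_⟩
    change (1 : ℝ) ≤ _
    rw [List.length_nil, pow_zero]
  | e :: x, A, hA, hx => by
    obtain ⟨h1, h2, h3⟩ := pot_bd h (x := x) (A := fun l => A (e.2 :: l)) (fun l => hA _) hx.2.2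
    obtain ⟨c1, c2, c3⟩ := levc h (hA []) hx.1
    have hM := h.M
    have hR : (1 : ℝ) ≤ R := by exact_mod_cast h.hR
    have hK0 : (0 : ℝ) ≤ K := Nat.cast_nonneg _
    have hM0 : (0 : ℝ) ≤ ((K : ℝ) + 3 * R * y) ^ x.length := pow_nonneg (by linarith) _
    change 1 ≤ W K R y z (A []) e.1 e.2 * wt K R y z (fun l => A (e.2 :: l)) x ∧
      W K R y z (A []) e.1 e.2 * wt K R y z (fun l => A (e.2 :: l)) x ≤
        O K R y z (A []) e.1 e.2 * ((K : ℝ) + 3 * R * y) ^ x.length
          + W K R y z (A []) e.1 e.2 * Ps K R y z (fun l => A (e.2 :: l)) x ∧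
      O K R y z (A []) e.1 e.2 * ((K : ℝ) + 3 * R * y) ^ x.length
          + W K R y z (A []) e.1 e.2 * Ps K R y z (fun l => A (e.2 :: l)) x ≤ _
    rw [List.length_cons, pow_succ']
    generalize W K R y z (A []) e.1 e.2 = w at *
    generalize O K R y z (A []) e.1 e.2 = o at *
    generalize ((K : ℝ) + 3 * R * y) ^ x.length = P at *
    generalize Ps K R y z (fun l => A (e.2 :: l)) x = p at *
    generalize wt K R y z (fun l => A (e.2 :: l)) x = q at *
    refine ⟨?_, ?_, ?_⟩
    · nlinarith
    · have := mul_nonneg c1 hM0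
      have := mul_le_mul_of_nonneg_left h2 (show (0 : ℝ) ≤ w by linarith)
      linarith
    · have h4 := mul_le_mul_of_nonneg_left h3 (show (0 : ℝ) ≤ w by linarith)
      have h5 := mul_le_mul_of_nonneg_right c3 hM0
      linarith

theorem pot (h : Par K R y z) : ∀ {x x' : List (ℕ × ℕ)} {A : List ℕ → ℕ}, (∀ l, A l < R) →
    Val K R A x → Val K R A x' → x.length = x'.length → tlt (tm x) (tm x') →
    Ps K R y z A x + wt K R y z A x'
      ≤ Ps K R y z A x' + ((K : ℝ) + 3 * R * y) ^ x.length / 4 ∧
    (code (K + 4 * R) (2 * R * (K + 4 * R)) x < code (K + 4 * R) (2 * R * (K + 4 * R)) x' →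
      Ps K R y z A x + wt K R y z A x' ≤ Ps K R y z A x')
  | [], _, _, _, _, _, _, ht => by
    exact ht.elim
  | e :: x, [], _, _, _, _, hl, _ => by
    simp at hl
  | (ρ, t) :: x, (ρ', t') :: x', A, hA, hx, hx', hl, ht => by
    have hl' : x.length = x'.length := by simpa using hl
    have b1 := pot_bd h (x := x) (A := fun l => A (t :: l)) (fun l => hA _) hx.2.2
    have b2 := pot_bd h (x := x') (A := fun l => A (t' :: l)) (fun l => hA _) hx'.2.2
    have c1 := levc h (hA []) hx.1
    have c2 := levc h (hA []) hx'.1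
    have hM := h.M
    have hR : (1 : ℝ) ≤ R := by exact_mod_cast h.hR
    have hK0 : (0 : ℝ) ≤ K := Nat.cast_nonneg _
    have hM0 : (0 : ℝ) ≤ ((K : ℝ) + 3 * R * y) ^ x.length := pow_nonneg (by linarith) _
    have hM1 : (0 : ℝ) ≤ (K : ℝ) + 3 * R * y := by linarith
    have hv := Val.lt (A := fun l => A (t :: l)) (fun l => hA _) hx.2.2
    have hv' := Val.lt (A := fun l => A (t' :: l)) (fun l => hA _) hx'.2.2
    rw [code_cons_lt hv hv' hl']
    change
      O K R y z (A []) ρ t * ((K : ℝ) + 3 * R * y) ^ x.length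
          + W K R y z (A []) ρ t * Ps K R y z (fun l => A (t :: l)) x
        + W K R y z (A []) ρ' t' * wt K R y z (fun l => A (t' :: l)) x'
      ≤ O K R y z (A []) ρ' t' * ((K : ℝ) + 3 * R * y) ^ x'.length
          + W K R y z (A []) ρ' t' * Ps K R y z (fun l => A (t' :: l)) x'
        + ((K : ℝ) + 3 * R * y) ^ (x.length + 1) / 4 ∧
      (_ →
      O K R y z (A []) ρ t * ((K : ℝ) + 3 * R * y) ^ x.length
          + W K R y z (A []) ρ t * Ps K R y z (fun l => A (t :: l)) x
        + W K R y z (A []) ρ' t' * wt K R y z (fun l => A (t' :: l)) x'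
      ≤ O K R y z (A []) ρ' t' * ((K : ℝ) + 3 * R * y) ^ x'.length
          + W K R y z (A []) ρ' t' * Ps K R y z (fun l => A (t' :: l)) x')
    rw [← hl', pow_succ']
    rw [tm_cons, tm_cons] at ht
    rcases ht with ht | ⟨ht, ht2⟩
    · -- strictly later time
      change t < t' at ht
      have hd := levd h (hA []) hx.1 hx'.1 ht
      have ha := leva h (hA []) hx.1 hx'.1 ht
      change O K R y z (A []) ρ t + W K R y z (A []) ρ t
        ≤ O K R y z (A []) ρ' t' + ((K : ℝ) + 3 * R * y) / 4 at hd
      change ρ ≤ ρ' → O K R y z (A []) ρ t + W K R y z (A []) ρ t ≤ O K R y z (A []) ρ' t' at ha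
      have hρρ : ρ * (K + 4 * R) + t < ρ' * (K + 4 * R) + t' ∨
          (ρ * (K + 4 * R) + t = ρ' * (K + 4 * R) + t' ∧
            code (K + 4 * R) (2 * R * (K + 4 * R)) x
              < code (K + 4 * R) (2 * R * (K + 4 * R)) x') → ρ ≤ ρ' := by
        intro h3
        have h4 : ρ * (K + 4 * R) + t ≤ ρ' * (K + 4 * R) + t' := by
          rcases h3 with h3 | ⟨h3, -⟩
          · exact h3.le
          · exact h3.le
        have ht'T : t' < K + 4 * R := hx'.2.1
        by_contra hcon
        have h5 : (ρ' + 1) * (K + 4 * R) ≤ ρ * (K + 4 * R) := Nat.mul_le_mul_right _ (by omega)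
        have h6 : (ρ' + 1) * (K + 4 * R) = ρ' * (K + 4 * R) + (K + 4 * R) := by ring
        omega
      change 0 ≤ O K R y z (A []) ρ t ∧ 1 ≤ W K R y z (A []) ρ t ∧ _ at c1
      change 0 ≤ O K R y z (A []) ρ' t' ∧ 1 ≤ W K R y z (A []) ρ' t' ∧ _ at c2
      generalize W K R y z (A []) ρ t = w at *
      generalize W K R y z (A []) ρ' t' = w' at *
      generalize O K R y z (A []) ρ t = o at *
      generalize O K R y z (A []) ρ' t' = o' at *
      generalize ((K : ℝ) + 3 * R * y) ^ x.length = P at *
      generalize ((K : ℝ) + 3 * R * y) = M at *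
      generalize Ps K R y z (fun l => A (t :: l)) x = p at *
      generalize Ps K R y z (fun l => A (t' :: l)) x' = p' at *
      generalize wt K R y z (fun l => A (t' :: l)) x' = q' at *
      have h7 : w * p ≤ w * P := mul_le_mul_of_nonneg_left b1.2.2 (by linarith)
      have h8 : w' * q' ≤ w' * p' := mul_le_mul_of_nonneg_left b2.2.1 (by linarith)
      constructor
      · have h9 := mul_le_mul_of_nonneg_right hd hM0
        linarith
      · intro h3
        have h9 := mul_le_mul_of_nonneg_right (ha (hρρ h3)) hM0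
        linarith
    · -- the same time
      change t = t' at ht
      subst ht
      obtain ⟨i1, i2⟩ := pot h (A := fun l => A (t :: l)) (fun l => hA _) hx.2.2 hx'.2.2 hl' ht2
      by_cases hρρ : ρ = ρ'
      · subst hρρ
        change 0 ≤ O K R y z (A []) ρ t ∧ 1 ≤ W K R y z (A []) ρ t ∧ _ ≤ _ at c1
        have hwM : W K R y z (A []) ρ t ≤ (K : ℝ) + 3 * R * y := by
          have := c1.2.2
          change O K R y z (A []) ρ t + W K R y z (A []) ρ t ≤ _ at this
          linarith [c1.1]
        have hw1 := c1.2.1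
        generalize W K R y z (A []) ρ t = w at *
        generalize O K R y z (A []) ρ t = o at *
        generalize ((K : ℝ) + 3 * R * y) ^ x.length = P at *
        generalize ((K : ℝ) + 3 * R * y) = M at *
        generalize Ps K R y z (fun l => A (t :: l)) x = p at *
        generalize Ps K R y z (fun l => A (t :: l)) x' = p' at *
        generalize wt K R y z (fun l => A (t :: l)) x' = q' at *
        constructor
        · have h9 := mul_le_mul_of_nonneg_left i1 (show (0 : ℝ) ≤ w by linarith)
          have h10 := mul_le_mul_of_nonneg_right hwM hM0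
          linarith
        · intro h3
          have h4 : code (K + 4 * R) (2 * R * (K + 4 * R)) x
              < code (K + 4 * R) (2 * R * (K + 4 * R)) x' := by
            rcases h3 with h3 | ⟨-, h3⟩
            · exact absurd h3 (lt_irrefl _)
            · exact h3
          have h9 := mul_le_mul_of_nonneg_left (i2 h4) (show (0 : ℝ) ≤ w by linarith)
          linarith
      · have hd := levd' h (hA []) hx.1 hx'.1 hρρ
        have hb := levb h (hA []) hx.1 hx'.1
        have hρlt : (ρ * (K + 4 * R) + t < ρ' * (K + 4 * R) + t ∨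
          (ρ * (K + 4 * R) + t = ρ' * (K + 4 * R) + t ∧
            code (K + 4 * R) (2 * R * (K + 4 * R)) x
              < code (K + 4 * R) (2 * R * (K + 4 * R)) x')) → ρ < ρ' := by
          intro h3
          have h4 : ρ * (K + 4 * R) + t ≤ ρ' * (K + 4 * R) + t := by
            rcases h3 with h3 | ⟨h3, -⟩
            · exact h3.le
            · exact h3.le
          by_contra hcon
          have h5 : (ρ' + 1) * (K + 4 * R) ≤ ρ * (K + 4 * R) := Nat.mul_le_mul_right _ (by omega)
          have h6 : (ρ' + 1) * (K + 4 * R) = ρ' * (K + 4 * R) + (K + 4 * R) := by ring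
          have := h.hR
          omega
        change _ ∧ _ at hd
        change 0 ≤ O K R y z (A []) ρ t ∧ 1 ≤ W K R y z (A []) ρ t ∧ _ at c1
        change 0 ≤ O K R y z (A []) ρ' t ∧ 1 ≤ W K R y z (A []) ρ' t ∧ _ at c2
        dsimp only at hd hb
        generalize W K R y z (A []) ρ t = w at *
        generalize W K R y z (A []) ρ' t = w' at *
        generalize O K R y z (A []) ρ t = o at *
        generalize O K R y z (A []) ρ' t = o' at *
        generalize ((K : ℝ) + 3 * R * y) ^ x.length = P at *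
        generalize ((K : ℝ) + 3 * R * y) = M at *
        generalize Ps K R y z (fun l => A (t :: l)) x = p at *
        generalize Ps K R y z (fun l => A (t :: l)) x' = p' at *
        generalize wt K R y z (fun l => A (t :: l)) x' = q' at *
        have hp0 : 0 ≤ p := by linarith [b1.1, b1.2.1]
        have h9 := mul_le_mul_of_nonneg_left i1 (show (0 : ℝ) ≤ w' by linarith)
        -- `(w - w') p ≤ max (w - w') 0 * P`
        have hww : (w - w') * p ≤ 0 ∨ (w - w') * p ≤ (w - w') * P := by
          rcases le_total w w' with hle | hle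
          · exact Or.inl (mul_nonpos_of_nonpos_of_nonneg (by linarith) hp0)
          · exact Or.inr (mul_le_mul_of_nonneg_left b1.2.2 (by linarith))
        constructor
        · have h10 := mul_le_mul_of_nonneg_right hd.1 hM0
          have h11 := mul_le_mul_of_nonneg_right hd.2 hM0
          rcases hww with hww | hww <;> linarith
        · intro h3
          have h10 := mul_le_mul_of_nonneg_right (hb (hρlt h3)).1 hM0
          have h11 := mul_le_mul_of_nonneg_right (hb (hρlt h3)).2 hM0
          rcases hww with hww | hww <;> linarith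
  termination_by x => x.length

end H40.LS
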