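import Pool.Agent.H40.LS.Defs

/-!
# Weakening of pairs is not needed
-/

namespace H40.LS

open Classical in
/-- The simulating algorithm, on reversed lists. -/
noncomputable def simr {s : ℕ} (𝒜 : PairAlg s) : List ℕ → Finset (ℕ × ℕ)
  | [] => ∅
  | x :: r => (𝒜.S (r.reverse ++ [x])).image fun p =>
      if h : ∃ p' : ℕ × ℕ, p'.1 ≤ p.1 ∧ p.2 ≤ p'.2 ∧ (p' ∈ simr 𝒜 r ∨ p' = (x, 1) ∨
        ∃ q ∈ simr 𝒜 r, q.1 < x ∧ p' = (x, q.2 + 1)) then h.choose else (x, 1)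

theorem simr_cover {s : ℕ} (𝒜 : PairAlg s) : ∀ r : List ℕ, ∀ p ∈ 𝒜.S r.reverse,
    ∃ q ∈ simr 𝒜 r, q.1 ≤ p.1 ∧ p.2 ≤ q.2
  | [], p, hp => by
    rw [List.reverse_nil, 𝒜.nil] at hp
    exact absurd hp (Finset.notMem_empty p)
  | x :: r, p, hp => by
    rw [List.reverse_cons] at hp
    have h : ∃ p' : ℕ × ℕ, p'.1 ≤ p.1 ∧ p.2 ≤ p'.2 ∧ (p' ∈ simr 𝒜 r ∨ p' = (x, 1) ∨
        ∃ q ∈ simr 𝒜 r, q.1 < x ∧ p' = (x, q.2 + 1)) := by
      rcases 𝒜.step _ _ _ hp with ⟨q, hq, h1, h2⟩ | ⟨h1, h2⟩ | ⟨q, hq, h1, h2, h3⟩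
      · obtain ⟨q', hq', h3, h4⟩ := simr_cover 𝒜 r q hq
        exact ⟨q', h3.trans h1, h2.trans h4, Or.inl hq'⟩
      · exact ⟨(x, 1), h1, h2, Or.inr (Or.inl rfl)⟩
      · obtain ⟨q', hq', h4, h5⟩ := simr_cover 𝒜 r q hq
        exact ⟨(x, q'.2 + 1), h2, by change p.2 ≤ q'.2 + 1; omega,
          Or.inr (Or.inr ⟨q', hq', lt_of_le_of_lt h4 h1, rfl⟩)⟩
    refine ⟨h.choose, ?_, h.choose_spec.1, h.choose_spec.2.1⟩
    exact Finset.mem_image.2 ⟨p, hp, dif_pos h⟩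

theorem simr_card {s : ℕ} (𝒜 : PairAlg s) (r : List ℕ) : (simr 𝒜 r).card ≤ s := by
  cases r with
  | nil =>
    unfold simr
    simp
  | cons x r =>
    unfold simr
    exact Finset.card_image_le.trans (𝒜.card_le _)

theorem simr_step {s : ℕ} (𝒜 : PairAlg s) (r : List ℕ) (x : ℕ) (p : ℕ × ℕ)
    (hp : p ∈ simr 𝒜 (x :: r)) : p ∈ simr 𝒜 r ∨ p = (x, 1) ∨
      ∃ q ∈ simr 𝒜 r, q.1 < x ∧ p = (x, q.2 + 1) := by
  unfold simr at hp
  rw [Finset.mem_image] at hp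
  obtain ⟨p', hp', h1⟩ := hp
  split_ifs at h1 with h
  · rw [← h1]
    exact h.choose_spec.2.2
  · exact Or.inr (Or.inl h1.symm)

/-- Every algorithm is dominated by an exact one. -/
theorem PairAlg.cert {s : ℕ} (𝒜 : PairAlg s) : Cert s 𝒜.out := by
  refine ⟨fun l => simr 𝒜 l.reverse, ⟨?_, ?_, ?_⟩, ?_⟩
  · change simr 𝒜 [] = ∅
    unfold simr
    rfl
  · intro l x p hp
    change p ∈ simr 𝒜 (l ++ [x]).reverse at hp
    rw [List.reverse_append] at hp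
    rcases simr_step 𝒜 l.reverse x p hp with h | h | ⟨q, hq, h1, h2⟩
    · exact Or.inl h
    · rw [h]
      exact Or.inr ⟨rfl, Or.inl (le_refl _)⟩
    · rw [h2]
      exact Or.inr ⟨rfl, Or.inr ⟨q, hq, h1, le_refl _⟩⟩
  · intro l
    exact simr_card 𝒜 _
  · intro l
    rcases 𝒜.out_le l with h | ⟨l', hl', p, hp, h⟩
    · exact Or.inl (by omega)
    · obtain ⟨q, hq, -, h1⟩ := simr_cover 𝒜 l'.reverse p (by rwa [List.reverse_reverse])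
      exact Or.inr ⟨l', hl', q, hq, by omega⟩

end H40.LS
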